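import Pool.Agent.Helper2.EG.Defs

/-!
# A1: generic combinations

`F` has positive characteristic `l` and infinitely many roots of unity.
FACTS (prove them first): a root of unity `c` (`c^n = 1`, `n > 0`) has `O.valuation c = 1` for every
valuation ring `O` of `F`.  If `c ≠ c'` are roots of unity then `c - c'` is a root of unity as well
(it is nonzero and algebraic over the prime field `F_l`, i.e. lies in a finite field), hence
`O.valuation (c - c') = 1`.  (E.g. the elements algebraic over `F_l` form a field, and every
nonzero element algebraic over the finite field `F_l` has finite order.)  More generally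
`O.valuation a = 1` for every `a ≠ 0` algebraic over `F_l`, e.g. `a = (p : F)` if it is not `0`.
PROOF `generic_comb`.  For fixed `O` at most one root of unity `c` is bad: if the valuations of `x`
and `z` differ none is bad; if they agree and are nonzero, `c` is bad iff `O.valuation (x/z + c) < 1`,
and if `c, c'` are bad, `O.valuation (c - c') < 1`, so `c = c'`.  If both are `0`, none is bad.
There are infinitely many roots of unity and finitely many `O ∈ S`.
`generic_family`: induction on the finite set `T`.
-/

set_option autoImplicit false

namespace Pool.Agent.Helper2.EG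

variable {F : Type*} [Field F]

theorem val_root_of_unity (O : ValuationSubring F) {c : F} {n : ℕ} (hn : 0 < n)
    (hc : c ^ n = 1) : O.valuation c = 1 := by
  sorry

theorem val_natCast (hG : Geo F) (O : ValuationSubring F) {m : ℕ} (hm : (m : F) ≠ 0) :
    O.valuation (m : F) = 1 := by
  sorry

theorem val_sub_roots (hG : Geo F) (O : ValuationSubring F) {c c' : F} {n n' : ℕ} (hn : 0 < n)
    (hc : c ^ n = 1) (hn' : 0 < n') (hc' : c' ^ n' = 1) (hne : c ≠ c') :
    O.valuation (c - c') = 1 := by
  sorry

theorem generic_comb (hG : Geo F) (S : Finset (ValuationSubring F)) (x z : F) :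
    ∃ c : F, (∃ n : ℕ, 0 < n ∧ c ^ n = 1) ∧
      ∀ O ∈ S, O.valuation (x + c * z) = max (O.valuation x) (O.valuation z) := by
  sorry

theorem generic_family (hG : Geo F) (S : Finset (ValuationSubring F)) (T : Finset F)
    (hT : T.Nonempty) :
    ∃ y : F, ∀ O ∈ S, (∀ x ∈ T, O.valuation x ≤ O.valuation y) ∧
      ∃ x ∈ T, O.valuation y = O.valuation x := by
  sorry

end Pool.Agent.Helper2.EG
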