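import Pool.Agent.Helper2.EG.A1

/-!
# A3: adjusting by `p`-th powers

PROOF `adjust`.  If `v₀ x = 1` take `y = 1`.  If `v₀ x > 1` replace `x` by `x⁻¹` (and `y` by `y⁻¹`).
So let `v₀ x < 1`.  By `PDiv` there is `y₀` with `v₀ (x y₀^p) = 1`; `y₁ = y₀⁻¹` has
`(v₀ y₁)^p = v₀ x`, so `v₀ y₁ < 1`, and `v₀ x ≤ v₀ y₁`.  Generic `c₁` for `1, y₁` (set
`insert O₀ S`): `y' = y₁ / (1 + c₁ y₁)`, `v y' = v y₁ / max 1 (v y₁) ≤ 1` for all `O ∈ S`,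
`v₀ y' = v₀ y₁`.  Generic `c₂` for `y', x`: `y'' = y' + c₂ x`: `v y'' = max (v y') 1 = 1` for `O ∈ S`
(as `v x = 1`), `v₀ y'' = max (v₀ y₁) (v₀ x) = v₀ y₁`.  So `y = y''⁻¹` works:
`v₀ (x y^p) = v₀ x / (v₀ y₁)^p = 1`.
`adjust_all`: induction on `T` (apply `adjust` to `x y^p` for the already treated part of `T`).
-/

set_option autoImplicit false

namespace Pool.Agent.Helper2.EG

variable {F : Type*} [Field F] {p : ℕ}

theorem adjust (hG : Geo F) (hp : p.Prime) (S : Finset (ValuationSubring F))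
    (O₀ : ValuationSubring F) (h₀ : PDiv p O₀) {x : F} (hx : x ≠ 0)
    (hS : ∀ O ∈ S, O.valuation x = 1) :
    ∃ y : F, y ≠ 0 ∧ (∀ O ∈ S, O.valuation y = 1) ∧ O₀.valuation (x * y ^ p) = 1 := by
  sorry

theorem adjust_all (hG : Geo F) (hp : p.Prime) (T : Finset (ValuationSubring F))
    (hT : ∀ O ∈ T, PDiv p O) {x : F} (hx : x ≠ 0) :
    ∃ y : F, y ≠ 0 ∧ ∀ O ∈ T, O.valuation (x * y ^ p) = 1 := by
  sorry

end Pool.Agent.Helper2.EG
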