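import Pool.Agent.Helper2.EG.Defs

/-!
# A4: the coarsest non-`p`-divisible coarsening; joins; distinct elements of `VV`

PROOF `exists_coarse`.  The overrings of `O` form a chain (`ValuationSubring.le_total_ideal` /
`linearOrderOverring`).  Let `𝒮 = {O' ≥ O | ¬ PDiv p O'}` and `O*` its union, a valuation subring
containing `O` (supremum of a chain).  Suppose `O*` is `p`-divisible.  For each of the finitely many
representatives `r ∈ R` of `F* / F*^p` there is `y` with `r y^p ∈ O*` and `(r y^p)⁻¹ ∈ O*`, hence both
lie in some `O_r ∈ 𝒮`; the largest `O'` of the finitely many `O_r` (and `O`) is in `𝒮`, and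
`v' (r y_r^p) = 1` for all `r`; since every `x ≠ 0` is `r z^p`, `O'` is `p`-divisible,
contradiction.  So `O* ∈ 𝒮` is its largest element and `O* ∈ VV`.
`VV_not_le`: two distinct elements of `VV` are incomparable.
`exists_join`: for `O, O'` the set of products `a b`, `a ∈ O`, `b ∈ O'`, is a valuation ring
(`O ⊔ O'` in Mathlib): every `x ∈ O ⊔ O'` satisfies `O.valuation x ≤ O.valuation b` for some
`b ∈ O'`.  (The set `J = {x | ∃ b ∈ O', v x ≤ v b}` is closed under addition since `v (x + y) ≤ max`,
under multiplication, contains `O` (b = 1) and `O'`; it is a subring containing `O`.)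
-/

set_option autoImplicit false

namespace Pool.Agent.Helper2.EG

variable {F : Type*} [Field F] {p : ℕ}

theorem exists_coarse (hfin : FinP p F) (O : ValuationSubring F) (h : ¬ PDiv p O) :
    ∃ O' ∈ VV p F, O ≤ O' := by
  sorry

theorem VV_not_le {O O' : ValuationSubring F} (h : O ∈ VV p F) (h' : O' ∈ VV p F)
    (hne : O ≠ O') : ¬ O ≤ O' := by
  sorry

theorem exists_join (O O' : ValuationSubring F) :
    ∃ J : ValuationSubring F, O ≤ J ∧ O' ≤ J ∧ ∀ x ∈ J, ∃ b ∈ O', O.valuation x ≤ O.valuation b := by
  sorry

end Pool.Agent.Helper2.EG
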