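import Pool.Agent.Helper2.EG.A2
import Pool.Agent.Helper2.EG.A3
import Pool.Agent.Helper2.EG.A4

/-!
# A10: weak approximation up to `p`-th powers

`O₀ ∈ VV`, `T` a finite subset of `VV` not containing `O₀`, `x ≠ 0`.  There are `y ∈ ⋂_T (1+m)` and
`z ≠ 0` with `y / (x z^p) ∈ 1 + m_{O₀}`.
PROOF.  (1) For `O ∈ T` the join `J_O ≥ O₀, O` (`exists_join O₀ O`) is a proper overring of `O₀`
(incomparable, `VV_not_le`), hence `p`-divisible.  `adjust_all` for the `J_O`: multiplying `x` by a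
`p`-th power we may assume `J_O.valuation x = 1` for all `O ∈ T`.
(2) If the claim holds for `x⁻¹` (`y`, `z`), it holds for `x` (`y⁻¹`, `z⁻¹`); so we may assume `v₀ x ≤ 1`.
(3) By `exists_join`, `x⁻¹ ∈ J_O`: there is `b_O ∈ O` with `v₀ b_O ≥ (v₀ x)⁻¹`.
(4) Making `x` integral at all `O ∈ T`: let `e` be from `exists_e` (`OneU O₀ e`, `v e < 1` for `O ∈ T`),
`z' = 1 - e` (`v₀ z' < 1`, `v z' = 1` for `O ∈ T`).  Generic `c` (for `insert O₀ T`) and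
`x₁ = (x⁻¹ + c z')⁻¹`.  At `O ∈ T`: `v (x⁻¹ + c z') = max (v x)⁻¹ 1`, so `v x₁ ≤ 1`.  At `O₀`:
`x₁ / x = (1 + c z' x)⁻¹ ∈ 1 + m` since `v₀ (z' x) < 1`.  So replace `x` by `x₁` (note `v₀ x₁ = v₀ x`).
(5) Element `h` with `v₀ h < v₀ x`, `v h = 1` for `O ∈ T`: `y_O = (b_O + c)⁻¹` (`c` generic):
`v₀ y_O = (max (v₀ b_O) 1)⁻¹ ≤ v₀ x`, `v_O y_O = 1`, all valuations `≤ 1` at `T`.  `g` = generic
combination of the `y_O` (`generic_family`; if `T` is empty take `g = 1` or treat `T = ∅` directly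
with `y = x`): `v₀ g ≤ v₀ x`, `v g = 1` for `O ∈ T`; `h = g z'`.
(6) `f = h / (h + e)`: at `O₀`: `v₀ h < 1`, `e ∈ 1 + m`, so `v₀ f = v₀ h < v₀ x`; at `O ∈ T`: `v h = 1`,
`v e < 1`, so `f = 1/(1 + e/h) ∈ 1 + m`.
(7) `y = x + (1 - x) f`: at `O₀`: `v₀ (1 - x) ≤ 1` and `v₀ f < v₀ x`, so `y / x ∈ 1 + m`; at `O ∈ T`:
`y - 1 = - (1 - x)(1 - f)`, `v (1 - x) ≤ 1`, `v (1 - f) < 1`.
-/

set_option autoImplicit false

namespace Pool.Agent.Helper2.EG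

variable {F : Type*} [Field F] {p : ℕ}

theorem weak_approx (hG : Geo F) (hp : p.Prime) (O₀ : ValuationSubring F)
    (T : Finset (ValuationSubring F)) (h₀ : O₀ ∈ VV p F) (hT : ∀ O ∈ T, O ∈ VV p F)
    (h₀T : O₀ ∉ T) {x : F} (hx : x ≠ 0) :
    ∃ y z : F, y ≠ 0 ∧ z ≠ 0 ∧ (∀ O ∈ T, OneU O y) ∧ OneU O₀ (y / (x * z ^ p)) := by
  sorry

end Pool.Agent.Helper2.EG
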