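import Pool.Agent.Helper2.EG.A1

/-!
# A2: an element close to `1` at `O₀` and small at the others

PROOF.  (all valuations written multiplicatively, `v₀` for `O₀`.)  If `T` is empty take `e = 1`.
(1) For `O ∈ T` choose `x ∈ O₀ ∖ O` and by `generic_comb` (for `S = insert O₀ T`, elements `x` and
`1`) a root of unity `c` with `v (x + c) = max (v x) 1` for all `v ∈ S`; `y_O = 1/(x + c)` has
`v₀ = 1`, `v_O < 1`, all `v ≤ 1`.  The product `y` of all `y_O` has `v₀ y = 1`, `v y < 1` for all
`O ∈ T`.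
(2) For `O ∈ T` choose `x' ∈ O ∖ O₀`, `y'_O = 1/(x' + c)`: `v_O = 1`, `v₀ < 1`, all `≤ 1`.  By
`generic_family` there is `z` whose valuation at each element of `S` is the maximum of the
valuations of the `y'_O`: `v₀ z < 1`, `v z = 1` for all `O ∈ T`.
(3) `generic_comb` for `y, z`: `e = y / (y + c z)`: at `O₀`: `y + c z` is a unit and
`e - 1 = - c z / (y + c z)` has valuation `< 1`; at `O ∈ T`: `v (y + c z) = max (v y) 1 = 1`, so
`v e = v y < 1`.
-/

set_option autoImplicit false

namespace Pool.Agent.Helper2.EG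

variable {F : Type*} [Field F]

theorem exists_e (hG : Geo F) (O₀ : ValuationSubring F) (T : Finset (ValuationSubring F))
    (h : ∀ O ∈ T, ¬ O₀ ≤ O ∧ ¬ O ≤ O₀) :
    ∃ e : F, OneU O₀ e ∧ ∀ O ∈ T, O.valuation e < 1 := by
  sorry

end Pool.Agent.Helper2.EG
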