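import Pool.Agent.Helper2.EG.A1

/-!
# A5: Newton's lemma, and the coarsening inverting `t`

PROOF `newton`.  `p` is a unit at every `O` (`val_natCast`).  If `S` is empty take `x' = x`, `y = 1`.
One step: `y₁ = 1 + x/p`; `(1 + x/p)^p = 1 + x + x² Q` with
`Q = ∑_{j ≥ 2} C(p,j) p^(-j) x^(j-2)` integral at all `O ∈ S`; so `1 + x = (1 + x₁) y₁^p` with
`x₁ = - x² Q / y₁^p`, `v x₁ ≤ (v x)²`, `y₁ ∈ 1 + m`, `y₁ ≠ 0`.  Iterate `n` times with `2^n ≥ N`
(products of elements of `1 + m` are in `1 + m`; `v x ≤ 1` gives `(v x)^(2^n) ≤ (v x)^N`).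
PROOF `exists_loc`.  `O' = {x | ∃ N, v x ≤ v(t)^(-N)}` is a valuation ring containing `O` and `t⁻¹`
(use `v (x + y) ≤ max`), and `v' x = 1` iff `x, x⁻¹ ∈ O'`.
-/

set_option autoImplicit false

namespace Pool.Agent.Helper2.EG

variable {F : Type*} [Field F] {p : ℕ}

theorem newton (hG : Geo F) (hp : p.Prime) (hp0 : (p : F) ≠ 0)
    (S : Finset (ValuationSubring F)) {x : F} (hx : ∀ O ∈ S, O.valuation x < 1) (N : ℕ) :
    ∃ x' y : F, y ≠ 0 ∧ 1 + x = (1 + x') * y ^ p ∧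
      ∀ O ∈ S, O.valuation x' ≤ O.valuation x ^ N ∧ OneU O y := by
  sorry

theorem exists_loc (O : ValuationSubring F) {t : F} (ht0 : t ≠ 0) (ht : O.valuation t < 1) :
    ∃ O' : ValuationSubring F, O < O' ∧
      ∀ x : F, O'.valuation x = 1 → ∃ N : ℕ, O.valuation (t ^ N) ≤ O.valuation x ∧
        O.valuation x ≤ O.valuation (t⁻¹ ^ N) := by
  sorry

end Pool.Agent.Helper2.EG
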