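import Pool.Agent.Helper2.EG.A3
import Pool.Agent.Helper2.EG.A5

/-!
# A6: `D ∩ D^⊥ = 0` for `D = φ(⋂_S (1 + m))`

`S` a finite subset of `VV`, `D = {φ x : x ∈ 1 + m for all O ∈ S}` (a subgroup of the finite `V`).
PROOF `exists_small`.  For each colour `d ∈ D` choose `x_d` with `φ (1 + x_d) = d`,
`v x_d < 1` for all `O ∈ S`; there is `t₀ ≠ 0` with `v t₀ < 1` for all `O ∈ S` (each `O ∈ S` is not `⊤`
because `⊤` is `p`-divisible: choose `0 ≠ t_O`, `v_O t_O < 1`, replace it by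
`t_O / (1 + c t_O)`, `c` generic, which is integral everywhere, and take the product).
`generic_family` for `{x_d} ∪ {t₀}` gives `t ≠ 0` (if `S` is empty take `t = 1`, statement trivial)
with `v x_d ≤ v t < 1`.  By `newton`, `1 + x_d = (1 + x') y^p` with `v x' ≤ (v x_d)^N ≤ (v t)^N`.

PROOF `disj`.  Let `u = φ x₀`, so `u ∈ D` and `ω u d = 0` for `d ∈ D`.  Let `t` be as above.
Claim 1: `ω u (φ x) = 0` if `x ≠ 0`, `v x < 1` and `v (t^N) < v x` for all `O ∈ S` (some `N`).  Proof: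
`φ (1 - x) ∈ D`; choose `y`, `φ y = u - φ (1 - x)`, `v (y - 1) ≤ v (t^N) < v x`; put
`x' = 1 - (1 - x) y`.  Then `x'/x = 1 + (1 - x)(1 - y)/x ∈ 1 + m` for all `O ∈ S`, so
`ω u (φ (x'/x)) = 0`; `φ (1 - x') = u`; Steinberg for `x'`: `ω (φ x') u = 0`, so by antisymmetry
(`Stb.anti'`) `ω u (φ x') = 0`, and `φ x = φ x' - φ (x'/x)`.
Claim 2: `ω u (φ z) = 0` if for some `N`: `v (t^N) ≤ v z ≤ v (t⁻¹^N)` for all `O ∈ S` (apply Claim 1 to
`z t^(N+1)` and `t^(N+1)`).
Claim 3: let `O'_O` be the coarsening of `O` from `exists_loc`; it is `p`-divisible as `O ∈ VV`.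
By `adjust_all` every `z ≠ 0` can be multiplied by a `p`-th power so that it becomes a unit in all
`O'_O`, i.e. satisfies Claim 2.  So `ω u (φ z) = 0` for all `z ≠ 0`, and `u = 0` by `Nondeg`.

PROOF `compl`.  `D` is a subspace (image of a group), `disj` says `D ⊓ D^⊥ = ⊥`; for a reflexive
form (`Stb.anti'`) on a finite dimensional space this gives `D ⊔ D^⊥ = ⊤`
(`LinearMap.BilinForm.isCompl_orthogonal_iff_disjoint` or a direct argument: restricting
`ω v` to `D` gives a functional on `D`, which is represented by an element of `D` since `ω` is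
nondegenerate on `D`).
-/

set_option autoImplicit false

namespace Pool.Agent.Helper2.EG

variable {F V : Type*} [Field F] [AddCommGroup V] {p : ℕ} [Module (ZMod p) V]
  {ω : V →ₗ[ZMod p] V →ₗ[ZMod p] ZMod p} {φ : F → V}

/-! ### auxiliary facts on one-units -/

theorem OneU.val {O : ValuationSubring F} {x : F} (h : OneU O x) : O.valuation x = 1 := by
  have h1 : O.valuation (x - 1) < O.valuation 1 := by rw [map_one]; exact h
  have h2 := Valuation.map_add_eq_of_lt_right O.valuation h1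
  rwa [sub_add_cancel, map_one] at h2

theorem OneU.ne_zero {O : ValuationSubring F} {x : F} (h : OneU O x) : x ≠ 0 := by
  rintro rfl
  have := h.val
  rw [map_zero] at this
  exact zero_ne_one this

theorem OneU.one (O : ValuationSubring F) : OneU O (1 : F) := by
  show O.valuation (1 - 1) < 1
  rw [sub_self, map_zero]
  exact zero_lt_one

theorem OneU.mul {O : ValuationSubring F} {x y : F} (hx : OneU O x) (hy : OneU O y) :
    OneU O (x * y) := by
  show O.valuation (x * y - 1) < 1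
  have e : x * y - 1 = (x - 1) * y + (y - 1) := by ring
  rw [e]
  refine lt_of_le_of_lt (O.valuation.map_add _ _) (max_lt ?_ hy)
  rw [map_mul, hy.val, mul_one]
  exact hx

theorem OneU.inv {O : ValuationSubring F} {x : F} (hx : OneU O x) : OneU O x⁻¹ := by
  show O.valuation (x⁻¹ - 1) < 1
  have h0 := hx.ne_zero
  have e : x⁻¹ - 1 = -(x⁻¹ * (x - 1)) := by
    field_simp
    ring
  rw [e, Valuation.map_neg, map_mul, map_inv₀, hx.val, inv_one, one_mul]
  exact hx

theorem OneU.div {O : ValuationSubring F} {x y : F} (hx : OneU O x) (hy : OneU O y) :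
    OneU O (x / y) := by
  rw [div_eq_mul_inv]
  exact hx.mul hy.inv

theorem oneU_one_sub {O : ValuationSubring F} {x : F} (hx : O.valuation x < 1) :
    OneU O (1 - x) := by
  show O.valuation (1 - x - 1) < 1
  have e : (1 : F) - x - 1 = -x := by ring
  rw [e, Valuation.map_neg]
  exact hx

theorem exists_val_lt {O : ValuationSubring F} (h : ¬ PDiv p O) :
    ∃ t : F, t ≠ 0 ∧ O.valuation t < 1 := by
  by_contra hcon
  push Not at hcon
  apply h
  intro x hx
  refine ⟨1, ?_⟩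
  rw [one_pow, mul_one]
  apply le_antisymm _ (hcon x hx)
  have h1 := hcon x⁻¹ (inv_ne_zero hx)
  rw [map_inv₀] at h1
  have h2 : O.valuation x ≠ 0 := (Valuation.ne_zero_iff _).2 hx
  have h3 : 0 < O.valuation x := zero_lt_iff.2 h2
  calc O.valuation x = O.valuation x * 1 := (mul_one _).symm
    _ ≤ O.valuation x * (O.valuation x)⁻¹ := mul_le_mul_right h1 _
    _ = 1 := mul_inv_cancel₀ h2

/-- one element which is small at all elements of `S`. -/
theorem exists_t0 (hG : Geo F) (S : Finset (ValuationSubring F))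
    (hSV : ∀ O ∈ S, ¬ PDiv p O) :
    ∃ t : F, t ≠ 0 ∧ ∀ O ∈ S, O.valuation t < 1 := by
  classical
  have key : ∀ O ∈ S, ∃ t : F, t ≠ 0 ∧ O.valuation t < 1 ∧ ∀ O' ∈ S, O'.valuation t ≤ 1 := by
    intro O hO
    obtain ⟨t, ht0, ht⟩ := exists_val_lt (hSV O hO)
    obtain ⟨c, -, hc⟩ := generic_comb hG S 1 t
    have hne : 1 + c * t ≠ 0 := by
      intro h0
      have h1 := hc O hO
      rw [h0, map_zero, map_one] at h1
      have h2 : (1 : O.ValueGroup) ≤ 0 := by
        rw [h1]; exact le_max_left _ _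
      exact not_lt_of_ge h2 zero_lt_one
    refine ⟨t / (1 + c * t), div_ne_zero ht0 hne, ?_, ?_⟩
    · rw [map_div₀, hc O hO, map_one, max_eq_left ht.le, div_one]
      exact ht
    · intro O' hO'
      rw [map_div₀, hc O' hO', map_one]
      exact div_le_one_of_le₀ (le_max_right _ _) zero_le
  choose! f hf0 hf1 hf2 using key
  refine ⟨∏ O ∈ S, f O, Finset.prod_ne_zero_iff.2 hf0, ?_⟩
  intro O hO
  rw [← Finset.mul_prod_erase S f hO, map_mul, map_prod]
  have h1 : ∏ O' ∈ S.erase O, O.valuation (f O') ≤ 1 :=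
    Finset.prod_le_one' fun O' hO' => hf2 O' (Finset.mem_of_mem_erase hO') O hO
  calc O.valuation (f O) * ∏ O' ∈ S.erase O, O.valuation (f O')
      ≤ O.valuation (f O) * 1 := mul_le_mul_right h1 _
    _ < 1 := by rw [mul_one]; exact hf1 O hO

theorem exists_small [Finite V] (hG : Geo F) (hp : p.Prime) (hp0 : (p : F) ≠ 0) (hφ : IsCol φ)
    (S : Finset (ValuationSubring F)) (hSV : ∀ O ∈ S, O ∈ VV p F) :
    ∃ t : F, t ≠ 0 ∧ (∀ O ∈ S, O.valuation t < 1) ∧
      ∀ x : F, x ≠ 0 → (∀ O ∈ S, OneU O x) → ∀ N : ℕ,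
        ∃ y : F, y ≠ 0 ∧ φ y = φ x ∧ ∀ O ∈ S, O.valuation (y - 1) ≤ O.valuation t ^ N := by
  classical
  rcases S.eq_empty_or_nonempty with rfl | ⟨O₁, hO₁⟩
  · exact ⟨1, one_ne_zero, by simp, fun x hx _ _ => ⟨x, hx, rfl, by simp⟩⟩
  have := Fintype.ofFinite V
  obtain ⟨t₀, ht₀, ht₀S⟩ := exists_t0 (p := p) hG S fun O hO => (hSV O hO).1
  let g : V → F := fun d =>
    if h : ∃ x : F, x ≠ 0 ∧ φ x = d ∧ ∀ O ∈ S, OneU O x then h.choose - 1 else 0
  have hg : ∀ d, ∀ O ∈ S, O.valuation (g d) < 1 := by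
    intro d O hO
    by_cases h : ∃ x : F, x ≠ 0 ∧ φ x = d ∧ ∀ O ∈ S, OneU O x
    · simp only [g, dif_pos h]
      exact h.choose_spec.2.2 O hO
    · simp only [g, dif_neg h, map_zero]
      exact zero_lt_one
  obtain ⟨t, ht⟩ := generic_family hG S (insert t₀ (Finset.univ.image g))
    (Finset.insert_nonempty _ _)
  have htle : ∀ O ∈ S, ∀ d, O.valuation (g d) ≤ O.valuation t := fun O hO d =>
    (ht O hO).1 _ (Finset.mem_insert_of_mem (Finset.mem_image_of_mem g (Finset.mem_univ d)))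
  refine ⟨t, ?_, ?_, ?_⟩
  · rintro rfl
    have h1 := (ht O₁ hO₁).1 t₀ (Finset.mem_insert_self _ _)
    rw [map_zero] at h1
    exact (Valuation.ne_zero_iff _).2 ht₀ (le_zero_iff.1 h1)
  · intro O hO
    obtain ⟨x, hx, hxe⟩ := (ht O hO).2
    rw [hxe]
    rcases Finset.mem_insert.1 hx with rfl | hx
    · exact ht₀S O hO
    · obtain ⟨d, -, rfl⟩ := Finset.mem_image.1 hx
      exact hg d O hO
  · intro x hx hxS N
    have hex : ∃ x' : F, x' ≠ 0 ∧ φ x' = φ x ∧ ∀ O ∈ S, OneU O x' := ⟨x, hx, rfl, hxS⟩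
    have hgd : g (φ x) = hex.choose - 1 := by simp only [g, dif_pos hex]
    obtain ⟨hc0, hcφ, -⟩ := hex.choose_spec
    obtain ⟨x', y, hy0, hxy, hO⟩ := newton hG hp hp0 S (hg (φ x)) N
    have h1 : 1 + g (φ x) = hex.choose := by rw [hgd]; ring
    rw [h1] at hxy
    have hx'0 : 1 + x' ≠ 0 := by
      intro h0
      rw [h0, zero_mul] at hxy
      exact hc0 hxy
    refine ⟨1 + x', hx'0, ?_, ?_⟩
    · rw [← hcφ, hxy, hφ.mul_pow_p hx'0 hy0]
    · intro O hOS
      have h2 : (1 : F) + x' - 1 = x' := by ring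
      rw [h2]
      exact (hO O hOS).1.trans (pow_le_pow_left₀ zero_le (htle O hOS _) N)

theorem disj [Finite V] (hG : Geo F) (hp : p.Prime) (hp0 : (p : F) ≠ 0) (hφ : IsCol φ)
    (hs : ColSurj φ) (hS : Stb φ ω) (hn : Nondeg ω)
    (S : Finset (ValuationSubring F)) (hSV : ∀ O ∈ S, O ∈ VV p F) {x₀ : F} (hx₀ : x₀ ≠ 0)
    (h1 : ∀ O ∈ S, OneU O x₀)
    (h2 : ∀ x : F, x ≠ 0 → (∀ O ∈ S, OneU O x) → ω (φ x₀) (φ x) = 0) : φ x₀ = 0 := by
  classical
  -- it is enough to see that `ω (φ x₀) (φ z) = 0` for all `z`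
  suffices hall : ∀ z : F, z ≠ 0 → ω (φ x₀) (φ z) = 0 by
    apply hn
    intro v
    obtain ⟨z, hz, rfl⟩ := hs v
    exact hall z hz
  rcases S.eq_empty_or_nonempty with rfl | ⟨O₁, hO₁⟩
  · intro z hz
    exact h2 z hz (by simp)
  obtain ⟨t, ht0, htS, htx⟩ := exists_small hG hp hp0 hφ S hSV
  have htpos : ∀ O ∈ S, 0 < O.valuation t := fun O _ =>
    zero_lt_iff.2 ((Valuation.ne_zero_iff _).2 ht0)
  have hanti : ∀ u v : V, ω u v = - ω v u := hS.anti' hφ hs
  -- Claim 1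
  have claim1 : ∀ x : F, x ≠ 0 → (∀ O ∈ S, O.valuation x < 1) →
      ∀ N : ℕ, (∀ O ∈ S, O.valuation t ^ N < O.valuation x) → ω (φ x₀) (φ x) = 0 := by
    intro x hx hx1 N hN
    have hx1' : 1 - x ≠ 0 := (oneU_one_sub (hx1 O₁ hO₁)).ne_zero
    obtain ⟨y, hy0, hyφ, hyS⟩ := htx (x₀ / (1 - x)) (div_ne_zero hx₀ hx1')
      (fun O hO => (h1 O hO).div (oneU_one_sub (hx1 O hO))) N
    rw [hφ.div hx₀ hx1'] at hyφ
    let w : F := 1 + (1 - x) * (1 - y) / x
    have hw : ∀ O ∈ S, OneU O w := by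
      intro O hO
      show O.valuation (1 + (1 - x) * (1 - y) / x - 1) < 1
      have e : 1 + (1 - x) * (1 - y) / x - 1 = (1 - x) * (-(y - 1)) / x := by ring
      rw [e, map_div₀, map_mul, Valuation.map_neg, (oneU_one_sub (hx1 O hO)).val, one_mul]
      rw [div_lt_one₀ (zero_lt_iff.2 ((Valuation.ne_zero_iff _).2 hx))]
      exact (hyS O hO).trans_lt (hN O hO)
    have hw0 : w ≠ 0 := (hw O₁ hO₁).ne_zero
    have hxw : x * w = 1 - (1 - x) * y := by
      simp only [w]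
      field_simp
      ring
    have hprod : (1 - x) * y ≠ 0 := mul_ne_zero hx1' hy0
    have hst := hS (x * w) (mul_ne_zero hx hw0) (by
      intro h
      rw [hxw] at h
      apply hprod
      linear_combination -h)
    have e1 : 1 - x * w = (1 - x) * y := by rw [hxw]; ring
    rw [e1, hφ _ _ hx hw0, hφ _ _ hx1' hy0, hyφ, hanti] at hst
    have e2 : φ (1 - x) + (φ x₀ - φ (1 - x)) = φ x₀ := by abel
    rw [e2, neg_eq_zero, map_add, h2 w hw0 hw, add_zero] at hst
    exact hst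
  -- Claim 2
  have claim2 : ∀ z : F, z ≠ 0 → ∀ N : ℕ, (∀ O ∈ S, O.valuation (t ^ N) ≤ O.valuation z ∧
      O.valuation z ≤ O.valuation (t⁻¹ ^ N)) → ω (φ x₀) (φ z) = 0 := by
    intro z hz N hN
    have ha : ω (φ x₀) (φ (t ^ (N + 1))) = 0 := by
      refine claim1 _ (pow_ne_zero _ ht0) ?_ (N + 2) ?_
      · intro O hO
        rw [map_pow]
        exact pow_lt_one₀ zero_le (htS O hO) (by omega)
      · intro O hO
        rw [map_pow]
        exact pow_lt_pow_right_of_lt_one₀ (htpos O hO) (htS O hO) (by omega)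
    have hb : ω (φ x₀) (φ (z * t ^ (N + 1))) = 0 := by
      refine claim1 _ (mul_ne_zero hz (pow_ne_zero _ ht0)) ?_ (2 * N + 2) ?_
      · intro O hO
        have h3 : O.valuation t ^ N ≠ 0 := pow_ne_zero _ (htpos O hO).ne'
        calc O.valuation (z * t ^ (N + 1)) = O.valuation z * O.valuation t ^ (N + 1) := by
              rw [map_mul, map_pow]
          _ ≤ O.valuation (t⁻¹ ^ N) * O.valuation t ^ (N + 1) :=
              mul_le_mul_left (hN O hO).2 _
          _ = O.valuation t := by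
              rw [map_pow, map_inv₀, inv_pow, pow_succ, ← mul_assoc, inv_mul_cancel₀ h3, one_mul]
          _ < 1 := htS O hO
      · intro O hO
        calc O.valuation t ^ (2 * N + 2) < O.valuation t ^ (2 * N + 1) :=
              pow_lt_pow_right_of_lt_one₀ (htpos O hO) (htS O hO) (by omega)
          _ = O.valuation (t ^ N) * O.valuation t ^ (N + 1) := by
              rw [map_pow, ← pow_add]; congr 1; ring
          _ ≤ O.valuation z * O.valuation t ^ (N + 1) := mul_le_mul_left (hN O hO).1 _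
          _ = O.valuation (z * t ^ (N + 1)) := by rw [map_mul, map_pow]
    rw [hφ _ _ hz (pow_ne_zero _ ht0), map_add, ha, add_zero] at hb
    exact hb
  -- Claim 3
  intro z hz
  have hloc : ∀ O ∈ S, ∃ O' : ValuationSubring F, PDiv p O' ∧
      ∀ x : F, O'.valuation x = 1 → ∃ N : ℕ, O.valuation (t ^ N) ≤ O.valuation x ∧
        O.valuation x ≤ O.valuation (t⁻¹ ^ N) := by
    intro O hO
    obtain ⟨O', hlt, hO'⟩ := exists_loc O ht0 (htS O hO)
    exact ⟨O', (hSV O hO).2 O' hlt, hO'⟩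
  choose! L hL1 hL2 using hloc
  obtain ⟨y, hy0, hy⟩ := adjust_all (p := p) hG hp (S.image L) (by
    intro O' hO'
    obtain ⟨O, hO, rfl⟩ := Finset.mem_image.1 hO'
    exact hL1 O hO) hz
  have hN : ∀ O ∈ S, ∃ N : ℕ, O.valuation (t ^ N) ≤ O.valuation (z * y ^ p) ∧
        O.valuation (z * y ^ p) ≤ O.valuation (t⁻¹ ^ N) := fun O hO =>
    hL2 O hO _ (hy _ (Finset.mem_image_of_mem L hO))
  choose! n hn1 using hN
  have hfin := claim2 (z * y ^ p) (mul_ne_zero hz (pow_ne_zero _ hy0)) (S.sup n) (by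
    intro O hO
    have hle : n O ≤ S.sup n := Finset.le_sup hO
    obtain ⟨ha, hb⟩ := hn1 O hO
    constructor
    · refine le_trans ?_ ha
      rw [map_pow, map_pow]
      exact pow_le_pow_right_of_le_one' (htS O hO).le hle
    · refine hb.trans ?_
      rw [map_pow, map_pow]
      refine pow_le_pow_right' ?_ hle
      rw [map_inv₀]
      exact (one_le_inv₀ (htpos O hO)).2 (htS O hO).le)
  rw [hφ.mul_pow_p hz hy0] at hfin
  exact hfin

theorem compl [Finite V] (hG : Geo F) (hp : p.Prime) (hp0 : (p : F) ≠ 0) (hφ : IsCol φ)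
    (hs : ColSurj φ) (hS : Stb φ ω) (hn : Nondeg ω)
    (S : Finset (ValuationSubring F)) (hSV : ∀ O ∈ S, O ∈ VV p F) (v : V) :
    ∃ x : F, x ≠ 0 ∧ (∀ O ∈ S, OneU O x) ∧
      ∀ y : F, y ≠ 0 → (∀ O ∈ S, OneU O y) → ω (v - φ x) (φ y) = 0 := by
  classical
  have : Fact p.Prime := ⟨hp⟩
  let D₀ : AddSubgroup V :=
    { carrier := {d | ∃ x : F, x ≠ 0 ∧ (∀ O ∈ S, OneU O x) ∧ φ x = d}
      add_mem' := by
        rintro _ _ ⟨x, hx, hxS, rfl⟩ ⟨y, hy, hyS, rfl⟩
        exact ⟨x * y, mul_ne_zero hx hy, fun O hO => (hxS O hO).mul (hyS O hO), hφ x y hx hy⟩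
      zero_mem' := ⟨1, one_ne_zero, fun O _ => OneU.one O, hφ.one⟩
      neg_mem' := by
        rintro _ ⟨x, hx, hxS, rfl⟩
        exact ⟨x⁻¹, inv_ne_zero hx, fun O hO => (hxS O hO).inv, hφ.inv hx⟩ }
  let D : Submodule (ZMod p) V := AddSubgroup.toZModSubmodule p D₀
  have hD : ∀ d : V, d ∈ D ↔ ∃ x : F, x ≠ 0 ∧ (∀ O ∈ S, OneU O x) ∧ φ x = d := fun d => Iff.rfl
  have : Module.Finite (ZMod p) D := Module.Finite.of_finite
  let f : D →ₗ[ZMod p] Module.Dual (ZMod p) D :=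
    ((ω.compl₁₂ D.subtype D.subtype : D →ₗ[ZMod p] D →ₗ[ZMod p] ZMod p))
  have hf : ∀ d d' : D, f d d' = ω (d : V) (d' : V) := fun d d' => rfl
  have hinj : Function.Injective f := by
    rw [injective_iff_map_eq_zero]
    rintro ⟨d, hd⟩ hfd
    obtain ⟨x, hx, hxS, rfl⟩ := (hD d).1 hd
    have h0 : φ x = 0 := disj hG hp hp0 hφ hs hS hn S hSV hx hxS (by
      intro y hy hyS
      have h3 := hf ⟨φ x, hd⟩ ⟨φ y, (hD _).2 ⟨y, hy, hyS, rfl⟩⟩
      rw [hfd] at h3
      simpa using h3.symm)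
    exact Subtype.ext h0
  have hsur : Function.Surjective f :=
    (LinearMap.injective_iff_surjective_of_finrank_eq_finrank
      (Subspace.dual_finrank_eq (K := ZMod p) (V := D)).symm).1 hinj
  obtain ⟨⟨d, hd⟩, hdf⟩ := hsur ((ω v).comp D.subtype)
  obtain ⟨x, hx, hxS, rfl⟩ := (hD d).1 hd
  refine ⟨x, hx, hxS, fun y hy hyS => ?_⟩
  have h3 := congrArg (fun g => g ⟨φ y, (hD _).2 ⟨y, hy, hyS, rfl⟩⟩) hdf
  simp only [hf, LinearMap.comp_apply, Submodule.subtype_apply] at h3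
  rw [map_sub, LinearMap.sub_apply, h3, sub_self]

end Pool.Agent.Helper2.EG
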