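import Pool.Agent.Helper2.EG.A2
import Pool.Agent.Helper2.EG.A4
import Pool.Agent.Helper2.EG.A6

/-!
# A7: orthogonality

`O₀ ∈ VV`, `T` a finite subset of `VV`, `O₀ ∉ T`, `S = insert O₀ T`, `D = φ(⋂_S (1+m))`.
`x ∈ ⋂_T (1+m)`, `x' ∈ 1 + m_{O₀}`, `φ x, φ x' ⊥ D`.  Claim `ω (φ x) (φ x') = 0`.
PROOF.  `e`: `OneU O₀ e`, `v e < 1` for `O ∈ T` (`exists_e`; elements of `VV` are incomparable,
`VV_not_le`); `e' = 1 - e`: `v₀ e' < 1`, `OneU O e'` for `O ∈ T` (we may assume `e, e' ≠ 0`: if `T` is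
empty the statement is trivial: then `x'` itself is in `⋂_S`, so `ω (φ x) (φ x') = 0` by `hD`;
if `T` is nonempty, `e ≠ 1`; `e ≠ 0` by `OneU`).
(1) `X = x π^p` with `OneU O π` for `O ∈ T` and `v₀ X < 1`: if `v₀ x ≤ 1` take `π = e'`; if `v₀ x > 1`
take `π = e' x⁻¹` (`v₀ X = (v₀ x)^(1-p) (v₀ e')^p < 1`).  So WLOG (same colour) `X = x`, `v₀ x < 1`,
`OneU O x` for `O ∈ T`.
(2) Shrinking `x` inside the right range: let `t` be as in `exists_small` for `S`.  Claim: there is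
`X ∈ ⋂_T (1+m)` with `φ X = φ x`, `v₀ X < 1` and `v₀ (t^N) < v₀ X` for some `N`.  If `x` itself is not of
this kind, `v₀ x ≤ v₀ (t^N)` for all `N`.  The coarsening `O' > O₀` of `exists_loc` (for `t`) is
`p`-divisible: there is `y` with `v₀ (t^M) ≤ v₀ (x y^p) ≤ v₀ (t⁻¹^M)`; replacing `y` by `y t^j` with
`p j > M` we get in addition `v₀ (x y^p) < 1` (with another `M`).  `π₀ = y⁻¹`:
`v₀ x < v₀ π₀ < 1` (as `(v₀ π₀)^p = v₀ x / v₀ (x y^p)`, and `v₀ x` is smaller than all powers of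
`v₀ t`).  Generic `c` (for `insert O₀ T`): `π₁ = π₀ / (1 + c π₀)` is integral at `O ∈ T` and has
`v₀ π₁ = v₀ π₀`.  `π = π₁ + (1 - π₁) x`: at `O ∈ T`: `π - 1 = -(1 - π₁)(1 - x)` has valuation `< 1`; at
`O₀`: `v₀ π = v₀ π₁` because `v₀ x < v₀ π₁`.  `X = x / π^p`: `v₀ X = v₀ (x y^p)`, `OneU O X`, same
colour.
(3) `X'`: `φ X' = φ x'`, `OneU O₀ X'`, `v X' < 1` for `O ∈ T`: generic `c` for `1, x'` (set `S`):
`q = (1 + c x')⁻¹` has `v₀ q = 1`, `v q = min 1 (v x')⁻¹` for `O ∈ T`; normalize `π' = q (1 + c)`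
(then `OneU O₀ π'`; `1 + c ≠ 0` is a unit because `v₀ (1 + c x') = 1` and `OneU O₀ x'`; at the others
`v (1 + c) = 1`: it is nonzero and algebraic over the prime field, `generic_comb` for `1, 1` as well,
or choose to multiply by a suitable factor); `v (x' π'^p) ≤ 1` for `O ∈ T`; then multiply by `e^p`.
(4) `Z = X + X'` is in `1 + m` for all `O ∈ S`; `d = φ Z ∈ D`.  `z = X / Z`, `1 - z = X' / Z`.  Choose `y`
with `φ y = d`, `v (y - 1) ≤ (v t)^N < v₀ X` (at `O₀`), `OneU O y` for all `O ∈ S` (`exists_small`).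
`z' = 1 - (1 - z) y = z (1 + (1 - z)(1 - y)/z)`; `w = 1 + (1 - z)(1 - y)/z` is in `1 + m` for all
`O ∈ S` (at `O₀`: `v₀ z = v₀ X`; at `O ∈ T`: `z ∈ 1 + m`).  So `φ z' = φ X - d + φ w`,
`φ (1 - z') = φ X' - d + d = φ X'`.  Steinberg for `z'`: `ω (φ X - d + φ w) (φ X') = 0`, and `d, φ w ∈ D`
are orthogonal to `φ X' = φ x'` (`hD'` and antisymmetry).  So `ω (φ x) (φ x') = 0`.
-/

set_option autoImplicit false

namespace Pool.Agent.Helper2.EG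

variable {F V : Type*} [Field F] [AddCommGroup V] {p : ℕ} [Module (ZMod p) V]
  {ω : V →ₗ[ZMod p] V →ₗ[ZMod p] ZMod p} {φ : F → V}

theorem orth [Finite V] (hG : Geo F) (hp : p.Prime) (hp0 : (p : F) ≠ 0) (hφ : IsCol φ)
    (hs : ColSurj φ) (hS : Stb φ ω) (hn : Nondeg ω) (O₀ : ValuationSubring F)
    (T : Finset (ValuationSubring F)) (h₀ : O₀ ∈ VV p F) (hT : ∀ O ∈ T, O ∈ VV p F)
    (h₀T : O₀ ∉ T) {x x' : F} (hx0 : x ≠ 0) (hx0' : x' ≠ 0) (hx : ∀ O ∈ T, OneU O x)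
    (hx' : OneU O₀ x')
    (hD : ∀ y : F, y ≠ 0 → OneU O₀ y → (∀ O ∈ T, OneU O y) → ω (φ x) (φ y) = 0)
    (hD' : ∀ y : F, y ≠ 0 → OneU O₀ y → (∀ O ∈ T, OneU O y) → ω (φ x') (φ y) = 0) :
    ω (φ x) (φ x') = 0 := by
  sorry

end Pool.Agent.Helper2.EG
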