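import Pool.Agent.Helper2.EG.Defs

/-!
# One-units
-/

set_option autoImplicit false

namespace Pool.Agent.Helper2.EG

variable {F : Type*} [Field F] {O O' : ValuationSubring F} {x y : F}

theorem OneU.val (h : OneU O x) : O.valuation x = 1 := by
  have e : x = 1 + (x - 1) := by ring
  rw [e]; exact Valuation.map_one_add_of_lt _ h

theorem OneU.ne_zero (h : OneU O x) : x ≠ 0 := by
  rintro rfl
  have := h.val
  rw [map_zero] at this
  exact zero_ne_one this

theorem OneU.one : OneU O (1 : F) := by
  unfold OneU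
  rw [sub_self, map_zero]
  exact zero_lt_one

theorem OneU.mul (hx : OneU O x) (hy : OneU O y) : OneU O (x * y) := by
  have e : x * y - 1 = (x - 1) * y + (y - 1) := by ring
  unfold OneU
  rw [e]
  refine Valuation.map_add_lt _ ?_ hy
  rw [map_mul, hy.val, mul_one]
  exact hx

theorem OneU.inv (hx : OneU O x) : OneU O x⁻¹ := by
  have e : x⁻¹ - 1 = -(x - 1) * x⁻¹ := by
    have := hx.ne_zero
    field_simp
    ring
  unfold OneU
  rw [e, map_mul, Valuation.map_neg, map_inv₀, hx.val, inv_one, mul_one]
  exact hx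

theorem OneU.div (hx : OneU O x) (hy : OneU O y) : OneU O (x / y) := by
  rw [div_eq_mul_inv]; exact hx.mul hy.inv

theorem OneU.pow (hx : OneU O x) (n : ℕ) : OneU O (x ^ n) := by
  induction n with
  | zero => rw [pow_zero]; exact OneU.one
  | succ n ih => rw [pow_succ]; exact ih.mul hx

theorem OneU.prod {ι : Type*} (s : Finset ι) {f : ι → F} (h : ∀ i ∈ s, OneU O (f i)) :
    OneU O (∏ i ∈ s, f i) := by
  classical
  induction s using Finset.induction_on with
  | empty => rw [Finset.prod_empty]; exact OneU.one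
  | insert i s hi ih =>
    rw [Finset.prod_insert hi]
    exact (h i (Finset.mem_insert_self _ _)).mul
      (ih (fun j hj => h j (Finset.mem_insert_of_mem hj)))

theorem val_lt_mono (hle : O ≤ O') (h : O'.valuation x < 1) : O.valuation x < 1 := by
  by_cases hx : x = 0
  · rw [hx, map_zero]; exact zero_lt_one
  rw [← not_le] at h ⊢
  intro h1
  apply h
  have h2 : O.valuation x⁻¹ ≤ 1 := by
    rw [map_inv₀]
    exact inv_le_one_of_one_le₀ h1
  have h3 : O'.valuation x⁻¹ ≤ 1 :=
    (O'.valuation_le_one_iff _).mpr (hle ((O.valuation_le_one_iff _).mp h2))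
  rw [map_inv₀] at h3
  by_contra h4
  rw [not_le] at h4
  have h5 : 1 < (O'.valuation x)⁻¹ := by
    rw [one_lt_inv₀ ((Valuation.pos_iff _).mpr hx)]
    exact h4
  exact absurd h3 (not_le.mpr h5)

theorem OneU.mono (hle : O ≤ O') (h : OneU O' x) : OneU O x := val_lt_mono hle h

end Pool.Agent.Helper2.EG
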