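import Pool.Agent.Helper2.EG.EX
import Pool.Agent.Helper2.EG.A7
import Pool.Agent.Helper2.EG.U

/-!
# A8: a local direction (helper2)
-/

set_option autoImplicit false

namespace Pool.Agent.Helper2.EG

variable {F V : Type*} [Field F] [AddCommGroup V] {p : ℕ} [Module (ZMod p) V]
  {ω : V →ₗ[ZMod p] V →ₗ[ZMod p] ZMod p} {φ : F → V}

/-- `p`-divisible rings can be dropped. -/
theorem drop_pdiv (hG : Geo F) (hp : p.Prime) {f : F → ZMod p} (hf : IsCol f)
    (S T : Finset (ValuationSubring F)) (hT : ∀ O ∈ T, PDiv p O)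
    (h : ∀ x : F, x ≠ 0 → (∀ O ∈ S, O.valuation x = 1) → (∀ O ∈ T, O.valuation x = 1) →
      f x = 0) :
    ∀ x : F, x ≠ 0 → (∀ O ∈ S, O.valuation x = 1) → f x = 0 := by
  classical
  induction T using Finset.induction_on with
  | empty => exact fun x hx hS => h x hx hS (by simp)
  | insert O₀ T hO₀ ih =>
    apply ih (fun O hO => hT O (Finset.mem_insert_of_mem hO))
    intro x hx hS hT'
    obtain ⟨y, hy0, hy, hyO⟩ := adjust hG hp (S ∪ T) O₀ (hT O₀ (Finset.mem_insert_self _ _)) hx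
      (by
        intro O hO
        rcases Finset.mem_union.mp hO with hO | hO
        · exact hS O hO
        · exact hT' O hO)
    have h1 : ∀ O ∈ S ∪ T, O.valuation (x * y ^ p) = 1 := by
      intro O hO
      rw [map_mul, map_pow, hy O hO, one_pow, mul_one]
      rcases Finset.mem_union.mp hO with hO | hO
      · exact hS O hO
      · exact hT' O hO
    have h2 := h (x * y ^ p) (mul_ne_zero hx (pow_ne_zero p hy0))
      (fun O hO => h1 O (Finset.mem_union_left _ hO)) (by
        intro O hO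
        rcases Finset.mem_insert.mp hO with rfl | hO
        · exact hyO
        · exact h1 O (Finset.mem_union_right _ hO))
    rw [hf _ _ hx (pow_ne_zero p hy0), hf.pow_p hy0, add_zero] at h2
    exact h2

theorem exists_local_aux [Finite V] (hG : Geo F) (hp : p.Prime) (hp0 : (p : F) ≠ 0)
    (hφ : IsCol φ) (hs : ColSurj φ) (hS : Stb φ ω) (hn : Nondeg ω)
    (T : Finset (ValuationSubring F)) (hT : ∀ O ∈ T, O ∈ VV p F) {u : V} (hu : u ≠ 0)
    (h : ∀ x : F, x ≠ 0 → (∀ O ∈ T, OneU O x) → ω u (φ x) = 0) :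
    ∃ O ∈ VV p F, ∃ u : V, u ≠ 0 ∧ ∀ x : F, x ≠ 0 → OneU O x → ω u (φ x) = 0 := by
  classical
  induction T using Finset.induction_on with
  | empty =>
    exfalso
    apply hu
    apply hn
    intro v
    obtain ⟨x, hx, rfl⟩ := hs v
    exact h x hx (by simp)
  | insert O₀ T hO₀ ih =>
    have hO₀V := hT O₀ (Finset.mem_insert_self _ _)
    have hTV := fun O (hO : O ∈ T) => hT O (Finset.mem_insert_of_mem hO)
    by_cases hloc : ∃ u' : V, u' ≠ 0 ∧ ∀ x : F, x ≠ 0 → OneU O₀ x → ω u' (φ x) = 0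
    · exact ⟨O₀, hO₀V, hloc⟩
    push Not at hloc
    apply ih hTV
    intro x hx hxT
    obtain ⟨x₁, hx₁0, hx₁, hc₁⟩ := compl hG hp hp0 hφ hs hS hn (insert O₀ T) hT (φ x)
    by_cases hr : φ x - φ x₁ = 0
    · rw [sub_eq_zero.mp hr]
      exact h x₁ hx₁0 hx₁
    · exfalso
      obtain ⟨x', hx'0, hx'O, hx'⟩ := hloc _ hr
      obtain ⟨x₁', hx₁'0, hx₁', hc₁'⟩ := compl hG hp hp0 hφ hs hS hn (insert O₀ T) hT (φ x')
      apply hx'
      have e1 : φ x - φ x₁ = φ (x / x₁) := (hφ.div hx hx₁0).symm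
      have e2 : φ x' - φ x₁' = φ (x' / x₁') := (hφ.div hx'0 hx₁'0).symm
      have h3 : ω (φ (x / x₁)) (φ (x' / x₁')) = 0 := by
        apply orth hG hp hp0 hφ hs hS hn O₀ T hO₀V hTV hO₀ (div_ne_zero hx hx₁0)
          (div_ne_zero hx'0 hx₁'0)
        · intro O hO
          exact (hxT O hO).div (hx₁ O (Finset.mem_insert_of_mem hO))
        · exact hx'O.div (hx₁' O₀ (Finset.mem_insert_self _ _))
        · intro y hy hy0 hyT
          rw [← e1]
          apply hc₁ y hy
          intro O hO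
          rcases Finset.mem_insert.mp hO with rfl | hO
          · exact hy0
          · exact hyT O hO
        · intro y hy hy0 hyT
          rw [← e2]
          apply hc₁' y hy
          intro O hO
          rcases Finset.mem_insert.mp hO with rfl | hO
          · exact hy0
          · exact hyT O hO
      have h4 := hc₁ x₁' hx₁'0 hx₁'
      rw [← e1, ← e2, map_sub, h4, sub_zero] at h3
      exact h3

theorem exists_local [Finite V] [Nontrivial V] (hG : Geo F) (hp : p.Prime) (hp0 : (p : F) ≠ 0)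
    (hfin : FinP p F) (hφ : IsCol φ) (hs : ColSurj φ) (hS : Stb φ ω) (hn : Nondeg ω) :
    ∃ O ∈ VV p F, ∃ u : V, u ≠ 0 ∧ ∀ x : F, x ≠ 0 → OneU O x → ω u (φ x) = 0 := by
  classical
  obtain ⟨u, hu, S, hSu⟩ := exists_vals hG hp hφ hs hS hn
  have hf : IsCol (fun x => ω u (φ x)) := by
    intro a b ha hb
    simp only
    rw [hφ a b ha hb, map_add]
  have h1 := drop_pdiv hG hp hf (S.filter (fun O => ¬ PDiv p O)) (S.filter (fun O => PDiv p O))
    (fun O hO => (Finset.mem_filter.mp hO).2) (by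
      intro x hx h2 h3
      apply hSu x hx
      intro O hO
      by_cases hOp : PDiv p O
      · exact h3 O (Finset.mem_filter.mpr ⟨hO, hOp⟩)
      · exact h2 O (Finset.mem_filter.mpr ⟨hO, hOp⟩))
  have hc : ∀ O : ValuationSubring F, ∃ O' : ValuationSubring F,
      ¬ PDiv p O → O' ∈ VV p F ∧ O ≤ O' := by
    intro O
    by_cases hO : PDiv p O
    · exact ⟨O, fun h => absurd hO h⟩
    · obtain ⟨O', h2, h3⟩ := exists_coarse hfin O hO
      exact ⟨O', fun _ => ⟨h2, h3⟩⟩
  choose C hC using hc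
  refine exists_local_aux hG hp hp0 hφ hs hS hn ((S.filter (fun O => ¬ PDiv p O)).image C) ?_ hu
    ?_
  · intro O hO
    obtain ⟨O₁, hO₁, rfl⟩ := Finset.mem_image.mp hO
    exact (hC O₁ (Finset.mem_filter.mp hO₁).2).1
  · intro x hx hx1
    apply h1 x hx
    intro O hO
    exact ((hx1 (C O) (Finset.mem_image_of_mem C hO)).mono
      (hC O (Finset.mem_filter.mp hO).2).2).val

end Pool.Agent.Helper2.EG
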