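import Pool.Agent.Helper2.EG.K3

/-!
# A9: the local part of a norm form is a norm form

`O ∈ VV`, `w` over `O`.  `π : V → V` linear (the projection onto `D^⊥` along `D = φ(1 + m_O)`): for
every `v` there is `x ∈ 1 + m_O` with `v - π v = φ x`, and `ω (π v) (φ y) = 0` for `y ∈ 1 + m_O`;
`π (φ y) = 0` for `y ∈ 1 + m_O`.
CLAIM: if `b` is a norm from `F(a^{1/p})` then `ω (π (φ a)) (π (φ b)) = 0`.
PROOF.  `ω (π u) (π v) = ω (π u) v` (as `v - π v = φ x`).  Let `α^p = a`, `b = ∏_j g(ζ^j α)`.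
Case 1: `α` fixed by `Zd F w`.  `fixed_class`: `a = y^p (1 + m)`, so `φ a = φ (a/y^p)`, `π (φ a) = 0`.
Case 2: not.  WLOG `deg g < p` (reduce `g` modulo `X^p - a`: the values at the roots `ζ^j α` do not
change).  Choose `y₁ ∈ 1 + m_O` with `φ y₁ = - (φ a - π (φ a))` (a group: inverse), `a' = a y₁`,
`φ a' = π (φ a)`.  `root_one`: `r^p = y₁`, `OneU w r`, `r` fixed by `Zd F w`; `α' = α r`,
`α'^p = a'`.  `b' = ∏_j g(ζ^j α') ∈ F` (fixed by the Galois group of `K/F`).  For each `j`: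
`g(ζ^j α) = ∑ g_i ζ^(ij) α^i`, `dominant'` (coefficients `g_i ζ^(ij)`) says that its valuation is the
maximum of the `w.valuation (g_i α^i)`, and `g(ζ^j α') - g(ζ^j α) = ∑ g_i ζ^(ij) α^i (r^i - 1)` has
strictly smaller valuation (if the maximum is not `0`, i.e. `g(ζ^j α) ≠ 0`, true since `b ≠ 0`).  So
`OneU w (b'/b)`, `OneU O (b'/b)`.  `NFc` for `(a', b')`: `0 = ω (φ a') (φ b') = ω (π (φ a)) (φ b + φ (b'/b))
= ω (π (φ a)) (φ b)`.
-/

set_option autoImplicit false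

namespace Pool.Agent.Helper2.EG

open Pool.Agent.Helper25.ETC

variable {F K V : Type*} [Field F] [Field K] [Algebra F K] {p : ℕ} {ζ : K}
  [AddCommGroup V] [Module (ZMod p) V] {ω : V →ₗ[ZMod p] V →ₗ[ZMod p] ZMod p} {φ : F → V}

theorem split_nf (Cx : Ctx p F K ζ) (hζF : ζ ∈ (algebraMap F K).range) (hG : Geo F)
    (hφ : IsCol φ) (hNF : NFc p F K ζ φ ω) (w : ValuationSubring K) (O : ValuationSubring F)
    (hwO : Lies w O) (π : V →ₗ[ZMod p] V)
    (h1 : ∀ v : V, ∃ x : F, x ≠ 0 ∧ OneU O x ∧ v - π v = φ x)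
    (h2 : ∀ v : V, ∀ y : F, y ≠ 0 → OneU O y → ω (π v) (φ y) = 0)
    (h3 : ∀ y : F, y ≠ 0 → OneU O y → π (φ y) = 0) :
    NFc p F K ζ φ (ω.compl₁₂ π π) := by
  sorry

end Pool.Agent.Helper2.EG
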