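import Pool.Agent.Helper2.EG.Basic

/-!
# B3: a valuation ring from `C E^n ≠ E^(n+1)`

`C ≤ E` finite dimensional subspaces of the `k`-algebra (field) `F`, `C E^n ≠ E^(n+1)` for all `n`.
Then there are a valuation ring `O` of `F` and `0 ≠ e ∈ E` with `E ⊆ e O`, `C ⊆ e m`.
PROOF.  Let `e_1, …, e_d` be a basis of `E` (`d ≥ 1`, all `e_i ≠ 0`).  Suppose that for every `i` the
elements `C / e_i` generate the unit ideal of `A_i = k[E / e_i]` (the subring generated by
`x / e_i`, `x ∈ E`).  Since `1 ∈ E / e_i`, `A_i` is the increasing union of the `E^n / e_i^n`, so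
`1 ∈ C E^(n-1) / e_i^n` for some `n`, i.e. `e_i^n ∈ C E^(n-1)` for some `n = n_i ≥ 1` (and then for
all larger `n`).  If `m > ∑ n_i`, each monomial of degree `m` in the `e_i` is divisible by some
`e_i^(n_i)`, so it lies in `C E^(n_i - 1) E^(m - n_i) = C E^(m-1)`; hence `E^m = C E^(m-1)`,
contradiction.  So for some `i` the ideal `I` of `A = A_i` generated by `C / e_i` is proper, contained
in a maximal ideal `M`; the localization `A_M` is a local subring of `F`, dominated by a valuation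
ring `O` of `F` (`LocalSubring.exists_le_valuationSubring`, or
`IsLocalRing.exists_factor_valuationRing`, see `exists_extension` in Helper25/ETCExt.lean).
Alternatively avoid monomials: the set of `n` with `e_i^n E^m ≤ C E^(n+m-1)` ...
-/

set_option autoImplicit false

namespace Pool.Agent.Helper2.EG

variable {k F : Type*} [Field k] [Field F] [Algebra k F]

theorem nsmul_le_of_le {M T : Submodule k F} (h : M ≤ T) (n : ℕ) :
    M * (n : Submodule k F) ≤ T := by
  rw [← nsmul_eq_mul']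
  induction n with
  | zero => rw [zero_smul]; exact bot_le
  | succ n ih => rw [succ_nsmul]; exact sup_le ih h

theorem sup_pow_le {A B C E : Submodule k F} (hA : A ≤ E) (hB : B ≤ E) {a b : ℕ}
    (ha : A ^ (a + 1) ≤ C * E ^ a) (hb : B ^ (b + 1) ≤ C * E ^ b) :
    (A ⊔ B) ^ (a + b + 1) ≤ C * E ^ (a + b) := by
  rw [← Submodule.add_eq_sup, add_pow]
  apply Finset.sum_induction _ (fun x : Submodule k F => x ≤ C * E ^ (a + b))
    (fun x y hx hy => sup_le hx hy) bot_le
  intro m hm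
  apply nsmul_le_of_le
  have hm' : m ≤ a + b + 1 := Nat.lt_succ_iff.mp (Finset.mem_range.mp hm)
  by_cases h1 : a + 1 ≤ m
  · obtain ⟨c, rfl⟩ := Nat.exists_eq_add_of_le h1
    have e1 : a + b + 1 - (a + 1 + c) + (a + c) = a + b := by omega
    calc A ^ (a + 1 + c) * B ^ (a + b + 1 - (a + 1 + c))
        = A ^ (a + 1) * A ^ c * B ^ (a + b + 1 - (a + 1 + c)) := by rw [pow_add]
      _ ≤ (C * E ^ a) * E ^ c * E ^ (a + b + 1 - (a + 1 + c)) := by
          gcongr
      _ = C * E ^ (a + b + 1 - (a + 1 + c) + (a + c)) := by ring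
      _ = C * E ^ (a + b) := by rw [e1]
  · have h2 : b + 1 ≤ a + b + 1 - m := by omega
    obtain ⟨c, hc⟩ := Nat.exists_eq_add_of_le h2
    have e1 : m + (b + c) = a + b := by omega
    calc A ^ m * B ^ (a + b + 1 - m)
        = A ^ m * (B ^ (b + 1) * B ^ c) := by rw [hc, pow_add]
      _ ≤ E ^ m * ((C * E ^ b) * E ^ c) := by
          gcongr
      _ = C * E ^ (m + (b + c)) := by ring
      _ = C * E ^ (a + b) := by rw [e1]

/-- the subring of all `a` with `a e ^ n ∈ E ^ n` for some `n`. -/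
def subR (E : Submodule k F) (e : F) (he : e ∈ E) : Subring F where
  carrier := {a | ∃ n : ℕ, a * e ^ n ∈ E ^ n}
  mul_mem' := by
    rintro a b ⟨n, hn⟩ ⟨m, hm⟩
    refine ⟨n + m, ?_⟩
    have : a * b * e ^ (n + m) = (a * e ^ n) * (b * e ^ m) := by ring
    rw [this, pow_add]
    exact Submodule.mul_mem_mul hn hm
  one_mem' := ⟨0, by rw [pow_zero, pow_zero, one_mul]; exact Submodule.one_le.mp le_rfl⟩
  add_mem' := by
    rintro a b ⟨n, hn⟩ ⟨m, hm⟩
    refine ⟨n + m, ?_⟩
    have : (a + b) * e ^ (n + m) = (a * e ^ n) * e ^ m + e ^ n * (b * e ^ m) := by ring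
    rw [this, pow_add]
    exact Submodule.add_mem _ (Submodule.mul_mem_mul hn (Submodule.pow_mem_pow _ he m))
      (Submodule.mul_mem_mul (Submodule.pow_mem_pow _ he n) hm)
  zero_mem' := ⟨0, by rw [zero_mul]; exact Submodule.zero_mem _⟩
  neg_mem' := by
    rintro a ⟨n, hn⟩
    refine ⟨n, ?_⟩
    rw [neg_mul]
    exact Submodule.neg_mem _ hn

/-- the ideal of all `a` with `a e ^ (n + 1) ∈ C E ^ n` for some `n`. -/
def idl (E C : Submodule k F) (e : F) (he : e ∈ E) : Ideal (subR E e he) where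
  carrier := {a | ∃ n : ℕ, (a : F) * e ^ (n + 1) ∈ C * E ^ n}
  add_mem' := by
    rintro ⟨a, ha'⟩ ⟨b, hb'⟩ ⟨n, hn⟩ ⟨m, hm⟩
    refine ⟨n + m + 1, ?_⟩
    have h1 : (a + b) * e ^ (n + m + 1 + 1) = (a * e ^ (n + 1)) * e ^ (m + 1) +
      (b * e ^ (m + 1)) * e ^ (n + 1) := by ring
    show (a + b) * e ^ (n + m + 1 + 1) ∈ C * E ^ (n + m + 1)
    rw [h1]
    have h2 : C * E ^ (n + m + 1) = (C * E ^ n) * E ^ (m + 1) := by ring
    have h3 : C * E ^ (n + m + 1) = (C * E ^ m) * E ^ (n + 1) := by ring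
    apply Submodule.add_mem
    · rw [h2]
      exact Submodule.mul_mem_mul hn (Submodule.pow_mem_pow _ he (m + 1))
    · rw [h3]
      exact Submodule.mul_mem_mul hm (Submodule.pow_mem_pow _ he (n + 1))
  zero_mem' := ⟨0, by
    show (0 : F) * e ^ (0 + 1) ∈ C * E ^ 0
    rw [zero_mul]; exact Submodule.zero_mem _⟩
  smul_mem' := by
    rintro ⟨a, n, hn⟩ ⟨b, hb'⟩ ⟨m, hm⟩
    refine ⟨n + m, ?_⟩
    have h1 : (a * b) * e ^ (n + m + 1) = (a * e ^ n) * (b * e ^ (m + 1)) := by ring
    show (a * b) * e ^ (n + m + 1) ∈ C * E ^ (n + m)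
    rw [h1]
    have h2 : C * E ^ (n + m) = E ^ n * (C * E ^ m) := by ring
    rw [h2]
    exact Submodule.mul_mem_mul hn hm

theorem exists_val (E C : Submodule k F) [FiniteDimensional k E] (hCE : C ≤ E) (hE : E ≠ ⊥)
    (h : ∀ n : ℕ, C * E ^ n ≠ E ^ (n + 1)) :
    ∃ O : ValuationSubring F, ∃ e ∈ E, e ≠ 0 ∧ (∀ x ∈ E, x / e ∈ O) ∧
      ∀ x ∈ C, O.valuation (x / e) < 1 := by
  by_contra hcon
  -- every element of `E` is nilpotent modulo `C`
  have h1 : ∀ e ∈ E, ∃ n : ℕ, e ^ (n + 1) ∈ C * E ^ n := by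
    intro e he
    by_cases he0 : e = 0
    · exact ⟨0, by rw [he0, zero_pow (by norm_num)]; exact Submodule.zero_mem _⟩
    by_contra hne
    have hI : idl E C e he ≠ ⊤ := by
      intro htop
      have h1 : (1 : subR E e he) ∈ idl E C e he := by rw [htop]; exact Submodule.mem_top
      obtain ⟨n, hn⟩ := h1
      apply hne
      refine ⟨n, ?_⟩
      have e1 : ((1 : subR E e he) : F) * e ^ (n + 1) = e ^ (n + 1) := by
        rw [OneMemClass.coe_one, one_mul]
      rw [e1] at hn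
      exact hn
    obtain ⟨O, hO1, hO2⟩ := Ideal.image_subset_nonunits_valuationSubring _ hI
    apply hcon
    have hxm : ∀ x ∈ E, x / e ∈ subR E e he := by
      intro x hx
      refine ⟨1, ?_⟩
      rw [pow_one, pow_one, div_mul_cancel₀ x he0]
      exact hx
    refine ⟨O, e, he, he0, fun x hx => hO1 (hxm x hx), fun x hx => ?_⟩
    have h2 : (⟨x / e, hxm x (hCE hx)⟩ : subR E e he) ∈ idl E C e he := by
      refine ⟨0, ?_⟩
      show x / e * e ^ (0 + 1) ∈ C * E ^ 0
      rw [zero_add, pow_one, div_mul_cancel₀ x he0, pow_zero, mul_one]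
      exact hx
    have h3 : x / e ∈ O.nonunits := hO2 ⟨_, h2, rfl⟩
    exact h3
  have h2 : ∀ N : Submodule k F, N.FG → N ≤ E → ∃ n : ℕ, N ^ (n + 1) ≤ C * E ^ n := by
    intro N hN
    induction N, hN using Submodule.fg_induction with
    | singleton x =>
      intro hx
      obtain ⟨n, hn⟩ := h1 x (hx (Submodule.mem_span_singleton_self x))
      refine ⟨n, ?_⟩
      rw [Submodule.span_pow, Set.singleton_pow, Submodule.span_singleton_le_iff_mem]
      exact hn
    | sup M₁ M₂ hM₁ hM₂ h₁ h₂ =>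
      intro hle
      obtain ⟨a, ha⟩ := h₁ (le_sup_left.trans hle)
      obtain ⟨b, hb⟩ := h₂ (le_sup_right.trans hle)
      exact ⟨a + b, sup_pow_le (le_sup_left.trans hle) (le_sup_right.trans hle) ha hb⟩
  obtain ⟨n, hn⟩ := h2 E ((Submodule.fg_iff_finiteDimensional E).mpr inferInstance) le_rfl
  apply h n
  apply le_antisymm _ hn
  rw [pow_succ']
  exact mul_le_mul' hCE le_rfl

end Pool.Agent.Helper2.EG
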