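import Pool.Agent.Helper2.EG.B3

/-!
# B4: valuation rings from a multi-flag homomorphism, finitely many elements

`f : F → ZMod p` additive on nonzero elements, trivial on `k*`, and for every finite dimensional
`E ≠ ⊥` constant on `E ∖ 0` outside subspaces `S i`, `i : ι`, not containing `E`.  Then for finitely
many `x` with `f x ≠ 0` there are valuation rings `O i`, `i : ι`, such that every such `x` is a
non-unit of some `O i`.

PROOF.
(1) For `E ≠ ⊥` finite dimensional let `c(E)` be the constant value (`MF`); any `c` with the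
property in the definition of `MF` is the same: two families are avoided simultaneously
(`exists_avoid` with `Sum.elim`, adding the family `⊥` to get a nonzero element).  More useful: if
`E ≤ E'`.. (2).
(2) `c(E E') = c(E) + c(E')`: take `x ∈ E`, `y ∈ E'` with `x y`, `x`, `y` avoiding the three
families and `0` (`exists_avoid_mul`).
(3) If `D ≤ E` (nonzero) and `c(D) ≠ c(E)` and `S` is a family for `E` then `D ≤ S i` for some `i`
(otherwise avoid the family in `D`, together with the family of `D` itself and `0`).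
(4) Let `x` be one of the given elements.  `x ∉ k` as `f` is trivial on `k*`.  Put
`E_x = k + k x`, and `D_x = k` or `k x` such that `c(D_x) ≠ c(E_x)`; possible since
`c(k) = 0 ≠ f x = c(k x)`.  Let `E = ∏ E_x` (product over the finite set), `C_x` = the same product
with `D_x` instead of `E_x` at the place `x`; `C_x ≤ E`, `c(C_x) ≠ c(E)` by (2).
(5) For every `n` choose a family `S^n` for `E^(n+1)`; `c(C_x E^n) = c(C_x) + n c(E) ≠ c(E^(n+1))`, so
by (3) `C_x E^n ≤ S^n_{j(n,x)}` with `j(n,x) ∈ ι`.  By pigeonhole (infinitely many `n`, finitely many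
maps `x ↦ j(n,x)`) there is a map `j` with `j(n, ·) = j` for infinitely many `n`.
(6) For `i : ι` let `C^i` be the sum of the `C_x` with `j(x) = i`; if there is no such `x` take
`O i = ⊤`.  Otherwise `C^i E^n ≤ S^n_i` does not contain `E^(n+1)` for infinitely many `n`; since
`C^i E^n = E^(n+1)` implies the same for all larger `n`, `C^i E^n ≠ E^(n+1)` for all `n`.  B3
gives `O i` and `e` with `E ⊆ e O`, `C_x ⊆ e m` for all `x` with `j(x) = i`.
(7) For such `x`, with `E = E_x R`, `C_x = D_x R`, `R ≠ ⊥` the product of the others: if `x, x⁻¹ ∈ O`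
then, `D_x = k` or `k x`: for `r ∈ R`: `r` and `x r` have the same valuation, hence all elements of
`E = R + x R` have valuation `≤` the maximum of the valuations of the elements of `C_x`, which is
`< v(e)`, but `e ∈ E`: contradiction.
-/

set_option autoImplicit false

namespace Pool.Agent.Helper2.EG

variable {k F : Type*} [Field k] [Field F] [Algebra k F] {p : ℕ} {ι : Type*}

/-- `c` is a value of `f` on `E` outside a family of subspaces. -/
def Gen (ι : Type*) (f : F → ZMod p) (E : Submodule k F) (c : ZMod p) : Prop :=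
  ∃ S : ι → Submodule k F, (∀ i, ¬ E ≤ S i) ∧ ∀ x ∈ E, x ≠ 0 → (∀ i, x ∉ S i) → f x = c

theorem gen_le [Infinite k] [Finite ι] {f : F → ZMod p} {D E : Submodule k F} (hD : D ≠ ⊥)
    (hDE : D ≤ E) {d c : ZMod p} (hd : Gen ι f D d) (S : ι → Submodule k F)
    (hS : ∀ x ∈ E, x ≠ 0 → (∀ i, x ∉ S i) → f x = c) (hne : d ≠ c) : ∃ i, D ≤ S i := by
  by_contra hcon
  push Not at hcon
  obtain ⟨T, hT, hTd⟩ := hd
  obtain ⟨x, hx, hx1⟩ := exists_avoid D
    (Sum.elim S (Sum.elim T (fun _ : Unit => (⊥ : Submodule k F)))) (by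
    rintro (i | i | i)
    · exact hcon i
    · exact hT i
    · exact fun h0 => hD (le_bot_iff.mp h0))
  have hx0 : x ≠ 0 := by
    intro h0
    apply hx1 (Sum.inr (Sum.inr ()))
    rw [h0]
    exact Submodule.zero_mem _
  exact hne ((hTd x hx hx0 (fun i => hx1 (Sum.inr (Sum.inl i)))).symm.trans
    (hS x (hDE hx) hx0 (fun i => hx1 (Sum.inl i))))

theorem gen_uniq [Infinite k] [Finite ι] {f : F → ZMod p} {E : Submodule k F} (hE : E ≠ ⊥)
    {c c' : ZMod p} (h : Gen ι f E c) (h' : Gen ι f E c') : c = c' := by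
  by_contra hne
  obtain ⟨S, hS, hc⟩ := h'
  obtain ⟨i, hi⟩ := gen_le hE le_rfl h S hc hne
  exact hS i hi

theorem gen_mul [Infinite k] [Finite ι] {f : F → ZMod p} (hf : IsCol f) {E E' : Submodule k F}
    (hE : E ≠ ⊥) (hE' : E' ≠ ⊥) {c c' c'' : ZMod p} (h : Gen ι f E c) (h' : Gen ι f E' c')
    (h'' : Gen ι f (E * E') c'') : c'' = c + c' := by
  obtain ⟨S, hS, hc⟩ := h
  obtain ⟨S', hS', hc'⟩ := h'
  obtain ⟨S'', hS'', hc''⟩ := h''
  obtain ⟨x, hx, y, hy, h1, h2, h3⟩ := exists_avoid_mul E E' S'' hS''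
    (Sum.elim S (fun _ : Unit => (⊥ : Submodule k F))) (by
      rintro (i | i)
      · exact hS i
      · exact fun h0 => hE (le_bot_iff.mp h0))
    (Sum.elim S' (fun _ : Unit => (⊥ : Submodule k F))) (by
      rintro (i | i)
      · exact hS' i
      · exact fun h0 => hE' (le_bot_iff.mp h0))
  have hx0 : x ≠ 0 := by
    intro h0
    apply h2 (Sum.inr ())
    rw [h0]
    exact Submodule.zero_mem _
  have hy0 : y ≠ 0 := by
    intro h0
    apply h3 (Sum.inr ())
    rw [h0]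
    exact Submodule.zero_mem _
  rw [← hc'' (x * y) (Submodule.mul_mem_mul hx hy) (mul_ne_zero hx0 hy0) h1, hf x y hx0 hy0,
    hc x hx hx0 (fun i => h2 (Sum.inl i)), hc' y hy hy0 (fun i => h3 (Sum.inl i))]

theorem mul_ne_bot' {E E' : Submodule k F} (hE : E ≠ ⊥) (hE' : E' ≠ ⊥) : E * E' ≠ ⊥ := by
  obtain ⟨x, hx, hx0⟩ := Submodule.exists_mem_ne_zero_of_ne_bot hE
  obtain ⟨y, hy, hy0⟩ := Submodule.exists_mem_ne_zero_of_ne_bot hE'
  intro h
  have h1 := Submodule.mul_mem_mul hx hy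
  rw [h, Submodule.mem_bot] at h1
  exact mul_ne_zero hx0 hy0 h1

theorem one_ne_bot' : (1 : Submodule k F) ≠ ⊥ := by
  intro h
  have h1 : (1 : F) ∈ (1 : Submodule k F) := Submodule.one_le.mp le_rfl
  rw [h, Submodule.mem_bot] at h1
  exact one_ne_zero h1

theorem pow_ne_bot' {E : Submodule k F} (hE : E ≠ ⊥) (n : ℕ) : E ^ n ≠ ⊥ := by
  induction n with
  | zero => rw [pow_zero]; exact one_ne_bot'
  | succ n ih => rw [pow_succ]; exact mul_ne_bot' ih hE

theorem exists_vals_finite [Infinite k] [Finite ι] (f : F → ZMod p) (hf : IsCol f)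
    (hk : ∀ s : k, s ≠ 0 → f (algebraMap k F s) = 0)
    (h : ∀ E : Submodule k F, FiniteDimensional k E → E ≠ ⊥ → MF ι f E)
    (X : Finset F) (hX : ∀ x ∈ X, x ≠ 0 ∧ f x ≠ 0) :
    ∃ O : ι → ValuationSubring F, ∀ x ∈ X, ∃ i, ¬ (x ∈ O i ∧ x⁻¹ ∈ O i) := by
  classical
  have hgen : ∀ N : Submodule k F, N.FG → N ≠ ⊥ → ∃ c, Gen ι f N c := by
    intro N hN hN0
    obtain ⟨S, hS, c, hc⟩ := h N ((Submodule.fg_iff_finiteDimensional N).mp hN) hN0
    exact ⟨c, S, hS, hc⟩
  have hl0 : ∀ y : F, y ≠ 0 → Submodule.span k {y} ≠ ⊥ := by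
    intro y hy h0
    exact hy (Submodule.span_singleton_eq_bot.mp h0)
  have hline : ∀ y : F, y ≠ 0 → Gen ι f (Submodule.span k {y}) (f y) := by
    intro y hy
    refine ⟨fun _ => ⊥, fun _ h0 => hl0 y hy (le_bot_iff.mp h0), ?_⟩
    intro x hx hx0 _
    obtain ⟨s, rfl⟩ := Submodule.mem_span_singleton.mp hx
    have hs : s ≠ 0 := by rintro rfl; exact hx0 (zero_smul _ _)
    rw [Algebra.smul_def, hf _ _ ((map_ne_zero _).mpr hs) hy, hk s hs, zero_add]
  let EE : F → Submodule k F := fun x => (Submodule.span k {1}) ⊔ (Submodule.span k {x})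
  have hEfg : ∀ x, (EE x).FG := fun x =>
    (Submodule.fg_span_singleton _).sup (Submodule.fg_span_singleton _)
  have hE0 : ∀ x, EE x ≠ ⊥ := by
    intro x h0
    apply hl0 1 one_ne_zero
    rw [← le_bot_iff, ← h0]
    exact le_sup_left
  have hy : ∀ x : F, x ∈ X → ∃ y : F, (y = 1 ∨ y = x) ∧ ∀ c, Gen ι f (EE x) c → f y ≠ c := by
    intro x hx
    obtain ⟨c, hc⟩ := hgen (EE x) (hEfg x) (hE0 x)
    by_cases h1 : c = 0
    · refine ⟨x, Or.inr rfl, fun c' hc' h2 => ?_⟩
      have h3 := gen_uniq (hE0 x) hc hc'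
      exact (hX x hx).2 (by rw [h2, ← h3, h1])
    · refine ⟨1, Or.inl rfl, fun c' hc' h2 => ?_⟩
      have h3 := gen_uniq (hE0 x) hc hc'
      rw [hf.one] at h2
      exact h1 (by rw [h3, ← h2])
  choose! y hy1 hy2 using hy
  have hy0 : ∀ x ∈ X, y x ≠ 0 := by
    intro x hx
    rcases hy1 x hx with h1 | h1
    · rw [h1]; exact one_ne_zero
    · rw [h1]; exact (hX x hx).1
  have hprod : ∀ Y : Finset F, (∏ x ∈ Y, EE x).FG ∧ (∏ x ∈ Y, EE x) ≠ ⊥ := by
    intro Y
    induction Y using Finset.induction with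
    | empty =>
      rw [Finset.prod_empty]
      refine ⟨?_, one_ne_bot'⟩
      rw [Submodule.one_eq_span]
      exact Submodule.fg_span_singleton _
    | insert x Y hxY ih =>
      rw [Finset.prod_insert hxY]
      exact ⟨(hEfg x).mul ih.1, mul_ne_bot' (hE0 x) ih.2⟩
  obtain ⟨E, hEdef⟩ : ∃ E : Submodule k F, E = ∏ x ∈ X, EE x := ⟨_, rfl⟩
  have hEfg' : E.FG := by rw [hEdef]; exact (hprod X).1
  have hE0' : E ≠ ⊥ := by rw [hEdef]; exact (hprod X).2
  have hpfg : ∀ n : ℕ, (E ^ n).FG := fun n => hEfg'.pow n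
  let R : F → Submodule k F := fun x => ∏ x' ∈ X.erase x, EE x'
  have hRfg : ∀ x, (R x).FG := fun x => (hprod _).1
  have hR0 : ∀ x, R x ≠ ⊥ := fun x => (hprod _).2
  have hER : ∀ x ∈ X, E = EE x * R x := fun x hx => by
    rw [hEdef]; exact (Finset.mul_prod_erase X EE hx).symm
  let Cx : F → Submodule k F := fun x => (Submodule.span k {y x}) * R x
  have hCfg : ∀ x, (Cx x).FG := fun x => (Submodule.fg_span_singleton _).mul (hRfg x)
  have hC0 : ∀ x ∈ X, Cx x ≠ ⊥ := fun x hx => mul_ne_bot' (hl0 _ (hy0 x hx)) (hR0 x)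
  have hyE : ∀ x ∈ X, Submodule.span k {y x} ≤ EE x := by
    intro x hx
    rcases hy1 x hx with h1 | h1
    · rw [h1]; exact le_sup_left
    · rw [h1]; exact le_sup_right
  have hCE : ∀ x ∈ X, Cx x ≤ E := by
    intro x hx
    rw [hER x hx]
    exact mul_le_mul' (hyE x hx) le_rfl
  have key : ∀ n : ℕ, ∃ S : ι → Submodule k F, (∀ i, ¬ E ^ (n + 1) ≤ S i) ∧
      ∀ x ∈ X, ∃ i, Cx x * E ^ n ≤ S i := by
    intro n
    obtain ⟨c, S, hS, hc⟩ := hgen (E ^ (n + 1)) (hpfg _) (pow_ne_bot' hE0' _)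
    refine ⟨S, hS, fun x hx => ?_⟩
    obtain ⟨cE, hcE⟩ := hgen (EE x) (hEfg x) (hE0 x)
    obtain ⟨cR, hcR⟩ := hgen (R x) (hRfg x) (hR0 x)
    obtain ⟨cT, hcT⟩ := hgen E hEfg' hE0'
    obtain ⟨cn, hcn⟩ := hgen (E ^ n) (hpfg _) (pow_ne_bot' hE0' _)
    obtain ⟨cC, hcC⟩ := hgen (Cx x) (hCfg x) (hC0 x hx)
    obtain ⟨cD, hcD⟩ := hgen (Cx x * E ^ n) ((hCfg x).mul (hpfg _))
      (mul_ne_bot' (hC0 x hx) (pow_ne_bot' hE0' _))
    have e1 : cT = cE + cR :=
      gen_mul hf (hE0 x) (hR0 x) hcE hcR (by rw [← hER x hx]; exact hcT)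
    have e2 : cC = f (y x) + cR :=
      gen_mul hf (hl0 _ (hy0 x hx)) (hR0 x) (hline _ (hy0 x hx)) hcR hcC
    have e3 : cD = cC + cn := gen_mul hf (hC0 x hx) (pow_ne_bot' hE0' _) hcC hcn hcD
    have e4 : c = cT + cn := gen_mul hf hE0' (pow_ne_bot' hE0' _) hcT hcn
      (by rw [← pow_succ']; exact ⟨S, hS, hc⟩)
    have hne : cD ≠ c := by
      rw [e3, e4, e2, e1]
      intro h0
      exact hy2 x hx cE hcE (by linear_combination h0)
    apply gen_le (mul_ne_bot' (hC0 x hx) (pow_ne_bot' hE0' _)) _ hcD S hc hne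
    rw [pow_succ']
    exact mul_le_mul' (hCE x hx) le_rfl
  choose S hS hS1 using key
  have hjex : ∀ n, ∃ j : X → ι, ∀ x : X, Cx x * E ^ n ≤ S n (j x) := fun n =>
    ⟨fun x => (hS1 n x x.2).choose, fun x => (hS1 n x x.2).choose_spec⟩
  choose j hj using hjex
  obtain ⟨j0, hj0⟩ := Finite.exists_infinite_fiber j
  have hinf : ∀ n, ∃ m, n ≤ m ∧ j m = j0 := by
    intro n
    have h1 : (j ⁻¹' {j0}).Infinite := Set.infinite_coe_iff.mp hj0
    obtain ⟨m, hm, hnm⟩ := h1.exists_gt n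
    exact ⟨m, hnm.le, hm⟩
  let C : ι → Submodule k F := fun i => ⨆ x : {x : X // j0 x = i}, Cx x.1
  have hCE' : ∀ i, C i ≤ E := fun i => iSup_le fun x => hCE _ x.1.2
  have hC : ∀ i n, C i * E ^ n ≠ E ^ (n + 1) := by
    intro i n h0
    obtain ⟨m, hm, hjm⟩ := hinf n
    obtain ⟨d, rfl⟩ := Nat.exists_eq_add_of_le hm
    have h1 : C i * E ^ (n + d) = E ^ (n + d + 1) := by
      calc C i * E ^ (n + d) = (C i * E ^ n) * E ^ d := by ring
        _ = E ^ (n + 1) * E ^ d := by rw [h0]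
        _ = E ^ (n + d + 1) := by ring
    apply hS (n + d) i
    rw [← h1, Submodule.iSup_mul]
    apply iSup_le
    rintro ⟨x, hx⟩
    have h2 := hj (n + d) x
    rw [hjm, hx] at h2
    exact h2
  have hfd : FiniteDimensional k E := (Submodule.fg_iff_finiteDimensional E).mp hEfg'
  have hO : ∀ i, ∃ O : ValuationSubring F, ∃ e ∈ E, e ≠ 0 ∧ (∀ x ∈ E, x / e ∈ O) ∧
      ∀ x ∈ C i, O.valuation (x / e) < 1 := fun i => exists_val E (C i) (hCE' i) hE0' (hC i)
  choose O e heE he0 _ hO2 using hO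
  refine ⟨O, fun x hx => ⟨j0 ⟨x, hx⟩, ?_⟩⟩
  rintro ⟨hx1, hx2⟩
  obtain ⟨i, hi⟩ : ∃ i, i = j0 ⟨x, hx⟩ := ⟨_, rfl⟩
  rw [← hi] at hx1 hx2
  have hx0 := (hX x hx).1
  have hv1 : (O i).valuation x ≤ 1 := ((O i).valuation_le_one_iff x).mpr hx1
  have hv2 : (O i).valuation x⁻¹ ≤ 1 := ((O i).valuation_le_one_iff _).mpr hx2
  have hCi : Cx x ≤ C i := le_iSup (fun z : {z : X // j0 z = i} => Cx z.1) ⟨⟨x, hx⟩, hi.symm⟩
  have hr : ∀ r ∈ R x, (O i).valuation (r / e i) < 1 ∧ (O i).valuation (x * r / e i) < 1 := by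
    intro r hr
    have h1 : (O i).valuation (y x * r / e i) < 1 :=
      hO2 i _ (hCi (Submodule.mul_mem_mul (Submodule.mem_span_singleton_self _) hr))
    rcases hy1 x hx with h2 | h2
    · rw [h2, one_mul] at h1
      refine ⟨h1, ?_⟩
      rw [mul_div_assoc, map_mul]
      exact (mul_le_of_le_one_left' hv1).trans_lt h1
    · rw [h2] at h1
      refine ⟨?_, h1⟩
      have e1 : r / e i = x⁻¹ * (x * r / e i) := by field_simp
      rw [e1, map_mul]
      exact (mul_le_of_le_one_left' hv2).trans_lt h1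
  have hall : ∀ z ∈ EE x * R x, (O i).valuation (z / e i) < 1 := by
    intro z hz
    refine Submodule.mul_induction_on hz ?_ ?_
    · intro a ha r hr'
      obtain ⟨u, hu, w, hw, rfl⟩ := Submodule.mem_sup.mp ha
      obtain ⟨s, rfl⟩ := Submodule.mem_span_singleton.mp hu
      obtain ⟨t, rfl⟩ := Submodule.mem_span_singleton.mp hw
      have e1 : (s • (1 : F) + t • x) * r / e i = (s • r) / e i + (x * (t • r)) / e i := by
        rw [← add_div]
        congr 1
        rw [add_mul, smul_mul_assoc, smul_mul_assoc, one_mul, mul_smul_comm]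
      rw [e1]
      exact lt_of_le_of_lt ((O i).valuation.map_add _ _)
        (max_lt (hr _ ((R x).smul_mem s hr')).1 (hr _ ((R x).smul_mem t hr')).2)
    · intro a b ha hb
      rw [add_div]
      exact lt_of_le_of_lt ((O i).valuation.map_add _ _) (max_lt ha hb)
  have h1 := hall (e i) (by rw [← hER x hx]; exact heE i)
  rw [div_self (he0 i), map_one] at h1
  exact lt_irrefl _ h1

end Pool.Agent.Helper2.EG
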