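import Pool.Agent.Helper2.EG.B4

/-!
# B5: compactness

PROOF `exists_vals_of_finite`.  For every finite set `X` of elements of `A` choose `O^X : ι → …`.
Take an ultrafilter `𝒲` on `Finset A` (or `Finset F`) containing all the sets `{X | X₀ ⊆ X}`
(`Filter.atTop`), and put `x ∈ O i ↔ ∀ᶠ X in 𝒲, x ∈ O^X i`.  This is a valuation subring
(closed under the operations because filters are closed under intersection; `x ∈ O i` or
`x⁻¹ ∈ O i` because `𝒲` is an ultrafilter).  For `x ∈ A`: for almost all `X ∋ x` there is `i` with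
`¬ (x ∈ O^X i ∧ x⁻¹ ∈ O^X i)`; `ι` is finite, so one `i` works for almost all `X`, and then
`¬ (x ∈ O i ∧ x⁻¹ ∈ O i)`.
`MF.of_mul`: `S` a family for `E E'`, `¬ E E' ≤ S i`; by `exists_avoid` (the subspaces
`T i = {y | E y ⊆ S i}` do not contain `E'`; compare the proof of `exists_avoid_mul`) there is
`y ∈ E'`, `y ≠ 0`, with `E y ⊄ S i` for all `i`; the family `{x | x y ∈ S i}` works for `E`, with the
constant `c - f y`.
-/

set_option autoImplicit false

namespace Pool.Agent.Helper2.EG

theorem exists_vals_of_finite {F : Type*} [Field F] {ι : Type*} [Finite ι] (A : Set F)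
    (h : ∀ X : Finset F, (∀ x ∈ X, x ∈ A) →
      ∃ O : ι → ValuationSubring F, ∀ x ∈ X, ∃ i, ¬ (x ∈ O i ∧ x⁻¹ ∈ O i)) :
    ∃ O : ι → ValuationSubring F, ∀ x ∈ A, ∃ i, ¬ (x ∈ O i ∧ x⁻¹ ∈ O i) := by
  classical
  have h1 : ∀ X : Finset F, ∃ O : ι → ValuationSubring F, ∀ x ∈ X, x ∈ A →
      ∃ i, ¬ (x ∈ O i ∧ x⁻¹ ∈ O i) := by
    intro X
    obtain ⟨O, hO⟩ := h (X.filter (· ∈ A)) (by intro x hx; exact (Finset.mem_filter.mp hx).2)
    exact ⟨O, fun x hx hxA => hO x (Finset.mem_filter.mpr ⟨hx, hxA⟩)⟩
  choose O hO using h1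
  let W : Ultrafilter (Finset F) := Ultrafilter.of Filter.atTop
  have hW : (W : Filter (Finset F)) ≤ Filter.atTop := Ultrafilter.of_le _
  let P : ι → ValuationSubring F := fun i =>
    { carrier := {x | ∀ᶠ X : Finset F in (W : Filter (Finset F)), x ∈ O X i}
      mul_mem' := by
        intro a b ha hb
        have ha' : ∀ᶠ X : Finset F in (W : Filter (Finset F)), a ∈ O X i := ha
        have hb' : ∀ᶠ X : Finset F in (W : Filter (Finset F)), b ∈ O X i := hb
        show ∀ᶠ X : Finset F in (W : Filter (Finset F)), a * b ∈ O X i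
        filter_upwards [ha', hb'] with X h1 h2
        exact mul_mem h1 h2
      one_mem' := by
        show ∀ᶠ X : Finset F in (W : Filter (Finset F)), (1 : F) ∈ O X i
        exact Filter.Eventually.of_forall fun X => one_mem _
      add_mem' := by
        intro a b ha hb
        have ha' : ∀ᶠ X : Finset F in (W : Filter (Finset F)), a ∈ O X i := ha
        have hb' : ∀ᶠ X : Finset F in (W : Filter (Finset F)), b ∈ O X i := hb
        show ∀ᶠ X : Finset F in (W : Filter (Finset F)), a + b ∈ O X i
        filter_upwards [ha', hb'] with X h1 h2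
        exact add_mem h1 h2
      zero_mem' := by
        show ∀ᶠ X : Finset F in (W : Filter (Finset F)), (0 : F) ∈ O X i
        exact Filter.Eventually.of_forall fun X => zero_mem _
      neg_mem' := by
        intro a ha
        have ha' : ∀ᶠ X : Finset F in (W : Filter (Finset F)), a ∈ O X i := ha
        show ∀ᶠ X : Finset F in (W : Filter (Finset F)), -a ∈ O X i
        filter_upwards [ha'] with X h1
        exact neg_mem h1
      mem_or_inv_mem' := by
        intro a
        show (∀ᶠ X : Finset F in (W : Filter (Finset F)), a ∈ O X i) ∨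
          ∀ᶠ X : Finset F in (W : Filter (Finset F)), a⁻¹ ∈ O X i
        rw [← Ultrafilter.eventually_or]
        exact Filter.Eventually.of_forall fun X => (O X i).mem_or_inv_mem a }
  have hP : ∀ i x, x ∈ P i ↔ ∀ᶠ X : Finset F in (W : Filter (Finset F)), x ∈ O X i :=
    fun i x => Iff.rfl
  refine ⟨P, ?_⟩
  intro x hx
  have h2 : ∀ᶠ X : Finset F in (W : Filter (Finset F)), ∃ i, ¬ (x ∈ O X i ∧ x⁻¹ ∈ O X i) := by
    have h0 : ∀ᶠ X : Finset F in Filter.atTop, {x} ≤ X := Filter.eventually_ge_atTop {x}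
    filter_upwards [hW h0] with X hX
    exact hO X x (hX (Finset.mem_singleton_self x)) hx
  by_contra hcon
  push Not at hcon
  have h3 : ∀ i, ∀ᶠ X : Finset F in (W : Filter (Finset F)), x ∈ O X i ∧ x⁻¹ ∈ O X i := by
    intro i
    exact ((hP i x).mp (hcon i).1).and ((hP i _).mp (hcon i).2)
  have h4 := Filter.eventually_all.mpr h3
  obtain ⟨X, ⟨i, hi⟩, hX⟩ := (h2.and h4).exists
  exact hi (hX i)

theorem MF.of_mul {k F W : Type*} [Field k] [Field F] [Algebra k F] [AddCommGroup W] [Infinite k]
    {ι : Type*} [Finite ι] {f : F → W} (hf : IsCol f) {E E' : Submodule k F} (hE' : E' ≠ ⊥)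
    (h : MF ι f (E * E')) : MF ι f E := by
  obtain ⟨S, hS, c, hc⟩ := h
  -- the elements `y` with `E y ⊆ S i`
  let T : ι → Submodule k F := fun i =>
    { carrier := {y | ∀ x ∈ E, x * y ∈ S i}
      add_mem' := by
        intro a b ha hb x hx
        rw [mul_add]; exact (S i).add_mem (ha x hx) (hb x hx)
      zero_mem' := by intro x _; rw [mul_zero]; exact (S i).zero_mem
      smul_mem' := by
        intro c a ha x hx
        rw [mul_smul_comm]; exact (S i).smul_mem c (ha x hx) }
  have hT : ∀ i, ¬ E' ≤ T i := by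
    intro i h
    apply hS i
    rw [Submodule.mul_le]
    intro x hx y hy
    exact h hy x hx
  obtain ⟨y, hy, hy1⟩ := exists_avoid E' (Sum.elim T (fun _ : Unit => (⊥ : Submodule k F))) (by
    rintro (i | i)
    · exact hT i
    · exact fun h0 => hE' (le_bot_iff.mp h0))
  have hy0 : y ≠ 0 := by
    intro h0
    apply hy1 (Sum.inr ())
    rw [h0]
    exact Submodule.zero_mem _
  let T' : ι → Submodule k F := fun i =>
    { carrier := {x | x * y ∈ S i}
      add_mem' := by
        intro a b ha hb
        show (a + b) * y ∈ S i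
        rw [add_mul]; exact (S i).add_mem ha hb
      zero_mem' := by show 0 * y ∈ S i; rw [zero_mul]; exact (S i).zero_mem
      smul_mem' := by
        intro c a ha
        show (c • a) * y ∈ S i
        rw [smul_mul_assoc]; exact (S i).smul_mem c ha }
  refine ⟨T', ?_, c - f y, ?_⟩
  · intro i hi
    exact hy1 (Sum.inl i) fun x hx => hi hx
  · intro x hx hx0 hxT
    have h1 := hc (x * y) (Submodule.mul_mem_mul hx hy) (mul_ne_zero hx0 hy0) hxT
    rw [hf x y hx0 hy0] at h1
    exact eq_sub_of_add_eq h1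

end Pool.Agent.Helper2.EG
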