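import Pool.Agent.Helper2.EG.Defs

/-!
# Basic facts on boxes and avoidance of subspaces
-/

set_option autoImplicit false

namespace Pool.Agent.Helper2.EG

section

variable {k F V : Type*} [Field k] [Field F] [Algebra k F] [AddCommGroup V]
  {ι : Type*} {B : Module.Basis ι k F} {E : Submodule k F} {K₀ : Subfield k}

theorem zero_mem_box : (0 : F) ∈ box B E K₀ :=
  ⟨E.zero_mem, fun i => by rw [map_zero]; exact K₀.zero_mem⟩

theorem add_mem_box {x y : F} (hx : x ∈ box B E K₀) (hy : y ∈ box B E K₀) :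
    x + y ∈ box B E K₀ :=
  ⟨E.add_mem hx.1 hy.1, fun i => by rw [map_add]; exact K₀.add_mem (hx.2 i) (hy.2 i)⟩

theorem neg_mem_box {x : F} (hx : x ∈ box B E K₀) : -x ∈ box B E K₀ :=
  ⟨E.neg_mem hx.1, fun i => by rw [map_neg]; exact K₀.neg_mem (hx.2 i)⟩

theorem sub_mem_box {x y : F} (hx : x ∈ box B E K₀) (hy : y ∈ box B E K₀) :
    x - y ∈ box B E K₀ := by
  rw [sub_eq_add_neg]; exact add_mem_box hx (neg_mem_box hy)

theorem smul_mem_box {a : k} (ha : a ∈ K₀) {x : F} (hx : x ∈ box B E K₀) :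
    a • x ∈ box B E K₀ :=
  ⟨E.smul_mem a hx.1, fun i => by
    rw [map_smul]; exact K₀.mul_mem ha (hx.2 i)⟩

/-- the box as an additive subgroup. -/
def boxG (B : Module.Basis ι k F) (E : Submodule k F) (K₀ : Subfield k) : AddSubgroup F where
  carrier := box B E K₀
  add_mem' := add_mem_box
  zero_mem' := zero_mem_box
  neg_mem' := neg_mem_box

theorem mem_boxG {x : F} : x ∈ boxG B E K₀ ↔ x ∈ box B E K₀ := Iff.rfl

/-- a fixed point lies in the box for almost all finite subfields. -/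
theorem eventually_mem_box {𝒰 : Ultrafilter (Subfield k)} (h𝒰 : GoodU 𝒰) {x : F} (hx : x ∈ E) :
    ∀ᶠ K₀ : Subfield k in (𝒰 : Filter (Subfield k)), x ∈ box B E K₀ := by
  classical
  have h1 : ∀ i ∈ (B.repr x).support, ∀ᶠ K₀ : Subfield k in (𝒰 : Filter (Subfield k)),
      B.repr x i ∈ K₀ := fun i _ => h𝒰.mem _
  have h2 := (Filter.eventually_all_finset (l := (𝒰 : Filter (Subfield k)))
    (B.repr x).support).mpr h1
  filter_upwards [h2] with K₀ hK
  refine ⟨hx, fun i => ?_⟩
  by_cases hi : i ∈ (B.repr x).support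
  · exact hK i hi
  · rw [Finsupp.notMem_support_iff.mp hi]; exact K₀.zero_mem

/-- the number of elements of the finite subfields tends to infinity. -/
theorem eventually_card [Infinite k] {𝒰 : Ultrafilter (Subfield k)} (h𝒰 : GoodU 𝒰) (N : ℕ) :
    ∀ᶠ K₀ : Subfield k in (𝒰 : Filter (Subfield k)), N ≤ Nat.card K₀ := by
  classical
  obtain ⟨s, hs⟩ := Infinite.exists_subset_card_eq k N
  have h1 : ∀ a ∈ s, ∀ᶠ K₀ : Subfield k in (𝒰 : Filter (Subfield k)), a ∈ K₀ :=
    fun a _ => h𝒰.mem a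
  have h2 := (Filter.eventually_all_finset (l := (𝒰 : Filter (Subfield k))) s).mpr h1
  filter_upwards [h2, h𝒰.fin] with K₀ hK hfin
  rw [← hs]
  have : Set.ncard (s : Set k) ≤ Set.ncard (K₀ : Set k) :=
    Set.ncard_le_ncard (fun a ha => hK a ha) (Set.toFinite _)
  rw [Set.ncard_coe_finset] at this
  exact this

end

section avoid

variable {k F : Type*} [Field k] [Field F] [Algebra k F]

/-- a subspace is not covered by finitely many subspaces not containing it. -/
theorem exists_avoid [Infinite k] {ι : Type*} [Finite ι] (E : Submodule k F)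
    (S : ι → Submodule k F) (hS : ∀ i, ¬ E ≤ S i) : ∃ x ∈ E, ∀ i, x ∉ S i := by
  classical
  have := Fintype.ofFinite ι
  by_contra hcon
  push Not at hcon
  have h1 : (⋃ i, (((S i).comap E.subtype : Submodule k E) : Set E)) = Set.univ := by
    rw [Set.eq_univ_iff_forall]
    rintro ⟨x, hx⟩
    obtain ⟨i, hi⟩ := hcon x hx
    rw [Set.mem_iUnion]
    exact ⟨i, hi⟩
  obtain ⟨i, hi⟩ := Subspace.exists_eq_top_of_iUnion_eq_univ h1
  apply hS i
  intro x hx
  have : (⟨x, hx⟩ : E) ∈ (S i).comap E.subtype := by rw [hi]; exact Submodule.mem_top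
  exact this

/-- simultaneous avoidance for products. -/
theorem exists_avoid_mul [Infinite k] {ι ι₁ ι₂ : Type*} [Finite ι] [Finite ι₁] [Finite ι₂]
    (E E' : Submodule k F) (S : ι → Submodule k F) (hS : ∀ i, ¬ E * E' ≤ S i)
    (S₁ : ι₁ → Submodule k F) (hS₁ : ∀ i, ¬ E ≤ S₁ i)
    (S₂ : ι₂ → Submodule k F) (hS₂ : ∀ i, ¬ E' ≤ S₂ i) :
    ∃ x ∈ E, ∃ y ∈ E', (∀ i, x * y ∉ S i) ∧ (∀ i, x ∉ S₁ i) ∧ ∀ i, y ∉ S₂ i := by
  -- the elements `y` with `E y ⊆ S i`
  let T : ι → Submodule k F := fun i =>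
    { carrier := {y | ∀ x ∈ E, x * y ∈ S i}
      add_mem' := by
        intro a b ha hb x hx
        rw [mul_add]; exact (S i).add_mem (ha x hx) (hb x hx)
      zero_mem' := by intro x _; rw [mul_zero]; exact (S i).zero_mem
      smul_mem' := by
        intro c a ha x hx
        rw [mul_smul_comm]; exact (S i).smul_mem c (ha x hx) }
  have hT : ∀ i, ¬ E' ≤ T i := by
    intro i h
    apply hS i
    rw [Submodule.mul_le]
    intro x hx y hy
    exact h hy x hx
  obtain ⟨y, hy, hy1⟩ := exists_avoid E' (Sum.elim T S₂) (by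
    rintro (i | i)
    · exact hT i
    · exact hS₂ i)
  let T' : ι → Submodule k F := fun i =>
    { carrier := {x | x * y ∈ S i}
      add_mem' := by
        intro a b ha hb
        show (a + b) * y ∈ S i
        rw [add_mul]; exact (S i).add_mem ha hb
      zero_mem' := by show 0 * y ∈ S i; rw [zero_mul]; exact (S i).zero_mem
      smul_mem' := by
        intro c a ha
        show (c • a) * y ∈ S i
        rw [smul_mul_assoc]; exact (S i).smul_mem c ha }
  obtain ⟨x, hx, hx1⟩ := exists_avoid E (Sum.elim T' S₁) (by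
    rintro (i | i)
    · intro h
      apply hy1 (Sum.inl i)
      intro x hx
      exact h hx
    · exact hS₁ i)
  exact ⟨x, hx, y, hy, fun i => hx1 (Sum.inl i), fun i => hx1 (Sum.inr i),
    fun i => hy1 (Sum.inr i)⟩

end avoid

end Pool.Agent.Helper2.EG
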