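import Pool.Agent.Helper2.EG.Defs

/-!
# QUO: a norm form as a nondegenerate form on a finite vector space

PROOF.  `rad = {x | ∀ y, B x y = 0}` is a subgroup of `Fˣ` containing all `p`-th powers, of finite
index by `FinP`.  `V = Additive (Fˣ ⧸ rad)`, killed by `p` (`AddCommGroup.zmodModule`), finite.
`φ x` = class of `x` (`0` for `x = 0`).  Steinberg: `1 - x` is a norm from `F(x^{1/p})`
(`g = 1 - X`: `∏_j (1 - ζ^j α) = 1 - α^p`, Helper25 `prod_sub_zeta`), so `B x (1 - x) = 0`; hence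
`B x (-x) = 0` and `B x y = - B y x` (as in `Stb.anti`, `Stb.neg_self` of Defs.lean); so the right
radical is `rad` as well and `B` induces a bilinear form `ω` on `V`, nondegenerate.
-/

set_option autoImplicit false

namespace Pool.Agent.Helper2.EG

open Pool.Agent.Helper25.ETC

theorem exists_form {F K : Type} [Field F] [Field K] [Algebra F K] {p : ℕ} {ζ : K}
    (Cx : Ctx p F K ζ) (hζF : ζ ∈ (algebraMap F K).range) (hfin : FinP p F)
    {B : Fˣ → Fˣ → ZMod p} (hB : B ∈ NF p F K ζ) :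
    ∃ (V : Type) (_ : AddCommGroup V) (_ : Module (ZMod p) V) (_ : Finite V) (φ : F → V)
      (ω : V →ₗ[ZMod p] V →ₗ[ZMod p] ZMod p),
      IsCol φ ∧ ColSurj φ ∧ Stb φ ω ∧ Nondeg ω ∧ NFc p F K ζ φ ω ∧
        ∀ x y : Fˣ, B x y = ω (φ (x : F)) (φ (y : F)) := by
  sorry

end Pool.Agent.Helper2.EG
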