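import Pool.Agent.Helper2.EG.A8
import Pool.Agent.Helper2.EG.A9
import Pool.Agent.Helper2.EG.QUO

/-!
# Dec: every norm form is a sum of local norm forms (helper2)
-/

set_option autoImplicit false

namespace Pool.Agent.Helper2.EG

open Pool.Agent.Helper25.ETC

theorem dec {F K : Type} [Field F] [Field K] [Algebra F K] {p : ℕ} {ζ : K}
    (Cx : Ctx p F K ζ) (hζF : ζ ∈ (algebraMap F K).range) (hG : Geo F) (hfin : FinP p F)
    {B : Fˣ → Fˣ → ZMod p} (hB : B ∈ NF p F K ζ) :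
    ∃ (n : ℕ) (O : Fin n → ValuationSubring F) (Bi : Fin n → Fˣ → Fˣ → ZMod p),
      (∀ i, O i ∈ VV p F) ∧ (∀ i, Bi i ∈ NF p F K ζ) ∧
      (∀ i, ∀ x y : Fˣ, OneU (O i) (x : F) → Bi i x y = 0) ∧
      (∀ i, ∀ x y : Fˣ, OneU (O i) (y : F) → Bi i x y = 0) ∧
      ∀ x y : Fˣ, B x y = ∑ i, Bi i x y := by
  sorry

end Pool.Agent.Helper2.EG
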