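import Pool.Agent.Helper25.ETCNorm

/-!
# Elementary type conjecture, fields of positive characteristic with infinitely many roots of
unity: definitions

`F` is a field, `V` a vector space over `ZMod p`.  A colouring `φ : F → V` is additive on nonzero
elements (`φ (x * y) = φ x + φ y`), its value at `0` is junk.
-/

set_option autoImplicit false

namespace Pool.Agent.Helper2.EG

open Polynomial

/-- a colouring: additive on nonzero elements (junk at `0`). -/
def IsCol {F V : Type*} [Field F] [AddCommGroup V] (φ : F → V) : Prop :=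
  ∀ x y : F, x ≠ 0 → y ≠ 0 → φ (x * y) = φ x + φ y

/-- every colour occurs at a nonzero element. -/
def ColSurj {F V : Type*} [Field F] (φ : F → V) : Prop := ∀ v : V, ∃ x : F, x ≠ 0 ∧ φ x = v

/-- Steinberg relation. -/
def Stb {F V : Type*} {p : ℕ} [Field F] [AddCommGroup V] [Module (ZMod p) V] (φ : F → V)
    (ω : V →ₗ[ZMod p] V →ₗ[ZMod p] ZMod p) : Prop :=
  ∀ x : F, x ≠ 0 → x ≠ 1 → ω (φ x) (φ (1 - x)) = 0

/-- no left kernel. -/
def Nondeg {V : Type*} {p : ℕ} [AddCommGroup V] [Module (ZMod p) V]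
    (ω : V →ₗ[ZMod p] V →ₗ[ZMod p] ZMod p) : Prop := ∀ u : V, (∀ v : V, ω u v = 0) → u = 0

section col

variable {F V : Type*} [Field F] [AddCommGroup V] {φ : F → V}

theorem IsCol.one (h : IsCol φ) : φ 1 = 0 := by
  have := h 1 1 one_ne_zero one_ne_zero
  rw [mul_one] at this
  exact left_eq_add.mp this

theorem IsCol.inv (h : IsCol φ) {x : F} (hx : x ≠ 0) : φ x⁻¹ = - φ x := by
  have := h x x⁻¹ hx (inv_ne_zero hx)
  rw [mul_inv_cancel₀ hx, h.one] at this
  exact (neg_eq_of_add_eq_zero_right this.symm).symm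

theorem IsCol.div (h : IsCol φ) {x y : F} (hx : x ≠ 0) (hy : y ≠ 0) : φ (x / y) = φ x - φ y := by
  rw [div_eq_mul_inv, h x _ hx (inv_ne_zero hy), h.inv hy, sub_eq_add_neg]

theorem IsCol.pow (h : IsCol φ) {x : F} (hx : x ≠ 0) (n : ℕ) : φ (x ^ n) = n • φ x := by
  induction n with
  | zero => rw [pow_zero, h.one, zero_smul]
  | succ n ih => rw [pow_succ, h _ _ (pow_ne_zero n hx) hx, ih, succ_nsmul]

theorem IsCol.pow_p {p : ℕ} [Module (ZMod p) V] (h : IsCol φ) {x : F} (hx : x ≠ 0) :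
    φ (x ^ p) = 0 := by
  rw [h.pow hx, ← Nat.cast_smul_eq_nsmul (ZMod p), CharP.cast_eq_zero, zero_smul]

theorem IsCol.mul_pow_p {p : ℕ} [Module (ZMod p) V] (h : IsCol φ) {x y : F} (hx : x ≠ 0)
    (hy : y ≠ 0) : φ (x * y ^ p) = φ x := by
  rw [h _ _ hx (pow_ne_zero p hy), h.pow_p hy, add_zero]

variable {p : ℕ} [Module (ZMod p) V] {ω : V →ₗ[ZMod p] V →ₗ[ZMod p] ZMod p}

/-- the line relation. -/
theorem Stb.line (hS : Stb φ ω) (h : IsCol φ) {x y : F} (hx : x ≠ 0) (hy : y ≠ 0)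
    (hz : x + y ≠ 0) : ω (φ x - φ (x + y)) (φ y - φ (x + y)) = 0 := by
  rw [← h.div hx hz, ← h.div hy hz]
  have e : y / (x + y) = 1 - x / (x + y) := by field_simp; ring
  rw [e]
  apply hS
  · exact div_ne_zero hx hz
  · intro h1
    rw [div_eq_one_iff_eq hz] at h1
    exact hy (left_eq_add.mp h1)

theorem Stb.neg_self (hS : Stb φ ω) (h : IsCol φ) {x : F} (hx : x ≠ 0) :
    ω (φ x) (φ (-x)) = 0 := by
  by_cases h1 : x = 1
  · rw [h1, h.one]; simp
  have hi : x⁻¹ ≠ 1 := by
    intro h2; apply h1; rw [← inv_inv x, h2, inv_one]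
  have e : -x = (1 - x) / (1 - x⁻¹) := by
    have h3 : 1 - x⁻¹ ≠ 0 := sub_ne_zero.mpr (Ne.symm hi)
    rw [eq_div_iff h3]
    field_simp
    ring
  rw [e, h.div (sub_ne_zero.mpr (Ne.symm h1)) (sub_ne_zero.mpr (Ne.symm hi)), map_sub, hS x hx h1]
  have h4 := hS x⁻¹ (inv_ne_zero hx) hi
  rw [h.inv hx, map_neg, LinearMap.neg_apply, neg_eq_zero] at h4
  rw [h4, sub_zero]

theorem Stb.anti (hS : Stb φ ω) (h : IsCol φ) {x y : F} (hx : x ≠ 0) (hy : y ≠ 0) :
    ω (φ x) (φ y) = - ω (φ y) (φ x) := by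
  have h1 := hS.neg_self h (mul_ne_zero hx hy)
  have e : -(x * y) = (-1) * (x * y) := by ring
  have hm : (-1 : F) ≠ 0 := neg_ne_zero.mpr one_ne_zero
  have hnx : φ (-x) = φ (-1) + φ x := by
    rw [← h _ _ hm hx]; congr 1; ring
  have hny : φ (-y) = φ (-1) + φ y := by
    rw [← h _ _ hm hy]; congr 1; ring
  have h2 := hS.neg_self h hx
  have h3 := hS.neg_self h hy
  rw [hnx, map_add] at h2
  rw [hny, map_add] at h3
  rw [e, h _ _ hm (mul_ne_zero hx hy), h x y hx hy] at h1
  simp only [map_add, LinearMap.add_apply] at h1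
  linear_combination h1 - h2 - h3

theorem Stb.anti' (hS : Stb φ ω) (h : IsCol φ) (hs : ColSurj φ) (u v : V) :
    ω u v = - ω v u := by
  obtain ⟨x, hx, rfl⟩ := hs u
  obtain ⟨y, hy, rfl⟩ := hs v
  exact hS.anti h hx hy

end col

/-! ### Step I: subspaces, boxes, popular colours -/

section stepI

variable {k F V : Type*} [Field k] [Field F] [Algebra k F] [AddCommGroup V]

/-- an ultrafilter of finite subfields of `k` exhausting `k`. -/
structure GoodU (𝒰 : Ultrafilter (Subfield k)) : Prop where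
  fin : ∀ᶠ K₀ : Subfield k in (𝒰 : Filter (Subfield k)), Finite K₀
  mem : ∀ a : k, ∀ᶠ K₀ : Subfield k in (𝒰 : Filter (Subfield k)), a ∈ K₀

/-- the points of the subspace `E` whose coordinates with respect to the basis `B` lie in `K₀`. -/
def box {ι : Type*} (B : Module.Basis ι k F) (E : Submodule k F) (K₀ : Subfield k) : Set F :=
  {x | x ∈ E ∧ ∀ i, B.repr x i ∈ K₀}

/-- the points of the box which are `0` or whose colour is not in `C`. -/
def bad {ι : Type*} (B : Module.Basis ι k F) (φ : F → V) (E : Submodule k F) (C : Set V)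
    (K₀ : Subfield k) : Set F :=
  {x | x ∈ box B E K₀ ∧ (x = 0 ∨ φ x ∉ C)}

/-- the points of the box which are nonzero of colour `c`. -/
def cls {ι : Type*} (B : Module.Basis ι k F) (φ : F → V) (E : Submodule k F) (c : V)
    (K₀ : Subfield k) : Set F :=
  {x | x ∈ box B E K₀ ∧ x ≠ 0 ∧ φ x = c}

/-- the popular colours of `E`: those of positive density. -/
def Pop (𝒰 : Ultrafilter (Subfield k)) {ι : Type*} (B : Module.Basis ι k F) (φ : F → V)
    (E : Submodule k F) : Set V :=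
  {c | ∃ δ : ℝ, 0 < δ ∧ ∀ᶠ K₀ in (𝒰 : Filter (Subfield k)),
    δ * ((box B E K₀).ncard : ℝ) ≤ ((cls B φ E c K₀).ncard : ℝ)}

/-- `f` is constant on the nonzero elements of `E` outside a family, indexed by `ι`, of subspaces
not containing `E`. -/
def MF (ι : Type*) {W : Type*} (f : F → W) (E : Submodule k F) : Prop :=
  ∃ S : ι → Submodule k F, (∀ i, ¬ E ≤ S i) ∧ ∃ c, ∀ x ∈ E, x ≠ 0 → (∀ i, x ∉ S i) → f x = c

end stepI

/-! ### Step II: valuations -/

section stepII

variable {F : Type*} [Field F]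

/-- `F` has positive characteristic and infinitely many roots of unity. -/
structure Geo (F : Type*) [Field F] : Prop where
  char : ∃ l : ℕ, l.Prime ∧ CharP F l
  inf : {c : F | ∃ n : ℕ, 0 < n ∧ c ^ n = 1}.Infinite

/-- the value group of `O` is `p`-divisible. -/
def PDiv (p : ℕ) (O : ValuationSubring F) : Prop :=
  ∀ x : F, x ≠ 0 → ∃ y : F, O.valuation (x * y ^ p) = 1

/-- `x ∈ 1 + m`. -/
def OneU (O : ValuationSubring F) (x : F) : Prop := O.valuation (x - 1) < 1

/-- the coarsest valuation rings whose value group is not `p`-divisible. -/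
def VV (p : ℕ) (F : Type*) [Field F] : Set (ValuationSubring F) :=
  {O | ¬ PDiv p O ∧ ∀ O' : ValuationSubring F, O < O' → PDiv p O'}

end stepII

/-! ### norm forms -/

section normforms

variable (p : ℕ) (F K : Type*) [Field F] [Field K] [Algebra F K] (ζ : K)

/-- `b` is a norm from `F(a^{1/p})`. -/
def NRel (a b : F) : Prop :=
  ∃ (α : K) (g : F[X]), α ^ p = algebraMap F K a ∧
    ∏ j ∈ Finset.range p, aeval (ζ ^ j * α) g = algebraMap F K b

/-- bimultiplicative `ℤ/p`-valued pairings vanishing on all norm pairs. -/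
def NF : Set (Fˣ → Fˣ → ZMod p) :=
  {B | (∀ x y z, B (x * y) z = B x z + B y z) ∧ (∀ x y z, B x (y * z) = B x y + B x z) ∧
    ∀ a b : Fˣ, NRel p F K ζ (a : F) (b : F) → B a b = 0}

/-- the same for a colouring and a bilinear form. -/
def NFc {V : Type*} [AddCommGroup V] [Module (ZMod p) V] (φ : F → V)
    (ω : V →ₗ[ZMod p] V →ₗ[ZMod p] ZMod p) : Prop :=
  ∀ a b : F, a ≠ 0 → b ≠ 0 → NRel p F K ζ a b → ω (φ a) (φ b) = 0

/-- `F* / F*^p` is finite. -/
def FinP (p : ℕ) (F : Type*) [Field F] : Prop :=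
  ∃ R : Finset F, ∀ x : F, x ≠ 0 → ∃ r ∈ R, ∃ y : F, y ≠ 0 ∧ x = r * y ^ p

end normforms

/-! ### Step III: Galois groups -/

section stepIII

variable {F K : Type*} [Field F] [Field K] [Algebra F K]

/-- the decomposition group of a valuation ring of `K`. -/
def Zd (F : Type*) {K : Type*} [Field F] [Field K] [Algebra F K] (w : ValuationSubring K) :
    Subgroup (K ≃ₐ[F] K) where
  carrier := {σ | ∀ x : K, x ∈ w ↔ σ x ∈ w}
  one_mem' := fun _ => Iff.rfl
  mul_mem' := by
    intro σ τ hσ hτ x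
    rw [AlgEquiv.mul_apply, ← hσ, ← hτ]
  inv_mem' := by
    intro σ hσ x
    rw [hσ (σ⁻¹ x), ← AlgEquiv.mul_apply, mul_inv_cancel, AlgEquiv.one_apply]

theorem mem_Zd {w : ValuationSubring K} {σ : K ≃ₐ[F] K} :
    σ ∈ Zd F w ↔ ∀ x : K, x ∈ w ↔ σ x ∈ w := Iff.rfl

/-- `w` lies over `O`. -/
def Lies (w : ValuationSubring K) (O : ValuationSubring F) : Prop :=
  ∀ x : F, algebraMap F K x ∈ w ↔ x ∈ O

end stepIII

end Pool.Agent.Helper2.EG
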