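import Pool.Agent.Helper2.EG.Defs

/-!
# Step III: cocycles and embedding problems (definitions)

`G = K ≃ₐ[F] K`.  Continuity of a map is expressed by a finite subextension `L` of `K/F`.
An embedding problem is `π : P →* Q` (finite groups, central kernel of order `p`) and
`ψ : G →* Q`.  The fibre product of a subgroup `D ≤ G` and `P` over `Q` is
`{(σ, g) | σ ∈ D, ψ σ = π g}`.
-/

set_option autoImplicit false

namespace Pool.Agent.Helper2.EG

variable {F K : Type*} [Field F] [Field K] [Algebra F K]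

/-- a function on a subgroup of the Galois group is trivial near `1`. -/
def Cts {D : Subgroup (K ≃ₐ[F] K)} {M : Type*} [One M] (f : D → M) : Prop :=
  ∃ L : IntermediateField F K, FiniteDimensional F L ∧
    ∀ τ : D, (∀ y ∈ L, (τ : K ≃ₐ[F] K) y = y) → f τ = 1

/-- an embedding problem with kernel `μ_p`. -/
structure EmbData (p : ℕ) (F K : Type*) [Field F] [Field K] [Algebra F K] {P Q : Type*} [Group P]
    [Group Q] (π : P →* Q) (ψ : (K ≃ₐ[F] K) →* Q) (ι : P → K) : Prop where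
  surj : Function.Surjective π
  central : ∀ z, π z = 1 → ∀ g, z * g = g * z
  mul : ∀ z z', π z = 1 → π z' = 1 → ι (z * z') = ι z * ι z'
  inj : ∀ z, π z = 1 → ι z = 1 → z = 1
  pow : ∀ z, π z = 1 → ι z ^ p = 1
  onto : ∀ u : K, u ^ p = 1 → ∃ z, π z = 1 ∧ ι z = u
  cts : ∃ L : IntermediateField F K, FiniteDimensional F L ∧
    ∀ τ : K ≃ₐ[F] K, (∀ y ∈ L, τ y = y) → ψ τ = 1

/-- the restriction of `ψ` to `D` lifts to `P`. -/
def LiftOn {P Q : Type*} [Group P] [Group Q] (π : P →* Q) (ψ : (K ≃ₐ[F] K) →* Q)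
    (D : Subgroup (K ≃ₐ[F] K)) : Prop :=
  ∃ l : D →* P, (∀ σ : D, π (l σ) = ψ σ) ∧ Cts l

/-- the class of the embedding problem, pushed to `K*`, splits on `D`: there is a continuous
1-cocycle on the fibre product of `D` and `P` with values in `K*` extending `ι`. -/
def SplitOn {P Q : Type*} [Group P] [Group Q] (π : P →* Q) (ψ : (K ≃ₐ[F] K) →* Q) (ι : P → K)
    (D : Subgroup (K ≃ₐ[F] K)) : Prop :=
  ∃ x : (K ≃ₐ[F] K) → P → K,
    (∀ σ ∈ D, ∀ g, ψ σ = π g → x σ g ≠ 0) ∧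
    (∀ σ ∈ D, ∀ τ ∈ D, ∀ g h, ψ σ = π g → ψ τ = π h → x (σ * τ) (g * h) = x σ g * σ (x τ h)) ∧
    (∀ z, π z = 1 → x 1 z = ι z) ∧
    ∃ L : IntermediateField F K, FiniteDimensional F L ∧
      ∀ τ ∈ D, (∀ y ∈ L, τ y = y) → ψ τ = 1 ∧ x τ 1 = 1

/-- the elements of `D` fixing `α`. -/
def Dfix (D : Subgroup (K ≃ₐ[F] K)) (α : K) : Subgroup (K ≃ₐ[F] K) :=
  D ⊓ MulAction.stabilizer (K ≃ₐ[F] K) α

theorem mem_Dfix {D : Subgroup (K ≃ₐ[F] K)} {α : K} {σ : K ≃ₐ[F] K} :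
    σ ∈ Dfix D α ↔ σ ∈ D ∧ σ α = α := Iff.rfl

/-- `b` is the norm of an element of `K^{D'}`, `D' = Dfix D α`, with respect to `σ`. -/
def IsNorm (p : ℕ) (D : Subgroup (K ≃ₐ[F] K)) (α : K) (σ : K ≃ₐ[F] K) (b : K) : Prop :=
  ∃ n : K, n ≠ 0 ∧ (∀ τ ∈ D, τ α = α → τ n = n) ∧ ∏ i ∈ Finset.range p, (σ ^ i) n = b

end Pool.Agent.Helper2.EG
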