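import Pool.Agent.Helper2.EG.M2

/-!
# M5: basic properties of popular colours

`pop_bad`: for each of the finitely many colours `c ∉ Pop`, by the ultrafilter property and the
negation of the definition, for every `ε > 0` almost always `#cls c < ε #box`; the point `0` is
negligible because `#box = |K₀|^(finrank E)`, `finrank E ≥ 1`, tends to infinity.
`pop_nonempty`: otherwise almost all points of the box are bad, contradiction with `ε = 1/2`.
`pop_smul`: multiplication by `s ∈ K₀*` is a bijection of the box mapping the class of `c` onto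
the class of `c + φ(s)`.
`pop_of_mem`: if `0 ≠ x ∈ E`, `φ(k*) = 0` and `E = k x` then `φ x` is popular in `E` (all nonzero
points of the box are multiples of `x`).
-/

set_option autoImplicit false

namespace Pool.Agent.Helper2.EG

variable {k F V : Type*} [Field k] [Field F] [Algebra k F] [AddCommGroup V] {ι : Type*}
  {𝒰 : Ultrafilter (Subfield k)} {φ : F → V}

theorem pop_bad [Infinite k] [Finite V] (h𝒰 : GoodU 𝒰) (B : Module.Basis ι k F)
    (E : Submodule k F) [FiniteDimensional k E] (hE : E ≠ ⊥) (ε : ℝ) (hε : 0 < ε) :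
    ∀ᶠ K₀ : Subfield k in (𝒰 : Filter (Subfield k)),
      ((bad B φ E (Pop 𝒰 B φ E) K₀).ncard : ℝ) ≤ ε * ((box B E K₀).ncard : ℝ) := by
  sorry

theorem pop_nonempty [Infinite k] [Finite V] (h𝒰 : GoodU 𝒰) (B : Module.Basis ι k F)
    (E : Submodule k F) [FiniteDimensional k E] (hE : E ≠ ⊥) : (Pop 𝒰 B φ E).Nonempty := by
  sorry

theorem pop_smul (h𝒰 : GoodU 𝒰) (B : Module.Basis ι k F) (hφ : IsCol φ)
    (E : Submodule k F) {c : V} (hc : c ∈ Pop 𝒰 B φ E) {s : k} (hs : s ≠ 0) :
    c + φ (algebraMap k F s) ∈ Pop 𝒰 B φ E := by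
  sorry

theorem pop_line [Infinite k] (h𝒰 : GoodU 𝒰) (B : Module.Basis ι k F) (hφ : IsCol φ)
    (hk : ∀ s : k, s ≠ 0 → φ (algebraMap k F s) = 0) {x : F} (hx : x ≠ 0) :
    φ x ∈ Pop 𝒰 B φ (Submodule.span k {x}) := by
  sorry

end Pool.Agent.Helper2.EG
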