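import Pool.Agent.Helper2.EG.Basic

/-!
# M6a: the walk lemma

`X` is a finite abelian group, each `e ∈ X` is a sum of `n` steps `d_i ∈ D_i`.  The function `h` is
unchanged by each step between two good points.  Then two sets of density `≥ δ` on which `h`
takes different values force `δ² ≤ (n+1) η`, `η` the density of the bad set.
PROOF.  Choose for each `e ∈ X` steps `d_0, …, d_{n-1}`, partial sums `s_0 = 0, …, s_n = e`.  Count
pairs `(z, e) ∈ X²`: for each `j = 0..n` the pairs with `z + s_j(e) ∈ Bad` number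
`|Bad ∩ X| |X|` (translation is a bijection), so all but `(n+1) |Bad| |X| ≤ (n+1) η |X|²` pairs have
all `z + s_j(e)` good; for these `h (z + e) = h z` by induction.  The pairs `(z, e)` with `z ∈ A`,
`z + e ∈ B` number `|A| |B| ≥ δ² |X|²` and none of them is of this kind.
-/

set_option autoImplicit false

namespace Pool.Agent.Helper2.EG

theorem walk_lemma {M W : Type*} [AddCommGroup M] (X : AddSubgroup M) [Finite X] (n : ℕ)
    (D : Fin n → Set M) (hD : ∀ i, ∀ d ∈ D i, d ∈ X)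
    (hgen : ∀ e ∈ X, ∃ d : Fin n → M, (∀ i, d i ∈ D i) ∧ e = ∑ i, d i)
    (Bad : Set M) (h : M → W)
    (hstep : ∀ i, ∀ z ∈ X, z ∉ Bad → ∀ d ∈ D i, z + d ∉ Bad → h (z + d) = h z)
    (A B : Set M) (hA : A ⊆ X) (hB : B ⊆ X) (hAB : ∀ x ∈ A, ∀ y ∈ B, h x ≠ h y)
    (δ η : ℝ) (hδ : 0 ≤ δ) (hη : 0 ≤ η) (hAc : δ * (Nat.card X : ℝ) ≤ (A.ncard : ℝ))
    (hBc : δ * (Nat.card X : ℝ) ≤ (B.ncard : ℝ))
    (hbad : (((Bad ∩ X : Set M)).ncard : ℝ) ≤ η * (Nat.card X : ℝ)) :
    δ ^ 2 ≤ (n + 1) * η := by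
  sorry

end Pool.Agent.Helper2.EG
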