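import Pool.Agent.Helper2.EG.M4
import Pool.Agent.Helper2.EG.M5
import Pool.Agent.Helper2.EG.M6a

/-!
# M6: the span lemma

PROOF.  Choose a basis `P_1, …, P_n` of `E` inside `S` (`exists_linearIndependent` /
`Submodule.exists_fun_fin_finrank_span_eq`-like; `E ≤ span S` and `S ⊆ E` give `span S = E`).
For almost all `K₀` the box is `X = {∑ s_i P_i : s_i ∈ K₀}` (`box_form`).  Let
`D_i = {s • P_i : s ∈ K₀}`, `Bad = {z | z = 0 ∨ φ z ∉ Pop}`, `h z = μ (φ z)`.
STEP: let `z`, `z' = z + s P_i` be good (nonzero with popular colours), `s ≠ 0`.  The line relation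
for `z + (s P_i) = z'` reads `ω (φ z - φ z') (φ (s P_i) - φ z') = 0`.  Here
`φ (s P_i) = φ(s) + φ(P_i)` and `φ z - φ z'`, `φ(s)`, `φ z' - v` are differences of popular colours
(`v + φ(s)` is popular by `pop_smul`), any two of which are `ω`-orthogonal (`pop_isotropic`:
`ω (a - v) (b - v) = 0` for popular `a, b`).  So `ω (φ z - φ z') (φ P_i - v) = 0`, i.e.
`ω (φ z - v) (φ P_i - v) = ω (φ z' - v) (φ P_i - v)`, i.e. `μ (φ z) = μ (φ z')` by `hμ`.
Suppose `μ c ≠ 0` for a popular `c`.  `μ v = ω 0 _ = 0`.  (If `n = 0`, `E = ⊥` has no popular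
colours.) The classes of `c` and `v` have density `≥ δ > 0` and `h` takes different values on them,
so `walk_lemma` gives `δ² ≤ (n+1) η` for almost all `K₀`, `η = ` density of the bad set; by
`pop_bad` choose `η < δ²/(n+1)`: contradiction.
-/

set_option autoImplicit false

namespace Pool.Agent.Helper2.EG

variable {k F V : Type*} [Field k] [Field F] [Algebra k F] [AddCommGroup V] {ι : Type*}
  {𝒰 : Ultrafilter (Subfield k)} {p : ℕ} [Module (ZMod p) V]
  {ω : V →ₗ[ZMod p] V →ₗ[ZMod p] ZMod p} {φ : F → V}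

theorem span_lemma [Infinite k] [Finite V] (hp : p.Prime) (h𝒰 : GoodU 𝒰)
    (B : Module.Basis ι k F) (hφ : IsCol φ) (hS : Stb φ ω) (E : Submodule k F)
    [FiniteDimensional k E] {v : V} (hv : v ∈ Pop 𝒰 B φ E) (S : Set F)
    (hSE : ∀ P ∈ S, P ∈ E ∧ P ≠ 0) (hspan : E ≤ Submodule.span k S) (μ : V → ZMod p)
    (hμ : ∀ P ∈ S, ∀ c ∈ Pop 𝒰 B φ E, ω (c - v) (φ P - v) = μ c) :
    ∀ c ∈ Pop 𝒰 B φ E, μ c = 0 := by
  sorry

end Pool.Agent.Helper2.EG
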