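import Pool.Agent.Helper2.EG.M5

/-!
# M8: the line through a popular point

`C` finite dimensional, `x ∉ C`, `φ(k*) = 0`; `c` is a popular colour of `C` and `v` is the only
popular colour of `C ⊔ k x`.  Then `ω (c - v) (φ x - v) = 0`.
PROOF.  Let `δ` be a lower density of the colour `c` in `C`.  For almost all `K₀`: `x` is in the box
(`eventually_mem_box`), the box of `C ⊔ k x` has `|box C| |K₀|` elements (`box_card_sup`), and the
bad points (zero or colour `≠ v`; use `pop_bad` and `Pop ⊆ {v}`) are at most `(δ/4) |box C| |K₀|`.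
The map `(y, s) ↦ y + s x` is injective on `box C × K₀`; the pairs with `φ y = c`, `s ≠ 0` number at
least `δ |box C| (|K₀| - 1) ≥ (δ/2) |box C| |K₀|`.  So one of the points `z = y + s x` is nonzero of
colour `v`.  The line relation: `ω (φ y - φ z) (φ (s x) - φ z) = ω (c - v) (φ x - v) = 0`.
-/

set_option autoImplicit false

namespace Pool.Agent.Helper2.EG

variable {k F V : Type*} [Field k] [Field F] [Algebra k F] [AddCommGroup V] {ι : Type*}
  {𝒰 : Ultrafilter (Subfield k)} {p : ℕ} [Module (ZMod p) V]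
  {ω : V →ₗ[ZMod p] V →ₗ[ZMod p] ZMod p} {φ : F → V}

theorem join_line [Infinite k] [Finite V] (h𝒰 : GoodU 𝒰) (B : Module.Basis ι k F)
    (hφ : IsCol φ) (hS : Stb φ ω) (hk : ∀ s : k, s ≠ 0 → φ (algebraMap k F s) = 0)
    (C : Submodule k F) [FiniteDimensional k C] {x : F} (hx : x ∉ C) {c v : V}
    (hc : c ∈ Pop 𝒰 B φ C) (hv : Pop 𝒰 B φ (C ⊔ Submodule.span k {x}) ⊆ {v}) :
    ω (c - v) (φ x - v) = 0 := by
  sorry

end Pool.Agent.Helper2.EG
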