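import Pool.Agent.Helper2.EG.M1
import Pool.Agent.Helper2.EG.M6
import Pool.Agent.Helper2.EG.M8
import Pool.Agent.Helper2.EG.B5

/-!
# EX: existence of valuations (helper2)
-/

set_option autoImplicit false

namespace Pool.Agent.Helper2.EG

section

variable {k F V : Type*} [Field k] [Field F] [Algebra k F] [AddCommGroup V] {ι : Type*}
  {𝒰 : Ultrafilter (Subfield k)} {p : ℕ} [Module (ZMod p) V]
  {ω : V →ₗ[ZMod p] V →ₗ[ZMod p] ZMod p} {φ : F → V}

/-- M7: two popular colours. -/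
theorem mf_of_pop [Infinite k] [Finite V] (hp : p.Prime) (h𝒰 : GoodU 𝒰)
    (B : Module.Basis ι k F) (hφ : IsCol φ) (hS : Stb φ ω) (E : Submodule k F)
    [FiniteDimensional k E] (hE : E ≠ ⊥) {v c₀ : V} (hv : v ∈ Pop 𝒰 B φ E)
    (hc : c₀ ∈ Pop 𝒰 B φ E) :
    (∀ s : k, s ≠ 0 → ω (c₀ - v) (φ (algebraMap k F s)) = 0) ∧
      MF (V → ZMod p) (fun x => ω (c₀ - v) (φ x)) E := by
  classical
  constructor
  · intro s hs
    have h1 := pop_isotropic hp h𝒰 B hφ hS E hc (pop_smul h𝒰 B hφ E hv hs) hv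
    rwa [add_sub_cancel_left] at h1
  · refine ⟨fun μ => if μ c₀ = 0 then ⊥ else Submodule.span k
      {P | P ∈ E ∧ P ≠ 0 ∧ ∀ c ∈ Pop 𝒰 B φ E, ω (c - v) (φ P - v) = μ c}, ?_, ω (c₀ - v) v, ?_⟩
    · intro μ hle
      beta_reduce at hle
      by_cases h : μ c₀ = 0
      · rw [if_pos h] at hle
        exact hE (le_bot_iff.mp hle)
      · rw [if_neg h] at hle
        apply h
        exact span_lemma hp h𝒰 B hφ hS E hv
          {P | P ∈ E ∧ P ≠ 0 ∧ ∀ c ∈ Pop 𝒰 B φ E, ω (c - v) (φ P - v) = μ c}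
          (fun P hP => ⟨hP.1, hP.2.1⟩) hle μ (fun P hP c hc => hP.2.2 c hc) c₀ hc
    · intro x hx hx0 hxS
      have h1 := hxS (fun c => ω (c - v) (φ x - v))
      beta_reduce at h1
      by_cases h : ω (c₀ - v) (φ x - v) = 0
      · rw [map_sub, sub_eq_zero] at h
        exact h
      · exfalso
        rw [if_neg h] at h1
        exact h1 (Submodule.subset_span ⟨hx, hx0, fun c _ => rfl⟩)

/-- M8': one popular colour, nonconstant colouring. -/
theorem mf_of_unique [Infinite k] [Finite V] (h𝒰 : GoodU 𝒰)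
    (B : Module.Basis ι k F) (hφ : IsCol φ) (hS : Stb φ ω) (E : Submodule k F)
    [FiniteDimensional k E] {v : V} (hv : Pop 𝒰 B φ E = {v}) {x₀ : F} (hx₀ : x₀ ∈ E)
    (h0 : x₀ ≠ 0) (hne : φ x₀ ≠ v) :
    ∃ u : V, u ≠ 0 ∧ (∀ s : k, s ≠ 0 → ω u (φ (algebraMap k F s)) = 0) ∧
      MF (V → ZMod p) (fun x => ω u (φ x)) E := by
  classical
  have hk : ∀ s : k, s ≠ 0 → φ (algebraMap k F s) = 0 := by
    intro s hs
    have h1 := pop_smul h𝒰 B hφ E (c := v) (by rw [hv]; rfl) hs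
    rw [hv, Set.mem_singleton_iff] at h1
    exact add_eq_left.mp h1
  let good : Submodule k F → Prop := fun C => C ≤ E ∧ ∃ c ∈ Pop 𝒰 B φ C, c ≠ v
  have hex : ∃ n : ℕ, ∃ C : Submodule k F, good C ∧
      Module.finrank k E - Module.finrank k C = n :=
    ⟨_, Submodule.span k {x₀}, ⟨by rwa [Submodule.span_singleton_le_iff_mem],
      φ x₀, pop_line h𝒰 B hφ hk h0, hne⟩, rfl⟩
  obtain ⟨C, ⟨hCE, c, hc, hcv⟩, hCn⟩ := Nat.find_spec hex
  have hmin := fun m (hm : m < Nat.find hex) => Nat.find_min hex hm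
  have hfC : FiniteDimensional k C := Submodule.finiteDimensional_of_le hCE
  have hEC : ¬ E ≤ C := by
    intro h
    have : C = E := le_antisymm hCE h
    rw [this, hv] at hc
    exact hcv hc
  have key : ∀ x ∈ E, x ∉ C → ω (c - v) (φ x - v) = 0 := by
    intro x hx hxC
    apply join_line h𝒰 B hφ hS hk C hxC hc
    intro d hd
    rw [Set.mem_singleton_iff]
    by_contra hdv
    have hle : C ⊔ Submodule.span k {x} ≤ E := by
      rw [sup_le_iff]
      exact ⟨hCE, by rwa [Submodule.span_singleton_le_iff_mem]⟩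
    have hfC' : FiniteDimensional k ↥(C ⊔ Submodule.span k {x}) :=
      Submodule.finiteDimensional_of_le hle
    have hlt : C < C ⊔ Submodule.span k {x} := by
      refine lt_of_le_of_ne le_sup_left ?_
      intro he
      apply hxC
      rw [he]
      exact (le_sup_right : Submodule.span k {x} ≤ _) (Submodule.mem_span_singleton_self x)
    have h1 := Submodule.finrank_lt_finrank_of_lt hlt
    have h2 := Submodule.finrank_mono hle
    refine hmin (Module.finrank k E - Module.finrank k ↥(C ⊔ Submodule.span k {x})) ?_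
      ⟨_, ⟨hle, d, hd, hdv⟩, rfl⟩
    rw [← hCn]
    omega
  refine ⟨c - v, sub_ne_zero.mpr hcv, ?_, fun _ => C, fun _ => hEC, ω (c - v) v, ?_⟩
  · intro s hs
    rw [hk s hs, map_zero]
  · intro x hx _ hxS
    have h1 := key x hx (hxS (fun _ => 0))
    rw [map_sub, sub_eq_zero] at h1
    exact h1

/-- M9. -/
theorem exists_mf [Infinite k] [Finite V] (hp : p.Prime) (h𝒰 : GoodU 𝒰)
    (B : Module.Basis ι k F) (hφ : IsCol φ) (hS : Stb φ ω) (E : Submodule k F)
    [FiniteDimensional k E] {x y : F} (hx : x ∈ E) (hx0 : x ≠ 0) (hy : y ∈ E) (hy0 : y ≠ 0)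
    (hxy : φ x ≠ φ y) :
    ∃ u : V, u ≠ 0 ∧ (∀ s : k, s ≠ 0 → ω u (φ (algebraMap k F s)) = 0) ∧
      MF (V → ZMod p) (fun x => ω u (φ x)) E := by
  have hE : E ≠ ⊥ := by
    rintro rfl
    exact hx0 ((Submodule.mem_bot k).mp hx)
  obtain ⟨v, hv⟩ := pop_nonempty (φ := φ) h𝒰 B E hE
  by_cases h : ∃ c₀ ∈ Pop 𝒰 B φ E, c₀ ≠ v
  · obtain ⟨c₀, hc₀, hne⟩ := h
    have := mf_of_pop hp h𝒰 B hφ hS E hE hv hc₀
    exact ⟨c₀ - v, sub_ne_zero.mpr hne, this.1, this.2⟩
  · push Not at h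
    have hPop : Pop 𝒰 B φ E = {v} := by
      ext c
      rw [Set.mem_singleton_iff]
      exact ⟨h c, fun hc => hc ▸ hv⟩
    by_cases h1 : φ x = v
    · exact mf_of_unique h𝒰 B hφ hS E hPop hy hy0 (by rw [← h1]; exact hxy.symm)
    · exact mf_of_unique h𝒰 B hφ hS E hPop hx hx0 h1

theorem mul_ne_bot {E E' : Submodule k F} (hE : E ≠ ⊥) (hE' : E' ≠ ⊥) : E * E' ≠ ⊥ := by
  rw [Submodule.ne_bot_iff] at hE hE' ⊢
  obtain ⟨x, hx, hx0⟩ := hE
  obtain ⟨y, hy, hy0⟩ := hE'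
  exact ⟨x * y, Submodule.mul_mem_mul hx hy, mul_ne_zero hx0 hy0⟩

theorem fd_mul {E E' : Submodule k F} (hE : FiniteDimensional k E)
    (hE' : FiniteDimensional k E') : FiniteDimensional k ↥(E * E') := by
  have h1 : E.FG := Module.Finite.iff_fg.mp hE
  have h2 : E'.FG := Module.Finite.iff_fg.mp hE'
  exact Module.Finite.iff_fg.mpr (h1.mul h2)

theorem prod_props {ι' : Type*} (s : Finset ι') (E : ι' → Submodule k F)
    (hf : ∀ i ∈ s, FiniteDimensional k (E i)) (h0 : ∀ i ∈ s, E i ≠ ⊥) :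
    FiniteDimensional k ↥(∏ i ∈ s, E i) ∧ ∏ i ∈ s, E i ≠ ⊥ := by
  classical
  induction s using Finset.induction_on with
  | empty =>
    rw [Finset.prod_empty]
    constructor
    · rw [Submodule.one_eq_span]
      infer_instance
    · rw [Submodule.ne_bot_iff]
      exact ⟨1, Submodule.one_le.mp le_rfl, one_ne_zero⟩
  | insert i s hi ih =>
    rw [Finset.prod_insert hi]
    have h1 := ih (fun j hj => hf j (Finset.mem_insert_of_mem hj))
      (fun j hj => h0 j (Finset.mem_insert_of_mem hj))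
    exact ⟨fd_mul (hf i (Finset.mem_insert_self _ _)) h1.1,
      mul_ne_bot (h0 i (Finset.mem_insert_self _ _)) h1.2⟩

/-- M10. -/
theorem exists_mf_all [Infinite k] [Finite V] [Nontrivial V] (hp : p.Prime) (h𝒰 : GoodU 𝒰)
    (B : Module.Basis ι k F) (hφ : IsCol φ) (hs : ColSurj φ) (hS : Stb φ ω) :
    ∃ u : V, u ≠ 0 ∧ (∀ s : k, s ≠ 0 → ω u (φ (algebraMap k F s)) = 0) ∧
      ∀ E : Submodule k F, FiniteDimensional k E → E ≠ ⊥ →
        MF (V → ZMod p) (fun x => ω u (φ x)) E := by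
  classical
  have : Fintype V := Fintype.ofFinite V
  have : NeZero p := ⟨hp.ne_zero⟩
  by_contra hcon
  push Not at hcon
  have hE : ∀ u : V, ∃ E : Submodule k F, FiniteDimensional k E ∧ E ≠ ⊥ ∧
      (u ≠ 0 → (∀ s : k, s ≠ 0 → ω u (φ (algebraMap k F s)) = 0) →
        ¬ MF (V → ZMod p) (fun x => ω u (φ x)) E) := by
    intro u
    by_cases h : u ≠ 0 ∧ ∀ s : k, s ≠ 0 → ω u (φ (algebraMap k F s)) = 0
    · obtain ⟨E, h1, h2, h3⟩ := hcon u h.1 h.2
      exact ⟨E, h1, h2, fun _ _ => h3⟩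
    · refine ⟨Submodule.span k {1}, inferInstance, ?_, fun h1 h2 => absurd ⟨h1, h2⟩ h⟩
      rw [Submodule.ne_bot_iff]
      exact ⟨1, Submodule.mem_span_singleton_self 1, one_ne_zero⟩
  choose Eu hEf hE0 hEu using hE
  obtain ⟨v₀, hv₀⟩ := exists_ne (0 : V)
  obtain ⟨x₀, hx₀0, hx₀⟩ := hs v₀
  set E₁ : Submodule k F := Submodule.span k {1, x₀} with hE₁
  have h1E : (1 : F) ∈ E₁ := Submodule.subset_span (by simp)
  have hxE : x₀ ∈ E₁ := Submodule.subset_span (by simp)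
  have hE₁f : FiniteDimensional k E₁ := FiniteDimensional.span_of_finite k (Set.toFinite _)
  have hE₁0 : E₁ ≠ ⊥ := by
    rw [Submodule.ne_bot_iff]
    exact ⟨1, h1E, one_ne_zero⟩
  obtain ⟨hPf, hP0⟩ := prod_props (Finset.univ : Finset V) Eu (fun u _ => hEf u)
    (fun u _ => hE0 u)
  set Pr : Submodule k F := ∏ u, Eu u with hPr
  obtain ⟨y, hy, hy0⟩ := (Submodule.ne_bot_iff _).mp hP0
  have hEf' : FiniteDimensional k ↥(E₁ * Pr) := fd_mul hE₁f hPf
  obtain ⟨u, hu0, huk, hMF⟩ := exists_mf hp h𝒰 B hφ hS (E₁ * Pr)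
    (Submodule.mul_mem_mul h1E hy) (mul_ne_zero one_ne_zero hy0)
    (Submodule.mul_mem_mul hxE hy) (mul_ne_zero hx₀0 hy0) (by
      rw [hφ _ _ one_ne_zero hy0, hφ _ _ hx₀0 hy0, hφ.one, hx₀]
      intro h
      exact hv₀ (add_right_cancel h).symm)
  apply hEu u hu0 huk
  have hsplit : E₁ * Pr = Eu u * (E₁ * ∏ u' ∈ Finset.univ.erase u, Eu u') := by
    rw [hPr, ← Finset.mul_prod_erase Finset.univ Eu (Finset.mem_univ u)]
    ring
  rw [hsplit] at hMF
  refine MF.of_mul ?_ ?_ hMF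
  · intro a b ha hb
    simp only
    rw [hφ a b ha hb, map_add]
  · exact mul_ne_bot hE₁0 (prod_props _ Eu (fun u _ => hEf u) (fun u _ => hE0 u)).2

end

variable {F V : Type*} [Field F] [AddCommGroup V] {p : ℕ} [Module (ZMod p) V]
  {ω : V →ₗ[ZMod p] V →ₗ[ZMod p] ZMod p} {φ : F → V}

theorem exists_vals [Finite V] [Nontrivial V] (hG : Geo F) (hp : p.Prime) (hφ : IsCol φ)
    (hs : ColSurj φ) (hS : Stb φ ω) (hn : Nondeg ω) :
    ∃ u : V, u ≠ 0 ∧ ∃ S : Finset (ValuationSubring F),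
      ∀ x : F, x ≠ 0 → (∀ O ∈ S, O.valuation x = 1) → ω u (φ x) = 0 := by
  classical
  obtain ⟨l, hl, hchar⟩ := hG.char
  have : Fact l.Prime := ⟨hl⟩
  have : NeZero p := ⟨hp.ne_zero⟩
  letI : Algebra (ZMod l) F := ZMod.algebra F l
  let k : IntermediateField (ZMod l) F := algebraicClosure (ZMod l) F
  have halg : Algebra.IsAlgebraic (ZMod l) k := algebraicClosure.isAlgebraic _ _
  have hinf : Infinite k := by
    have h1 : {c : F | ∃ n : ℕ, 0 < n ∧ c ^ n = 1} ⊆ (k : Set F) := by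
      rintro c ⟨n, hn0, hc⟩
      show c ∈ algebraicClosure (ZMod l) F
      rw [mem_algebraicClosure_iff]
      refine ⟨Polynomial.X ^ n - 1, ?_, ?_⟩
      · exact Polynomial.X_pow_sub_C_ne_zero hn0 1
      · simp [hc]
    exact (hG.inf.mono h1).to_subtype
  obtain ⟨𝒰, h𝒰⟩ := exists_goodU (locFin_of_algebraic l k)
  obtain ⟨u, hu0, huk, hMF⟩ := exists_mf_all (k := k) hp h𝒰 (Module.Basis.ofVectorSpace k F)
    hφ hs hS
  refine ⟨u, hu0, ?_⟩
  have hf : IsCol (fun x => ω u (φ x)) := by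
    intro a b ha hb
    simp only
    rw [hφ a b ha hb, map_add]
  obtain ⟨O, hO⟩ := exists_vals_of_finite (ι := V → ZMod p) {x : F | x ≠ 0 ∧ ω u (φ x) ≠ 0}
    (fun X hX => exists_vals_finite (k := k) (fun x => ω u (φ x)) hf huk hMF X
      (fun x hx => hX x hx))
  have := Fintype.ofFinite (V → ZMod p)
  refine ⟨Finset.univ.image O, fun x hx hxO => ?_⟩
  by_contra h
  obtain ⟨i, hi⟩ := hO x ⟨hx, h⟩
  apply hi
  have h1 := hxO (O i) (Finset.mem_image_of_mem _ (Finset.mem_univ i))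
  refine ⟨((O i).valuation_le_one_iff x).mp h1.le, ((O i).valuation_le_one_iff _).mp ?_⟩
  rw [map_inv₀, h1, inv_one]

end Pool.Agent.Helper2.EG
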