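import Pool.Agent.Helper2.EG.Defs2

/-!
# K0: change of the base field

`ctx_up`: `K / E` is Galois (tower), every automorphism of `K/E` is one of `K/F` (restrictScalars).
`lift_aut`, `zd_up`: automorphisms of `K/E` correspond to elements of `E.fixingSubgroup`
(`IntermediateField.fixingSubgroupEquiv`), decomposition groups correspond.
`nrel_isNorm`: `α^p = a`, `σ₀ α = ζ α`, `b = ∏_j g(ζ^j α)` (`g` over the base field): then
`b = ∏_i σ₀^i (g(α))`.
`emb_iota`: if `ker π` is central of order `p`, it is cyclic; `ι` maps a generator to `ζ`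
(`ι g = 1` outside `ker π`, or anything).
-/

set_option autoImplicit false

namespace Pool.Agent.Helper2.EG

open Pool.Agent.Helper25.ETC

variable {F K : Type} [Field F] [Field K] [Algebra F K] {p : ℕ} {ζ : K}

theorem ctx_up (Cx : Ctx p F K ζ) (hζF : ζ ∈ (algebraMap F K).range)
    (E : IntermediateField F K) : Ctx p E K ζ ∧ ζ ∈ (algebraMap E K).range := by
  sorry

theorem lift_aut (E : IntermediateField F K) {σ : K ≃ₐ[F] K} (hσ : σ ∈ E.fixingSubgroup) :
    ∃ σ' : K ≃ₐ[E] K, ∀ x : K, σ' x = σ x := by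
  sorry

theorem res_aut (E : IntermediateField F K) (σ' : K ≃ₐ[E] K) :
    ∃ σ ∈ E.fixingSubgroup, ∀ x : K, σ' x = (σ : K ≃ₐ[F] K) x := by
  sorry

theorem isNorm_up (E : IntermediateField F K) (w : ValuationSubring K) {α b : K}
    {σ : K ≃ₐ[F] K} {σ' : K ≃ₐ[E] K} (h : ∀ x : K, σ' x = σ x)
    (hn : IsNorm p (Zd F w ⊓ E.fixingSubgroup) α σ b) : IsNorm p (Zd E w) α σ' b := by
  sorry

theorem nrel_isNorm (Cx : Ctx p F K ζ) (hζF : ζ ∈ (algebraMap F K).range)
    (E : IntermediateField F K) {α : K} {a b : E} (hα : α ^ p = (a : K)) (hb : b ≠ 0)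
    {σ₀ : K ≃ₐ[F] K} (hσ₀ : σ₀ ∈ E.fixingSubgroup) (h : σ₀ α = ζ * α)
    (hr : NRel p E K ζ a b) : IsNorm p E.fixingSubgroup α σ₀ (b : K) := by
  sorry

theorem emb_iota (Cx : Ctx p F K ζ) {P Q : Type} [Group P] [Group Q] [Finite P] (π : P →* Q)
    (ψ : (K ≃ₐ[F] K) →* Q) (hπ : Function.Surjective π)
    (hc : ∀ z, π z = 1 → ∀ g, z * g = g * z) (hcard : Nat.card π.ker = p)
    (hψ : ∃ L : IntermediateField F K, FiniteDimensional F L ∧
      ∀ τ : K ≃ₐ[F] K, (∀ y ∈ L, τ y = y) → ψ τ = 1) :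
    ∃ ι : P → K, EmbData p F K π ψ ι := by
  sorry

end Pool.Agent.Helper2.EG
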