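import Pool.Agent.Helper2.EG.A2

/-!
# K1: valuation rings in algebraic extensions

PROOF `eq_of_le_of_lies` (`L / F` algebraic, `w ≤ w'` valuation rings of `L` with the same
intersection with `F`; then `w = w'`): let `x ∈ w' ∖ w`.  Then `x⁻¹ ∈ w ≤ w'`, so `w'.valuation x = 1`,
and `w.valuation x > 1`.  `x` is a root of a nonzero polynomial `∑ a_i X^i` over `F`; two of the terms
`a_i x^i`, `i < j`, have the same (maximal, nonzero) `w`-valuation (otherwise the sum would not be
`0`), so `a = a_i / a_j ∈ F` has `w.valuation (x^(j-i)) = w.valuation a`, in particular `a ∉ w`.  Then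
`x^(j-i)/a` is a unit of `w`, hence of `w'`; `x` is a unit of `w'`, so `a` is a unit of `w'`, so
`a ∈ w' ∩ F = w ∩ F`, contradiction.

PROOF `conj_finite` (`L / F` finite Galois): suppose `w'` is not conjugate to `w`:
`w' ≠ w^σ := {x | σ x ∈ w}` for all `σ`.  All conjugates of `w` and of `w'` have the same intersection
with `F`, so two of them are equal or incomparable.  Let `I` be the finite set of conjugates of `w`,
`J` the set of conjugates of `w'`, disjoint.  For every `O ∈ I` there is (`exists_e`) `e_O` with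
`OneU O e_O` and `v e_O < 1` for all other elements of `I ∪ J`; `e = ∑_{O ∈ I} e_O` is in `1 + m` for all
`O ∈ I`, and has `v e < 1` for all `O ∈ J`.  `N = ∏_σ σ e ∈ F` is in `1 + m_w` and in `m_{w'}`:
contradiction as `w ∩ F = w' ∩ F` (`w.valuation N = 1` means `N, N⁻¹ ∈ w`).
(`Geo L` follows from `Geo F`.)

PROOF `conj` (`K / F` Galois, infinite): compactness of `K ≃ₐ[F] K`.  For a finite Galois
subextension `L` the set `C_L = {σ | ∀ x ∈ L, x ∈ w' ↔ σ x ∈ w}` is closed (even clopen; compare
`isClosed_apply` in Helper25/ETCInertia.lean) and nonempty by `conj_finite` and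
`AlgEquiv.restrictNormalHom_surjective`; directed; so the intersection is nonempty.
-/

set_option autoImplicit false

namespace Pool.Agent.Helper2.EG

theorem K1.val_lt_one_iff {L : Type*} [Field L] (O : ValuationSubring L) (x : L) :
    O.valuation x < 1 ↔ x = 0 ∨ x⁻¹ ∉ O := by
  rcases eq_or_ne x 0 with rfl | hx
  · simp
  · have h0 : O.valuation x ≠ 0 := (Valuation.ne_zero_iff _).mpr hx
    rw [← ValuationSubring.valuation_le_one_iff, not_le, map_inv₀,
      one_lt_inv₀ (zero_lt_iff.mpr h0)]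
    simp [hx]

theorem Geo.map {F L : Type*} [Field F] [Field L] [Algebra F L] (hG : Geo F) : Geo L := by
  obtain ⟨⟨l, hl, hc⟩, hinf⟩ := hG
  refine ⟨⟨l, hl, ?_⟩, ?_⟩
  · exact charP_of_injective_algebraMap (algebraMap F L).injective l
  · refine (hinf.image ((algebraMap F L).injective.injOn)).mono ?_
    rintro _ ⟨c, ⟨n, hn, h⟩, rfl⟩
    exact ⟨n, hn, by rw [← map_pow, h, map_one]⟩

theorem K1.two_terms {F L : Type*} [Field F] [Field L] [Algebra F L]
    (w : ValuationSubring L) {x : L} (hx0 : x ≠ 0) {P : Polynomial F} (hP : P ≠ 0)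
    (hPx : Polynomial.aeval x P = 0) :
    ∃ i j : ℕ, i < j ∧ P.coeff i ≠ 0 ∧ P.coeff j ≠ 0 ∧
      w.valuation (algebraMap F L (P.coeff i) * x ^ i) =
        w.valuation (algebraMap F L (P.coeff j) * x ^ j) := by
  classical
  have hne : P.support.Nonempty := Polynomial.support_nonempty.mpr hP
  obtain ⟨i, hi, hmax⟩ := Finset.exists_max_image P.support
    (fun i => w.valuation (algebraMap F L (P.coeff i) * x ^ i)) hne
  have hi0 : P.coeff i ≠ 0 := Polynomial.mem_support_iff.mp hi
  have hterm : ∀ j ∈ P.support, algebraMap F L (P.coeff j) * x ^ j ≠ 0 := fun j hj =>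
    mul_ne_zero ((map_ne_zero _).mpr (Polynomial.mem_support_iff.mp hj)) (pow_ne_zero _ hx0)
  have hsum : ∑ j ∈ P.support, algebraMap F L (P.coeff j) * x ^ j = 0 := by
    rw [Polynomial.aeval_def, Polynomial.eval₂_eq_sum, Polynomial.sum_def] at hPx
    exact hPx
  obtain ⟨j, hj, hji, hje⟩ : ∃ j ∈ P.support, j ≠ i ∧
      w.valuation (algebraMap F L (P.coeff i) * x ^ i) =
        w.valuation (algebraMap F L (P.coeff j) * x ^ j) := by
    by_contra hcon
    push Not at hcon
    have hlt : ∀ j ∈ P.support.erase i, w.valuation (algebraMap F L (P.coeff j) * x ^ j) <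
        w.valuation (algebraMap F L (P.coeff i) * x ^ i) := by
      intro j hj
      rw [Finset.mem_erase] at hj
      exact lt_of_le_of_ne (hmax j hj.2) (hcon j hj.2 hj.1).symm
    have h1 := Valuation.map_sum_lt (v := w.valuation)
      ((Valuation.ne_zero_iff _).mpr (hterm i hi)) hlt
    rw [← Finset.add_sum_erase _ _ hi] at hsum
    have h2 : ∑ j ∈ P.support.erase i, algebraMap F L (P.coeff j) * x ^ j =
        - (algebraMap F L (P.coeff i) * x ^ i) := by
      rw [eq_neg_iff_add_eq_zero, add_comm]; exact hsum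
    rw [h2, Valuation.map_neg] at h1
    exact lt_irrefl _ h1
  have hj0 : P.coeff j ≠ 0 := Polynomial.mem_support_iff.mp hj
  rcases lt_or_gt_of_ne hji with h | h
  · exact ⟨j, i, h, hj0, hi0, hje.symm⟩
  · exact ⟨i, j, h, hi0, hj0, hje⟩

theorem eq_of_le_of_lies {F L : Type*} [Field F] [Field L] [Algebra F L]
    [Algebra.IsAlgebraic F L] {w w' : ValuationSubring L} (hle : w ≤ w')
    (h : ∀ x : F, algebraMap F L x ∈ w ↔ algebraMap F L x ∈ w') : w = w' := by
  apply le_antisymm hle
  intro x hx'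
  by_contra hx
  have hx0 : x ≠ 0 := by rintro rfl; exact hx w.zero_mem
  have h1 : 1 < w.valuation x := by
    rw [← not_le, ValuationSubring.valuation_le_one_iff]; exact hx
  obtain ⟨P, hP, hPx⟩ := (Algebra.IsAlgebraic.isAlgebraic (R := F) x)
  obtain ⟨i, j, hij, hi, hj, he⟩ := K1.two_terms w hx0 hP hPx
  obtain ⟨n, hn, rfl⟩ : ∃ n, 0 < n ∧ j = i + n := ⟨j - i, by omega, by omega⟩
  set c : F := P.coeff i / P.coeff (i + n) with hc
  have hci : algebraMap F L (P.coeff i) ≠ 0 := (map_ne_zero _).mpr hi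
  have hcj : algebraMap F L (P.coeff (i + n)) ≠ 0 := (map_ne_zero _).mpr hj
  have hval : w.valuation (algebraMap F L c) = w.valuation (x ^ n) := by
    rw [pow_add, ← mul_assoc, mul_right_comm, map_mul, map_mul _ _ (x ^ i)] at he
    have hxi : w.valuation (x ^ i) ≠ 0 := (Valuation.ne_zero_iff _).mpr (pow_ne_zero _ hx0)
    have he' := mul_right_cancel₀ hxi he
    rw [map_mul] at he'
    rw [hc, map_div₀, map_div₀, he', mul_comm, mul_div_assoc, div_self
      ((Valuation.ne_zero_iff _).mpr hcj), mul_one]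
  have h2 : 1 < w.valuation (algebraMap F L c) := by
    rw [hval, map_pow]
    exact one_lt_pow₀ h1 hn.ne'
  have h3 : algebraMap F L c ∉ w := by
    rw [← ValuationSubring.valuation_le_one_iff, not_le]; exact h2
  apply h3
  rw [h]
  have h4 : algebraMap F L c / x ^ n ∈ w' := by
    apply hle
    rw [← ValuationSubring.valuation_le_one_iff, map_div₀, hval, div_self]
    exact (Valuation.ne_zero_iff _).mpr (pow_ne_zero _ hx0)
  have h5 : algebraMap F L c = algebraMap F L c / x ^ n * x ^ n := by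
    rw [div_mul_cancel₀ _ (pow_ne_zero _ hx0)]
  rw [h5]
  exact w'.mul_mem _ _ h4 (pow_mem hx' n)

theorem K1.val_comap {L : Type*} [Field L] (w : ValuationSubring L) (σ : L →+* L) (x : L) :
    (w.comap σ).valuation x < 1 ↔ w.valuation (σ x) < 1 := by
  rw [K1.val_lt_one_iff, K1.val_lt_one_iff, map_eq_zero, ValuationSubring.mem_comap, map_inv₀]

theorem K1.oneU_val {L : Type*} [Field L] {O : ValuationSubring L} {x : L} (h : OneU O x) :
    O.valuation x = 1 := by
  have h1 : O.valuation (1 + (x - 1)) = O.valuation 1 :=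
    Valuation.map_add_eq_of_lt_left _ (by rw [map_one]; exact h)
  rwa [add_sub_cancel, map_one] at h1

theorem conj_finite {F L : Type*} [Field F] [Field L] [Algebra F L] [FiniteDimensional F L]
    [IsGalois F L] (hG : Geo F) (w w' : ValuationSubring L)
    (h : ∀ x : F, algebraMap F L x ∈ w ↔ algebraMap F L x ∈ w') :
    ∃ σ : L ≃ₐ[F] L, ∀ x : L, x ∈ w' ↔ σ x ∈ w := by
  classical
  by_contra hcon
  push Not at hcon
  let I : Finset (ValuationSubring L) :=
    Finset.univ.image (fun σ : L ≃ₐ[F] L => w.comap (σ : L →+* L))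
  let J : Finset (ValuationSubring L) :=
    Finset.univ.image (fun σ : L ≃ₐ[F] L => w'.comap (σ : L →+* L))
  have hI : ∀ O ∈ I, ∃ σ : L ≃ₐ[F] L, O = w.comap (σ : L →+* L) := by
    intro O hO
    obtain ⟨σ, -, hσ⟩ := Finset.mem_image.mp hO
    exact ⟨σ, hσ.symm⟩
  have hJ : ∀ O ∈ J, ∃ σ : L ≃ₐ[F] L, O = w'.comap (σ : L →+* L) := by
    intro O hO
    obtain ⟨σ, -, hσ⟩ := Finset.mem_image.mp hO
    exact ⟨σ, hσ.symm⟩
  have hmemI : ∀ σ : L ≃ₐ[F] L, w.comap (σ : L →+* L) ∈ I := fun σ =>
    Finset.mem_image_of_mem _ (Finset.mem_univ σ)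
  have hmemJ : ∀ σ : L ≃ₐ[F] L, w'.comap (σ : L →+* L) ∈ J := fun σ =>
    Finset.mem_image_of_mem _ (Finset.mem_univ σ)
  have hlies : ∀ O ∈ I ∪ J, ∀ x : F, algebraMap F L x ∈ O ↔ algebraMap F L x ∈ w := by
    intro O hO x
    rcases Finset.mem_union.mp hO with hO | hO
    · obtain ⟨σ, rfl⟩ := hI O hO
      rw [ValuationSubring.mem_comap]
      simp
    · obtain ⟨σ, rfl⟩ := hJ O hO
      rw [ValuationSubring.mem_comap, h]
      simp
  have hanti : ∀ O ∈ I ∪ J, ∀ O' ∈ I ∪ J, O ≤ O' → O = O' := by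
    intro O hO O' hO' hle
    exact eq_of_le_of_lies (F := F) hle (fun x => by rw [hlies O hO, hlies O' hO'])
  have hdisj : ∀ O ∈ I, O ∉ J := by
    intro O hO hO'
    obtain ⟨σ, h1⟩ := hI O hO
    obtain ⟨τ, h2⟩ := hJ O hO'
    obtain ⟨x, hx⟩ := hcon (τ.symm.trans σ)
    have h3 : x ∈ w' ↔ σ (τ.symm x) ∈ w := by
      have h4 : τ.symm x ∈ w.comap (σ : L →+* L) ↔ τ.symm x ∈ w'.comap (τ : L →+* L) := by
        rw [← h1, ← h2]
      rw [ValuationSubring.mem_comap, ValuationSubring.mem_comap] at h4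
      have h5 : (τ : L →+* L) (τ.symm x) = x := by simp
      rw [h5] at h4
      exact h4.symm
    rcases hx with ⟨ha, hb⟩ | ⟨ha, hb⟩
    · exact hb (h3.mp ha)
    · exact ha (h3.mpr hb)
  have hex : ∀ O : ValuationSubring L, ∃ e : L, O ∈ I → OneU O e ∧
      ∀ O' ∈ (I ∪ J).erase O, O'.valuation e < 1 := by
    intro O
    by_cases hO : O ∈ I
    · obtain ⟨e, he⟩ := exists_e (Geo.map (L := L) hG) O ((I ∪ J).erase O) (by
        intro O' hO'
        rw [Finset.mem_erase] at hO'
        refine ⟨fun hle => hO'.1 (hanti O (Finset.mem_union_left _ hO) O' hO'.2 hle).symm,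
          fun hle => hO'.1 (hanti O' hO'.2 O (Finset.mem_union_left _ hO) hle)⟩)
      exact ⟨e, fun _ => he⟩
    · exact ⟨0, fun hh => absurd hh hO⟩
  choose e he using hex
  set s : L := ∑ O ∈ I, e O with hs
  have hsI : ∀ O ∈ I, OneU O s := by
    intro O hO
    have h1 : s - 1 = (e O - 1) + ∑ O' ∈ I.erase O, e O' := by
      rw [hs, ← Finset.add_sum_erase _ _ hO]; ring
    show O.valuation (s - 1) < 1
    rw [h1]
    refine Valuation.map_add_lt _ (he O hO).1 ?_
    refine Valuation.map_sum_lt _ one_ne_zero ?_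
    intro O' hO'
    rw [Finset.mem_erase] at hO'
    exact (he O' hO'.2).2 O (Finset.mem_erase.mpr ⟨hO'.1.symm, Finset.mem_union_left _ hO⟩)
  have hsJ : ∀ O ∈ J, O.valuation s < 1 := by
    intro O hO
    refine Valuation.map_sum_lt _ one_ne_zero ?_
    intro O' hO'
    refine (he O' hO').2 O (Finset.mem_erase.mpr ⟨?_, Finset.mem_union_right _ hO⟩)
    rintro rfl
    exact hdisj _ hO' hO
  have hN := Algebra.norm_eq_prod_automorphisms F s
  have h1 : w.valuation (algebraMap F L (Algebra.norm F s)) = 1 := by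
    rw [hN, map_prod]
    refine Finset.prod_eq_one ?_
    intro σ _
    have h2 : OneU w (σ s) := by
      have h3 := hsI _ (hmemI σ)
      have h4 : (w.comap (σ : L →+* L)).valuation (s - 1) < 1 := h3
      rw [K1.val_comap] at h4
      show w.valuation (σ s - 1) < 1
      have h5 : (σ : L →+* L) (s - 1) = σ s - 1 := by simp
      rwa [h5] at h4
    exact K1.oneU_val h2
  have h2 : w'.valuation (algebraMap F L (Algebra.norm F s)) < 1 := by
    rw [hN, map_prod]
    have hall : ∀ σ : L ≃ₐ[F] L, w'.valuation (σ s) < 1 := fun σ => by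
      have h4 := hsJ _ (hmemJ σ)
      rw [K1.val_comap] at h4
      exact h4
    rw [← Finset.mul_prod_erase Finset.univ _ (Finset.mem_univ (1 : L ≃ₐ[F] L))]
    refine mul_lt_one_of_lt_of_le (hall 1) ?_
    exact Finset.prod_le_one' (fun σ _ => (hall σ).le)
  rw [K1.val_lt_one_iff] at h2
  have h3 : algebraMap F L (Algebra.norm F s) ≠ 0 := by
    intro h0
    rw [h0, map_zero] at h1
    exact zero_ne_one h1
  rcases h2 with h2 | h2
  · exact h3 h2
  · apply h2
    rw [← map_inv₀, ← h, map_inv₀, ← ValuationSubring.valuation_le_one_iff, map_inv₀, h1, inv_one]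

theorem K1.isClosed_apply {F K : Type*} [Field F] [Field K] [Algebra F K] [IsGalois F K]
    (x : K) (Q : K → Prop) : IsClosed {σ : K ≃ₐ[F] K | Q (σ x)} := by
  rw [← isOpen_compl_iff, isOpen_iff_forall_mem_open]
  intro σ hσ
  have hx : IsIntegral F x := Algebra.IsIntegral.isIntegral x
  have : FiniteDimensional F (IntermediateField.adjoin F {x}) :=
    IntermediateField.adjoin.finiteDimensional hx
  have hopen := IntermediateField.fixingSubgroup_isOpen (IntermediateField.adjoin F {x})
  refine ⟨(fun τ => σ⁻¹ * τ) ⁻¹' ((IntermediateField.adjoin F {x}).fixingSubgroup : Set _), ?_,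
    hopen.preimage (continuous_const_mul σ⁻¹), ?_⟩
  · intro τ hτ
    have h1 : (σ⁻¹ * τ) x = x :=
      (IntermediateField.mem_fixingSubgroup_iff _ _).mp hτ x
        (IntermediateField.mem_adjoin_simple_self F x)
    have h2 : τ x = σ x := by
      have := congrArg σ h1
      rw [AlgEquiv.mul_apply, ← AlgEquiv.mul_apply, mul_inv_cancel, AlgEquiv.one_apply] at this
      exact this
    show ¬ Q (τ x)
    rw [h2]; exact hσ
  · show σ⁻¹ * σ ∈ ((IntermediateField.adjoin F {x}).fixingSubgroup : Set (K ≃ₐ[F] K))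
    rw [inv_mul_cancel]; exact Subgroup.one_mem _

theorem conj {F K : Type*} [Field F] [Field K] [Algebra F K] [IsGalois F K] (hG : Geo F)
    (w w' : ValuationSubring K)
    (h : ∀ x : F, algebraMap F K x ∈ w ↔ algebraMap F K x ∈ w') :
    ∃ σ : K ≃ₐ[F] K, ∀ x : K, x ∈ w' ↔ σ x ∈ w := by
  classical
  have key := IsCompact.inter_iInter_nonempty (isCompact_univ (X := K ≃ₐ[F] K))
    (fun x : K => {σ : K ≃ₐ[F] K | x ∈ w' ↔ σ x ∈ w})
    (fun x => K1.isClosed_apply x (fun y => x ∈ w' ↔ y ∈ w))
    (by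
      intro s
      have hfin : FiniteDimensional F (IntermediateField.adjoin F (s : Set K)) :=
        IntermediateField.finiteDimensional_adjoin
          (fun x _ => Algebra.IsIntegral.isIntegral x)
      set M := IntermediateField.adjoin F (s : Set K) with hM
      set N := IntermediateField.normalClosure F M K with hN
      have hMN : M ≤ N := IntermediateField.le_normalClosure M
      have hmem : ∀ x ∈ s, x ∈ N := fun x hx =>
        hMN (IntermediateField.subset_adjoin F _ hx)
      have hNfin : FiniteDimensional F N := inferInstance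
      have hNgal : IsGalois F N := inferInstance
      obtain ⟨τ, hτ⟩ := conj_finite (F := F) (L := N) hG (w.comap (algebraMap N K))
        (w'.comap (algebraMap N K)) (by
          intro x
          rw [ValuationSubring.mem_comap, ValuationSubring.mem_comap,
            ← IsScalarTower.algebraMap_apply]
          exact h x)
      obtain ⟨σ, hσ⟩ := AlgEquiv.restrictNormalHom_surjective (F := F) (K₁ := N) K τ
      refine ⟨σ, Set.mem_univ _, ?_⟩
      rw [Set.mem_iInter₂]
      intro x hx
      have h1 := hτ ⟨x, hmem x hx⟩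
      rw [ValuationSubring.mem_comap, ValuationSubring.mem_comap] at h1
      have h2 : algebraMap N K (τ ⟨x, hmem x hx⟩) = σ x := by
        rw [← hσ]
        exact AlgEquiv.restrictNormal_commutes σ N ⟨x, hmem x hx⟩
      rw [h2] at h1
      exact h1)
  obtain ⟨σ, -, hσ⟩ := key
  rw [Set.mem_iInter] at hσ
  exact ⟨σ, fun x => hσ x⟩

end Pool.Agent.Helper2.EG
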