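import Pool.Agent.Helper2.EG.K3
import Pool.Agent.Helper2.EG.Defs2

/-!
# K10: a local norm is killed by a local norm form

`w` over `O`; `B ∈ NF` with `B x y = 0` if `x ∈ 1 + m_O` or `y ∈ 1 + m_O`.  `α^p = a`, and either `α` is
fixed by `Zd F w`, or there are `σ ∈ Zd F w`, `σ α = ζ α`, and `b = ∏ σ^i n` with `n` fixed by
`Dfix (Zd F w) α`.  Then `B a b = 0`.
PROOF.  Case 1: `fixed_class`: `a / y^p ∈ 1 + m_O`, so `B a b = B (a/y^p) b = 0`.
Case 2: `c_j = (1/p) ∑_{i<p} ζ^(-ij) σ^i(n) / α^j` is fixed by `Zd F w` (every element of `Zd F w` is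
`σ^i τ` with `τ α = α`, and `τ` fixes all `σ^i(n)` because `σ^(-i) τ σ^i` fixes `α`; `σ^p` fixes `α`,
so `σ^p n = n`), and `σ^i n = ∑_j c_j ζ^(ij) α^j`.  `immediate`: `z_j ∈ F` with `OneU w (c_j / z_j)`, or
`z_j = 0 = c_j`.  `g = ∑ z_j X^j`.  `dominant'`: `w.valuation (σ^i n)` is the maximum of the
`w.valuation (c_j α^j)`, and `g(ζ^i α) - σ^i n = ∑ (z_j - c_j) ζ^(ij) α^j` is strictly smaller.  So
`b' = ∏_i g(ζ^i α)`, which is in `F` (fixed by `Gal(K/F)`) and nonzero, satisfies `OneU w (b'/b)`.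
`B a b' = 0` (`NF`) and `B a (b'/b) = 0`.
-/

set_option autoImplicit false

namespace Pool.Agent.Helper2.EG

open Pool.Agent.Helper25.ETC

variable {F K : Type*} [Field F] [Field K] [Algebra F K] {p : ℕ} {ζ : K}

theorem local_zero (Cx : Ctx p F K ζ) (hζF : ζ ∈ (algebraMap F K).range) (hG : Geo F)
    (w : ValuationSubring K) (O : ValuationSubring F) (hwO : Lies w O)
    {B : Fˣ → Fˣ → ZMod p} (hB : B ∈ NF p F K ζ)
    (hB1 : ∀ x y : Fˣ, OneU O (x : F) → B x y = 0) (hB2 : ∀ x y : Fˣ, OneU O (y : F) → B x y = 0)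
    (a b : Fˣ) {α : K} (hα : α ^ p = algebraMap F K a)
    (hloc : (∀ σ ∈ Zd F w, σ α = α) ∨
      ∃ σ ∈ Zd F w, σ α = ζ * α ∧ IsNorm p (Zd F w) α σ (algebraMap F K b)) :
    B a b = 0 := by
  sorry

end Pool.Agent.Helper2.EG
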