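import Pool.Agent.Helper2.EG.K6

/-!
# K9: norm forms detect norms

`G = K ≃ₐ[F] K`.  If `B a b = 0` for all norm forms `B` then `b` is a norm from `F(a^{1/p})`.

PROOF.  For `a ∈ Fˣ` choose a root `r_a ∈ K`, `r_a^p = a`, and let `χ_a : G → ZMod p`,
`σ r_a = ζ^(χ_a σ) r_a` (a homomorphism, independent of the choice of the root, trivial on the
automorphisms fixing `r_a`; `χ_{a a'} = χ_a + χ_{a'}`).
Let `𝒬` be the abelian group of all functions `G × G → Kˣ` modulo the subgroup of the functions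
`∂x (σ, τ) = x σ * σ (x τ) / x (σ τ)`, `x : G → Kˣ` continuous (`x (σ τ) = x σ` for all `τ` fixing some
finite subextension `L`).  Put `carry_a(σ,τ) = ((χ_a σ).val + (χ_a τ).val - (χ_a (σ τ)).val) / p ∈ {0,1}`
and `s(a,b) =` class of `(σ, τ) ↦ b^(carry_a(σ,τ))`.
(1) `s(a, b b') = s(a,b) s(a,b')`: clear.
(2) `s(a a', b) = s(a,b) s(a',b)`: `(χ_{aa'} σ).val = (χ_a σ).val + (χ_{a'} σ).val - p ε(σ)`, so
`carry_{aa'} = carry_a + carry_{a'} - (ε(σ) + ε(τ) - ε(στ))` and the last term gives `∂(b^(-ε))`.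
(3) `s(a,b)^p = 1`: `b^(p carry_a) = ∂(b^((χ_a σ).val))`.
(4) If `(a, b)` is a norm pair (`NRel`), `s(a,b) = 1`: let `α = r_a`, `b = ∏_{j<p} g(ζ^j α)` (the product
does not depend on the choice of the root), `y = g(α)`.  If `χ_a = 0`, `carry = 0`.  Otherwise let
`x σ = ∏_{i < (χ_a σ).val} g(ζ^i α)`; then `x σ * σ (x τ) = x (σ τ) * b^(carry)` because
`σ (g(ζ^i α)) = g(ζ^(i + χ_a σ) α)`.
(5) Conversely if `s(a,b) = 1` and `χ_a ≠ 0` (`a` not a `p`-th power in `F`; otherwise `NRel` is clear: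
`α ∈ F`, hmm: `b = ∏ g(ζ^j α)` for a suitable `g` of degree `< p` by Lagrange interpolation, e.g.
`g(α) = b`, `g(ζ^j α) = 1` for `j ≠ 0`; see Helper25 `rel_split`): `b^(carry) = ∂x`.  On `U' = ker χ_a`
the function `x` is a cocycle; `hilbert90`: `x τ = τ z / z` on `U'`; replacing `x σ` by
`x σ * z / σ z` we get `x = 1` on `U'`.  For `τ ∈ U'`, `σ ∈ G`: `carry_a(σ,τ) = carry_a(τ,σ) = 0`, so
`x (σ τ) = x σ`, `x (τ σ) = τ (x σ)`; `U'` is normal, so `τ (x σ) = x (τ σ) = x (σ σ⁻¹ τ σ) = x σ`: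
`x σ ∈ K^{U'} = F(α)`.  Choose `σ₀` with `χ_a σ₀ = 1`; `y = x σ₀`; then `x (σ₀^i) = ∏_{j<i} σ₀^j y` for
`i < p` and `∏_{j<p} σ₀^j y = b x (σ₀^p) = b`.  `y = g(α)` with `g ∈ F[X]` (`F(α)`: Helper25 `exists_step`,
`exists_poly`, or the explicit formula `y = ∑_j c_j α^j`, `c_j = (1/p) ∑_i ζ^(-ij) σ₀^i(y) / α^j`), and
`σ₀^j y = g(ζ^j α)`.  So `NRel`.
(6) If `s(a,b) ≠ 1`: the elements of `𝒬` killed by `p` form a vector space over `ZMod p`, so there is a
homomorphism `h` to `ZMod p` with `h(s(a,b)) ≠ 0`; `B x y = h(s(x,y))` is in `NF` by (1)-(4), and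
`B a b ≠ 0`.
-/

set_option autoImplicit false

namespace Pool.Agent.Helper2.EG

open Pool.Agent.Helper25.ETC Polynomial Finset

namespace K9

theorem comm_aux {A : Type*} [CommGroup A] (x y a b c : A) :
    x * y / a * (b * a / c) = x * b * y / c := by
  rw [mul_comm b a, mul_div_assoc a b c, ← mul_assoc, div_mul_cancel, mul_right_comm x b y,
    ← mul_div_assoc]

theorem exists_dual_aux {k M : Type*} [Field k] [AddCommGroup M] [Module k M] {x : M}
    (hx : x ≠ 0) : ∃ f : M →+ k, f x ≠ 0 := by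
  obtain ⟨f, hf⟩ := Module.Projective.exists_dual_ne_zero k hx
  exact ⟨f.toAddMonoidHom, hf⟩

theorem exists_dual {M : Type*} [AddCommGroup M] {p : ℕ} (hp : p.Prime)
    (hM : ∀ x : M, p • x = 0) {x : M} (hx : x ≠ 0) : ∃ f : M →+ ZMod p, f x ≠ 0 := by
  have : Fact p.Prime := ⟨hp⟩
  exact @exists_dual_aux (ZMod p) M _ _ (AddCommGroup.zmodModule hM) x hx

/-- elements of order `p` modulo `B` are detected by characters -/
theorem exists_char {A : Type*} [CommGroup A] (B : Subgroup A) {p : ℕ} (hp : p.Prime) (s : A)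
    (hs : s ^ p ∈ B) (hsB : s ∉ B) : ∃ h : A → ZMod p,
      (∀ x y, x ^ p ∈ B → y ^ p ∈ B → h (x * y) = h x + h y) ∧ (∀ x ∈ B, h x = 0) ∧ h s ≠ 0 := by
  classical
  let T : Subgroup (A ⧸ B) := (powMonoidHom p : A ⧸ B →* A ⧸ B).ker
  have hT : ∀ x : Additive T, p • x = 0 := by
    intro x
    apply Additive.toMul.injective
    apply Subtype.ext
    have h1 : ((Additive.toMul x : T) : A ⧸ B) ^ p = 1 := (Additive.toMul x).2
    simpa using h1
  have mem : ∀ x : A, x ^ p ∈ B → (QuotientGroup.mk x : A ⧸ B) ∈ T := by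
    intro x hx
    change (QuotientGroup.mk x : A ⧸ B) ^ p = 1
    rw [← QuotientGroup.mk_pow]
    exact (QuotientGroup.eq_one_iff _).2 hx
  have hne : (Additive.ofMul (⟨QuotientGroup.mk s, mem s hs⟩ : T)) ≠ 0 := by
    intro h0
    apply hsB
    have h1 : (⟨QuotientGroup.mk s, mem s hs⟩ : T) = 1 := h0
    exact (QuotientGroup.eq_one_iff _).1 (congrArg Subtype.val h1)
  obtain ⟨f, hf⟩ := exists_dual hp hT hne
  refine ⟨fun x => if hx : x ^ p ∈ B then f (Additive.ofMul ⟨QuotientGroup.mk x, mem x hx⟩) else 0,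
    ?_, ?_, ?_⟩
  · intro x y hx hy
    have hxy : (x * y) ^ p ∈ B := by
      rw [mul_pow]
      exact B.mul_mem hx hy
    simp only [dif_pos hx, dif_pos hy, dif_pos hxy]
    rw [← map_add]
    rfl
  · intro x hx
    have hxp : x ^ p ∈ B := B.pow_mem hx p
    simp only [dif_pos hxp]
    have h1 : (⟨QuotientGroup.mk x, mem x hxp⟩ : T) = 1 :=
      Subtype.ext ((QuotientGroup.eq_one_iff _).2 hx)
    rw [h1]
    exact map_zero f
  · simp only [dif_pos hs]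
    exact hf

variable {F K : Type*} [Field F] [Field K] [Algebra F K] {p : ℕ} {ζ : K}

/-- a root -/
noncomputable def rt (Cx : Ctx p F K ζ) (a : Fˣ) : K := (Cx.pc.root (algebraMap F K a)).choose

theorem rt_pow (Cx : Ctx p F K ζ) (a : Fˣ) : rt Cx a ^ p = algebraMap F K a :=
  (Cx.pc.root (algebraMap F K a)).choose_spec

theorem rt_ne (Cx : Ctx p F K ζ) (a : Fˣ) : rt Cx a ≠ 0 := by
  intro h
  have h1 := rt_pow Cx a
  rw [h, zero_pow Cx.hp.ne_zero] at h1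
  exact a.ne_zero ((map_eq_zero (algebraMap F K)).1 h1.symm)

theorem exists_nn (Cx : Ctx p F K ζ) (a : Fˣ) (σ : K ≃ₐ[F] K) :
    ∃ m < p, σ (rt Cx a) = ζ ^ m * rt Cx a := by
  apply exists_zeta_pow Cx.hp.pos Cx.hζ
  rw [← map_pow, rt_pow, AlgEquiv.commutes]

/-- the character of the root -/
noncomputable def nn (Cx : Ctx p F K ζ) (a : Fˣ) (σ : K ≃ₐ[F] K) : ℕ := (exists_nn Cx a σ).choose

theorem nn_lt (Cx : Ctx p F K ζ) (a : Fˣ) (σ : K ≃ₐ[F] K) : nn Cx a σ < p :=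
  (exists_nn Cx a σ).choose_spec.1

theorem nn_spec (Cx : Ctx p F K ζ) (a : Fˣ) (σ : K ≃ₐ[F] K) :
    σ (rt Cx a) = ζ ^ nn Cx a σ * rt Cx a := (exists_nn Cx a σ).choose_spec.2

theorem zpow_mod (Cx : Ctx p F K ζ) (m : ℕ) : ζ ^ (m % p) = ζ ^ m := by
  conv_rhs => rw [← Nat.mod_add_div m p, pow_add, pow_mul, Cx.hζ.pow_eq_one, one_pow, mul_one]

theorem nn_unique (Cx : Ctx p F K ζ) (a : Fˣ) (σ : K ≃ₐ[F] K) {m : ℕ}
    (h : σ (rt Cx a) = ζ ^ m * rt Cx a) : nn Cx a σ = m % p := by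
  have h1 := (nn_spec Cx a σ).symm.trans h
  have h2 := mul_right_cancel₀ (rt_ne Cx a) h1
  rw [← zpow_mod Cx m] at h2
  exact Cx.hζ.pow_inj (nn_lt Cx a σ) (Nat.mod_lt _ Cx.hp.pos) h2

theorem fix_zeta (hζF : ζ ∈ (algebraMap F K).range) (σ : K ≃ₐ[F] K) : σ ζ = ζ := by
  obtain ⟨z, rfl⟩ := hζF
  exact σ.commutes z

theorem nn_mul (Cx : Ctx p F K ζ) (hζF : ζ ∈ (algebraMap F K).range) (a : Fˣ)
    (σ τ : K ≃ₐ[F] K) : nn Cx a (σ * τ) = (nn Cx a σ + nn Cx a τ) % p := by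
  apply nn_unique
  rw [AlgEquiv.mul_apply, nn_spec Cx a τ, map_mul, map_pow, fix_zeta hζF, nn_spec Cx a σ]
  ring

theorem nn_mul_left (Cx : Ctx p F K ζ) (hζF : ζ ∈ (algebraMap F K).range) (a a' : Fˣ)
    (σ : K ≃ₐ[F] K) : nn Cx (a * a') σ = (nn Cx a σ + nn Cx a' σ) % p := by
  apply nn_unique
  obtain ⟨k, -, hk⟩ := exists_zeta_pow Cx.hp.pos Cx.hζ
    (x := rt Cx (a * a')) (y := rt Cx a * rt Cx a') (by
      rw [mul_pow, rt_pow, rt_pow, rt_pow, Units.val_mul, map_mul])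
  rw [hk, map_mul, map_pow, fix_zeta hζF, map_mul, nn_spec Cx a σ, nn_spec Cx a' σ]
  ring

/-- the carry cocycle -/
noncomputable def cr (Cx : Ctx p F K ζ) (a : Fˣ) (σ τ : K ≃ₐ[F] K) : ℕ :=
  (nn Cx a σ + nn Cx a τ) / p

theorem cr_spec (Cx : Ctx p F K ζ) (hζF : ζ ∈ (algebraMap F K).range) (a : Fˣ)
    (σ τ : K ≃ₐ[F] K) : nn Cx a (σ * τ) + p * cr Cx a σ τ = nn Cx a σ + nn Cx a τ := by
  rw [nn_mul Cx hζF, cr, Nat.mod_add_div]

/-- the action on units -/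
noncomputable def au (σ : K ≃ₐ[F] K) : Kˣ →* Kˣ := Units.map (σ : K →* K)

theorem au_val (σ : K ≃ₐ[F] K) (u : Kˣ) : ((au σ u : Kˣ) : K) = σ u := rfl

theorem au_mul (σ τ : K ≃ₐ[F] K) (u : Kˣ) : au (σ * τ) u = au σ (au τ u) := Units.ext rfl

/-- constants -/
noncomputable def bb (K : Type*) [Field K] [Algebra F K] (b : Fˣ) : Kˣ :=
  Units.map (algebraMap F K : F →* K) b

theorem bb_val (b : Fˣ) : ((bb K b : Kˣ) : K) = algebraMap F K b := rfl

theorem au_bb (σ : K ≃ₐ[F] K) (b : Fˣ) : au σ (bb K b) = bb K b :=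
  Units.ext (σ.commutes (b : F))

/-- locally constant functions -/
def Lc (x : (K ≃ₐ[F] K) → Kˣ) : Prop :=
  ∃ L : IntermediateField F K, FiniteDimensional F L ∧
    ∀ σ τ : K ≃ₐ[F] K, (∀ y ∈ L, τ y = y) → x (σ * τ) = x σ

/-- the coboundary -/
noncomputable def dd (x : (K ≃ₐ[F] K) → Kˣ) : (K ≃ₐ[F] K) → (K ≃ₐ[F] K) → Kˣ :=
  fun σ τ => x σ * au σ (x τ) / x (σ * τ)

theorem dd_mul (x y : (K ≃ₐ[F] K) → Kˣ) : dd (x * y) = dd x * dd y := by
  funext σ τ
  simp only [dd, Pi.mul_apply, map_mul]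
  rw [mul_mul_mul_comm, mul_div_mul_comm]

theorem dd_inv (x : (K ≃ₐ[F] K) → Kˣ) : dd x⁻¹ = (dd x)⁻¹ := by
  funext σ τ
  simp only [dd, Pi.inv_apply, map_inv]
  rw [← mul_inv, inv_div_inv, inv_div]

theorem dd_one : dd (1 : (K ≃ₐ[F] K) → Kˣ) = 1 := by
  funext σ τ
  simp [dd]

/-- the coboundaries of locally constant functions -/
noncomputable def Bd (F K : Type*) [Field F] [Field K] [Algebra F K] :
    Subgroup ((K ≃ₐ[F] K) → (K ≃ₐ[F] K) → Kˣ) where
  carrier := {f | ∃ x, Lc x ∧ f = dd x}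
  one_mem' := ⟨1, ⟨⊥, inferInstance, fun _ _ _ => rfl⟩, dd_one.symm⟩
  mul_mem' := by
    rintro _ _ ⟨x, ⟨L, hL, hx⟩, rfl⟩ ⟨y, ⟨M, hM, hy⟩, rfl⟩
    refine ⟨x * y, ⟨L ⊔ M, inferInstance, ?_⟩, (dd_mul x y).symm⟩
    intro σ τ h
    rw [Pi.mul_apply, Pi.mul_apply, hx σ τ (fun z hz => h z ((le_sup_left : L ≤ L ⊔ M) hz)),
      hy σ τ (fun z hz => h z ((le_sup_right : M ≤ L ⊔ M) hz))]
  inv_mem' := by
    rintro _ ⟨x, ⟨L, hL, hx⟩, rfl⟩
    refine ⟨x⁻¹, ⟨L, hL, ?_⟩, (dd_inv x).symm⟩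
    intro σ τ h
    rw [Pi.inv_apply, Pi.inv_apply, hx σ τ h]

theorem mem_Bd {f : (K ≃ₐ[F] K) → (K ≃ₐ[F] K) → Kˣ} :
    f ∈ Bd F K ↔ ∃ x, Lc x ∧ f = dd x := Iff.rfl

/-- the symbol -/
noncomputable def sy (Cx : Ctx p F K ζ) (a b : Fˣ) : (K ≃ₐ[F] K) → (K ≃ₐ[F] K) → Kˣ :=
  fun σ τ => bb K b ^ cr Cx a σ τ

theorem sy_mul_right (Cx : Ctx p F K ζ) (a b b' : Fˣ) :
    sy Cx a (b * b') = sy Cx a b * sy Cx a b' := by
  funext σ τ
  simp only [sy, Pi.mul_apply, bb, map_mul, mul_pow]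

/-- an automorphism which fixes the roots does not change the numbers -/
theorem nn_fix (Cx : Ctx p F K ζ) (hζF : ζ ∈ (algebraMap F K).range) (a : Fˣ)
    (σ τ : K ≃ₐ[F] K) (h : τ (rt Cx a) = rt Cx a) : nn Cx a (σ * τ) = nn Cx a σ := by
  have h1 : nn Cx a τ = 0 % p := nn_unique Cx a τ (by rw [pow_zero, one_mul]; exact h)
  rw [nn_mul Cx hζF, h1, Nat.zero_mod, add_zero, Nat.mod_eq_of_lt (nn_lt Cx a σ)]

theorem lc_of (Cx : Ctx p F K ζ) (hζF : ζ ∈ (algebraMap F K).range) (a a' : Fˣ) (g : ℕ → ℕ → Kˣ) :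
    Lc (fun σ : K ≃ₐ[F] K => g (nn Cx a σ) (nn Cx a' σ)) := by
  have hgal := Cx.pc.gal
  have halg : Algebra.IsAlgebraic F K := hgal.to_normal.toIsAlgebraic
  refine ⟨IntermediateField.adjoin F {rt Cx a, rt Cx a'},
    IntermediateField.finiteDimensional_adjoin (S := {rt Cx a, rt Cx a'})
      (fun x _ => (halg.isAlgebraic x).isIntegral), ?_⟩
  intro σ τ h
  have h1 : τ (rt Cx a) = rt Cx a := h _ (IntermediateField.subset_adjoin F _ (by simp))
  have h2 : τ (rt Cx a') = rt Cx a' := h _ (IntermediateField.subset_adjoin F _ (by simp))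
  simp only [nn_fix Cx hζF a σ τ h1, nn_fix Cx hζF a' σ τ h2]

theorem sy_mul_left (Cx : Ctx p F K ζ) (hζF : ζ ∈ (algebraMap F K).range) (a a' b : Fˣ) :
    sy Cx (a * a') b * dd (fun σ => bb K b ^ ((nn Cx a σ + nn Cx a' σ) / p)) =
      sy Cx a b * sy Cx a' b := by
  funext σ τ
  simp only [Pi.mul_apply, sy, dd, map_pow, au_bb]
  rw [← mul_div_assoc, div_eq_iff_eq_mul, ← pow_add, ← pow_add, ← pow_add, ← pow_add]
  congr 1
  apply Nat.eq_of_mul_eq_mul_left Cx.hp.pos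
  have h1 := cr_spec Cx hζF (a * a') σ τ
  have h2 := cr_spec Cx hζF a σ τ
  have h3 := cr_spec Cx hζF a' σ τ
  rw [nn_mul_left Cx hζF, nn_mul_left Cx hζF, nn_mul_left Cx hζF] at h1
  have h4 := Nat.mod_add_div (nn Cx a σ + nn Cx a' σ) p
  have h5 := Nat.mod_add_div (nn Cx a τ + nn Cx a' τ) p
  have h6 := Nat.mod_add_div (nn Cx a (σ * τ) + nn Cx a' (σ * τ)) p
  simp only [mul_add]
  omega

theorem sy_pow (Cx : Ctx p F K ζ) (hζF : ζ ∈ (algebraMap F K).range) (a b : Fˣ) :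
    sy Cx a b ^ p = dd (fun σ => bb K b ^ nn Cx a σ) := by
  funext σ τ
  simp only [Pi.pow_apply, sy, dd, map_pow, au_bb]
  rw [eq_div_iff_mul_eq', ← pow_mul, ← pow_add, ← pow_add]
  congr 1
  have h2 := cr_spec Cx hζF a σ τ
  rw [mul_comm (cr Cx a σ τ), add_comm]
  exact h2

/-- symbols of norms are trivial -/
theorem sy_norm (Cx : Ctx p F K ζ) (hζF : ζ ∈ (algebraMap F K).range) (a b : Fˣ)
    (h : NRel p F K ζ (a : F) (b : F)) : sy Cx a b ∈ Bd F K := by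
  obtain ⟨α, g, hα, hg⟩ := h
  have key : ∀ n : ℕ, ∏ j ∈ range p, aeval (ζ ^ (n + j) * rt Cx a) g = algebraMap F K b := by
    intro n
    obtain ⟨m, -, hm⟩ := exists_zeta_pow Cx.hp.pos Cx.hζ (hα.trans (rt_pow Cx a).symm)
    rw [hm] at hg
    have h1 := prod_shift Cx.hp Cx.hζ (fun x => aeval x g) (rt Cx a) m
    have h2 := prod_shift Cx.hp Cx.hζ (fun x => aeval x g) (rt Cx a) n
    calc ∏ j ∈ range p, aeval (ζ ^ (n + j) * rt Cx a) g
        = ∏ j ∈ range p, aeval (ζ ^ j * (ζ ^ n * rt Cx a)) g :=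
          prod_congr rfl (fun j _ => by rw [pow_add, mul_comm (ζ ^ n), mul_assoc])
      _ = ∏ j ∈ range p, aeval (ζ ^ j * rt Cx a) g := h2
      _ = ∏ j ∈ range p, aeval (ζ ^ j * (ζ ^ m * rt Cx a)) g := h1.symm
      _ = algebraMap F K b := hg
  have hG0 : ∀ i, aeval (ζ ^ i * rt Cx a) g ≠ 0 := by
    intro i h0
    have h1 := key i
    rw [prod_eq_zero (mem_range.2 Cx.hp.pos) (by rw [add_zero]; exact h0)] at h1
    exact b.ne_zero ((map_eq_zero (algebraMap F K)).1 h1.symm)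
  let U : ℕ → Kˣ := fun i => Units.mk0 _ (hG0 i)
  have hU : ∀ i, ((U i : Kˣ) : K) = aeval (ζ ^ i * rt Cx a) g := fun i => rfl
  let P : ℕ → Kˣ := fun n => ∏ i ∈ range n, U i
  have hP1 : ∀ n m, P (n + m) = P n * ∏ i ∈ range m, U (n + i) := fun n m =>
    prod_range_add U n m
  have hper : ∀ n, ∏ i ∈ range p, U (n + i) = bb K b := by
    intro n
    apply Units.ext
    rw [Units.coe_prod]
    simp only [hU]
    exact key n
  have hP2 : ∀ n k, P (n + p * k) = P n * bb K b ^ k := by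
    intro n k
    induction k with
    | zero => rw [mul_zero, add_zero, pow_zero, mul_one]
    | succ k ih =>
      rw [mul_add, mul_one, ← add_assoc, hP1 (n + p * k) p, hper, ih, pow_succ, mul_assoc]
  have hau : ∀ (σ : K ≃ₐ[F] K) (i : ℕ), au σ (U i) = U (nn Cx a σ + i) := by
    intro σ i
    apply Units.ext
    rw [au_val, hU, hU]
    have h1 : σ (aeval (ζ ^ i * rt Cx a) g) = aeval (σ (ζ ^ i * rt Cx a)) g := by
      rw [← AlgEquiv.coe_toAlgHom, ← Polynomial.aeval_algHom_apply]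
    have h2 : ζ ^ i * (ζ ^ nn Cx a σ * rt Cx a) = ζ ^ (nn Cx a σ + i) * rt Cx a := by
      rw [pow_add]
      ring
    rw [h1, map_mul, map_pow, fix_zeta hζF, nn_spec Cx a σ, h2]
  refine ⟨fun σ => P (nn Cx a σ), lc_of Cx hζF a a (fun n _ => P n), ?_⟩
  funext σ τ
  simp only [dd, sy]
  rw [eq_div_iff_mul_eq']
  have h2 : au σ (P (nn Cx a τ)) = ∏ i ∈ range (nn Cx a τ), U (nn Cx a σ + i) := by
    simp only [P, map_prod, hau]
  rw [h2, ← hP1, ← cr_spec Cx hζF, hP2, mul_comm]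

/-- polynomials over the base field -/
theorem nrel_of_rel (a b : F) (h : rel p (⊥ : IntermediateField F K) ζ (algebraMap F K a)
    (algebraMap F K b)) : NRel p F K ζ a b := by
  obtain ⟨α, hα, g, hg, h1⟩ := h
  have h2 : g ∈ Polynomial.lifts (algebraMap F K) := by
    rw [Polynomial.lifts_iff_coeff_lifts]
    intro n
    obtain ⟨c, hc⟩ := IntermediateField.mem_bot.1 (hg n)
    exact ⟨c, hc⟩
  obtain ⟨g', rfl⟩ := (Polynomial.mem_lifts _).1 h2
  refine ⟨α, g', hα, ?_⟩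
  rw [← h1]
  apply prod_congr rfl
  intro j _
  rw [Polynomial.eval_map_algebraMap]

theorem nn_pow (Cx : Ctx p F K ζ) (hζF : ζ ∈ (algebraMap F K).range) (a : Fˣ)
    (σ : K ≃ₐ[F] K) (k : ℕ) : nn Cx a (σ ^ k) = (k * nn Cx a σ) % p := by
  induction k with
  | zero =>
    rw [pow_zero, Nat.zero_mul]
    exact nn_unique Cx a 1 (by simp)
  | succ k ih =>
    rw [pow_succ, nn_mul Cx hζF, ih, Nat.mod_add_mod, Nat.succ_mul]

/-- trivial symbols are symbols of norms -/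
theorem norm_of_sy (Cx : Ctx p F K ζ) (hζF : ζ ∈ (algebraMap F K).range) (a b : Fˣ)
    (h : sy Cx a b ∈ Bd F K) : NRel p F K ζ (a : F) (b : F) := by
  have hgal := Cx.pc.gal
  obtain ⟨x, ⟨L, hL, hxL⟩, hx⟩ := h
  have hx1 : ∀ σ τ, x σ * au σ (x τ) = bb K b ^ cr Cx a σ τ * x (σ * τ) := by
    intro σ τ
    have h1 := congrFun (congrFun hx σ) τ
    simp only [sy, dd] at h1
    rw [h1, div_mul_cancel]
  by_cases hall : ∀ σ, nn Cx a σ = 0
  · -- the root lies in the base field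
    have hr : rt Cx a ∈ (⊥ : IntermediateField F K) := by
      rw [← InfiniteGalois.fixedField_fixingSubgroup (⊥ : IntermediateField F K),
        IntermediateField.mem_fixedField_iff]
      intro σ _
      have h1 := nn_spec Cx a σ
      rw [hall σ, pow_zero, one_mul] at h1
      exact h1
    have hb : algebraMap F K b ∈ (⊥ : IntermediateField F K) :=
      (⊥ : IntermediateField F K).algebraMap_mem _
    refine nrel_of_rel (a : F) (b : F) (rel_split Cx ⟨?_, rt Cx a, hr, rt_pow Cx a⟩ hb)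
    exact (map_ne_zero (algebraMap F K)).2 a.ne_zero
  · push Not at hall
    obtain ⟨σ', hσ'⟩ := hall
    -- an automorphism with number one
    obtain ⟨σ₀, hσ₀⟩ : ∃ σ₀, nn Cx a σ₀ = 1 := by
      have hcop : Nat.Coprime (nn Cx a σ') p := by
        rw [Nat.coprime_comm, Nat.Prime.coprime_iff_not_dvd Cx.hp]
        intro hd
        exact hσ' (Nat.eq_zero_of_dvd_of_lt hd (nn_lt Cx a σ'))
      obtain ⟨k, -, hk⟩ := Nat.exists_mul_mod_eq_one_of_coprime hcop Cx.hp.one_lt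
      refine ⟨σ' ^ k, ?_⟩
      rw [nn_pow Cx hζF, mul_comm]
      exact hk
    have hpow : ∀ i, nn Cx a (σ₀ ^ i) = i % p := by
      intro i
      rw [nn_pow Cx hζF, hσ₀, mul_one]
    -- Hilbert 90 on the stabiliser of the root
    let D : Subgroup (K ≃ₐ[F] K) := MulAction.stabilizer (K ≃ₐ[F] K) (rt Cx a)
    have hD : ∀ τ ∈ D, nn Cx a τ = 0 := by
      intro τ hτ
      have h1 : nn Cx a τ = 0 % p := nn_unique Cx a τ (by rw [pow_zero, one_mul]; exact hτ)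
      rwa [Nat.zero_mod] at h1
    have hD' : ∀ τ, nn Cx a τ = 0 → τ ∈ D := by
      intro τ hτ
      have h1 := nn_spec Cx a τ
      rw [hτ, pow_zero, one_mul] at h1
      exact h1
    have hcr0 : ∀ σ τ, nn Cx a τ = 0 → cr Cx a σ τ = 0 := by
      intro σ τ hτ
      rw [cr, hτ, add_zero]
      exact Nat.div_eq_of_lt (nn_lt Cx a σ)
    have hcr0' : ∀ σ τ, nn Cx a σ = 0 → cr Cx a σ τ = 0 := by
      intro σ τ hσ
      rw [cr, hσ, zero_add]
      exact Nat.div_eq_of_lt (nn_lt Cx a τ)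
    obtain ⟨y, hy0, hy⟩ := hilbert90 D (fun σ => (x σ : K)) (fun σ _ => (x σ).ne_zero)
      (by
        intro σ hσ τ hτ
        have h1 := hx1 σ τ
        rw [hcr0 σ τ (hD τ hτ), pow_zero, one_mul] at h1
        exact (congrArg Units.val h1).symm)
      ⟨L, hL, by
        intro τ _ hτ
        have h1 := hxL 1 τ hτ
        rw [one_mul] at h1
        have h2 := hx1 1 1
        rw [hcr0 1 1 (hD 1 D.one_mem), pow_zero, one_mul, mul_one] at h2
        have h3 : au (1 : K ≃ₐ[F] K) (x 1) = x 1 := Units.ext rfl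
        rw [h3] at h2
        have h4 : x 1 = 1 := mul_eq_left.1 h2
        change ((x τ : Kˣ) : K) = 1
        rw [h1, h4, Units.val_one]⟩
    let Y : Kˣ := Units.mk0 y hy0
    let x' : (K ≃ₐ[F] K) → Kˣ := fun σ => x σ * Y / au σ Y
    have hx' : ∀ σ τ, x' σ * au σ (x' τ) = bb K b ^ cr Cx a σ τ * x' (σ * τ) := by
      intro σ τ
      simp only [x', _root_.map_div, map_mul, ← au_mul]
      refine (comm_aux (x σ) Y (au σ Y) (au σ (x τ)) (au (σ * τ) Y)).trans ?_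
      rw [hx1 σ τ, mul_assoc (bb K b ^ cr Cx a σ τ), mul_div_assoc]
    have hx'D : ∀ τ ∈ D, x' τ = 1 := by
      intro τ hτ
      apply Units.ext
      have h1 := hy τ hτ
      have h2 : τ y ≠ 0 := (map_ne_zero τ).2 hy0
      have h3 : (x τ : K) = τ y / y := h1
      have h4 : ((x' τ : Kˣ) : K) = (x τ : K) * y / τ y := by
        simp only [x', Units.val_div_eq_div_val, Units.val_mul, au_val]
        rfl
      rw [h4, h3, Units.val_one]
      field_simp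
    have hfix : ∀ τ ∈ D, ∀ σ, au τ (x' σ) = x' σ := by
      intro τ hτ σ
      have h1 := hx' τ σ
      rw [hx'D τ hτ, one_mul, hcr0' τ σ (hD τ hτ), pow_zero, one_mul] at h1
      have hconj : σ⁻¹ * τ * σ ∈ D := by
        apply hD'
        have h2 : nn Cx a (σ * (σ⁻¹ * τ * σ)) = nn Cx a (τ * σ) := by
          congr 1
          group
        rw [nn_mul Cx hζF a σ (σ⁻¹ * τ * σ), nn_mul Cx hζF a τ σ, hD τ hτ, zero_add,
          Nat.mod_eq_of_lt (nn_lt Cx a σ)] at h2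
        have h3 := nn_lt Cx a σ
        have h4 := nn_lt Cx a (σ⁻¹ * τ * σ)
        have h5 := Nat.mod_add_div (nn Cx a σ + nn Cx a (σ⁻¹ * τ * σ)) p
        rw [h2] at h5
        have h6 : nn Cx a (σ⁻¹ * τ * σ) =
            p * ((nn Cx a σ + nn Cx a (σ⁻¹ * τ * σ)) / p) := by omega
        rcases Nat.eq_zero_or_pos ((nn Cx a σ + nn Cx a (σ⁻¹ * τ * σ)) / p) with h7 | h7
        · rw [h6, h7, mul_zero]
        · have h8 : p * 1 ≤ p * ((nn Cx a σ + nn Cx a (σ⁻¹ * τ * σ)) / p) :=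
            Nat.mul_le_mul_left p h7
          omega
      have h2 := hx' σ (σ⁻¹ * τ * σ)
      rw [hx'D _ hconj, map_one, mul_one, hcr0 σ _ (hD _ hconj), pow_zero, one_mul] at h2
      have h3 : σ * (σ⁻¹ * τ * σ) = τ * σ := by group
      rw [h3] at h2
      rw [h1, ← h2]
    -- the element whose norm is `b`
    set z : K := ((x' σ₀ : Kˣ) : K) with hz
    have hzfix : ∀ τ ∈ D, τ z = z := fun τ hτ => congrArg Units.val (hfix τ hτ σ₀)
    have hzmem : z ∈ IntermediateField.adjoin F {rt Cx a} := by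
      rw [← InfiniteGalois.fixedField_fixingSubgroup (IntermediateField.adjoin F {rt Cx a}),
        IntermediateField.mem_fixedField_iff]
      intro τ hτ
      apply hzfix
      exact (IntermediateField.mem_fixingSubgroup_iff _ τ).1 hτ _
        (IntermediateField.mem_adjoin_simple_self F _)
    have halg : Algebra.IsAlgebraic F K := hgal.to_normal.toIsAlgebraic
    obtain ⟨g, hg⟩ : ∃ g : F[X], aeval (rt Cx a) g = z := by
      have h1 : z ∈ (IntermediateField.adjoin F {rt Cx a}).toSubalgebra := hzmem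
      rw [IntermediateField.adjoin_simple_toSubalgebra_of_isAlgebraic (halg.isAlgebraic _),
        Algebra.adjoin_singleton_eq_range_aeval] at h1
      exact h1
    have hprod : ∀ i, i < p → x' (σ₀ ^ i) = ∏ j ∈ range i, au (σ₀ ^ j) (x' σ₀) := by
      intro i
      induction i with
      | zero =>
        intro _
        rw [pow_zero, prod_range_zero]
        exact hx'D 1 D.one_mem
      | succ i ih =>
        intro hi
        have h1 := hx' (σ₀ ^ i) σ₀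
        have h2 : cr Cx a (σ₀ ^ i) σ₀ = 0 := by
          rw [cr, hpow, hσ₀, Nat.mod_eq_of_lt (by omega)]
          exact Nat.div_eq_of_lt hi
        rw [h2, pow_zero, one_mul, ← pow_succ, ih (by omega)] at h1
        rw [prod_range_succ, h1]
    have hlast : ∏ j ∈ range p, au (σ₀ ^ j) (x' σ₀) = bb K b := by
      obtain ⟨q, hq⟩ : ∃ q, p = q + 1 := ⟨p - 1, (Nat.sub_add_cancel Cx.hp.one_le).symm⟩
      have h1 := hx' (σ₀ ^ q) σ₀
      have h2 : cr Cx a (σ₀ ^ q) σ₀ = 1 := by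
        rw [cr, hpow, hσ₀, Nat.mod_eq_of_lt (by omega), ← hq, Nat.div_self Cx.hp.pos]
      have h3 : σ₀ ^ q * σ₀ ∈ D := by
        apply hD'
        rw [← pow_succ, ← hq, hpow, Nat.mod_self]
      rw [h2, pow_one, hx'D _ h3, mul_one, hprod q (by omega)] at h1
      rw [hq, prod_range_succ, h1]
    refine ⟨rt Cx a, g, rt_pow Cx a, ?_⟩
    have h4 := congrArg Units.val hlast
    rw [Units.coe_prod, bb_val] at h4
    rw [← h4]
    apply prod_congr rfl
    intro j _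
    rw [au_val, ← hz, ← hg]
    have h5 : (σ₀ ^ j) (aeval (rt Cx a) g) = aeval ((σ₀ ^ j) (rt Cx a)) g := by
      rw [← AlgEquiv.coe_toAlgHom, ← Polynomial.aeval_algHom_apply]
    rw [h5, nn_spec Cx a (σ₀ ^ j), hpow, zpow_mod Cx]

end K9

variable {F K : Type*} [Field F] [Field K] [Algebra F K] {p : ℕ} {ζ : K}

theorem sep (Cx : Ctx p F K ζ) (hζF : ζ ∈ (algebraMap F K).range) (a b : Fˣ)
    (h : ∀ B ∈ NF p F K ζ, B a b = 0) : NRel p F K ζ (a : F) (b : F) := by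
  by_contra hcon
  have h1 : K9.sy Cx a b ∉ K9.Bd F K := fun h2 => hcon (K9.norm_of_sy Cx hζF a b h2)
  have hpw : ∀ a b : Fˣ, K9.sy Cx a b ^ p ∈ K9.Bd F K := by
    intro a b
    rw [K9.sy_pow Cx hζF]
    exact ⟨_, K9.lc_of Cx hζF a a (fun n _ => K9.bb K b ^ n), rfl⟩
  obtain ⟨c, hc1, hc2, hc3⟩ := K9.exists_char (K9.Bd F K) Cx.hp (K9.sy Cx a b) (hpw a b) h1
  refine hc3 (h (fun x y => c (K9.sy Cx x y)) ⟨?_, ?_, ?_⟩)
  · intro x y z
    have h2 := K9.sy_mul_left Cx hζF x y z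
    have h3 : K9.dd (fun σ => K9.bb K z ^ ((K9.nn Cx x σ + K9.nn Cx y σ) / p)) ∈ K9.Bd F K :=
      ⟨_, K9.lc_of Cx hζF x y (fun n m => K9.bb K z ^ ((n + m) / p)), rfl⟩
    have h4 := congrArg c h2
    rw [hc1 _ _ (hpw _ _) ((K9.Bd F K).pow_mem h3 p), hc2 _ h3, add_zero,
      hc1 _ _ (hpw _ _) (hpw _ _)] at h4
    exact h4
  · intro x y z
    change c (K9.sy Cx x (y * z)) = _
    rw [K9.sy_mul_right, hc1 _ _ (hpw _ _) (hpw _ _)]
  · intro x y hxy
    exact hc2 _ (K9.sy_norm Cx hζF x y hxy)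

end Pool.Agent.Helper2.EG
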