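import Pool.Agent.Helper2.EG.Dec
import Pool.Agent.Helper2.EG.K0
import Pool.Agent.Helper2.EG.K9
import Pool.Agent.Helper2.EG.K10

/-!
# K11: Hasse principle for symbols over a subextension `E`

PROOF.  Work over the base field `E` (`ctx_up`, `Geo.map`).  `a = α^p ∈ E`.  By `sep` (base field `E`) and
`nrel_isNorm` it suffices that `B a b = 0` for every `B ∈ NF p E K ζ`.  `dec`: `B = ∑ B_i` with `B_i`
killing `1 + m_{O_i}`, `O_i ∈ VV p E`; `hloc` gives `w` over `O_i`; `local_zero` for the base field `E`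
(translate with `lift_aut`, `res_aut`, `isNorm_up`) gives `B_i a b = 0`.
-/

set_option autoImplicit false

namespace Pool.Agent.Helper2.EG

open Pool.Agent.Helper25.ETC

variable {F K : Type} [Field F] [Field K] [Algebra F K] {p : ℕ} {ζ : K}

theorem symbol_hasse (Cx : Ctx p F K ζ) (hζF : ζ ∈ (algebraMap F K).range) (hG : Geo F)
    (E : IntermediateField F K) (hE : FinP p E) {α b : K} (hα0 : α ≠ 0) (hα : α ^ p ∈ E)
    (hb : b ∈ E) (hb0 : b ≠ 0) {σ₀ : K ≃ₐ[F] K} (hσ₀ : σ₀ ∈ E.fixingSubgroup)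
    (h : σ₀ α = ζ * α)
    (hloc : ∀ O ∈ VV p E, ∃ w : ValuationSubring K, (∀ x : E, (x : K) ∈ w ↔ x ∈ O) ∧
      ((∀ σ ∈ Zd F w ⊓ E.fixingSubgroup, σ α = α) ∨
        ∃ σ ∈ Zd F w ⊓ E.fixingSubgroup, σ α = ζ * α ∧
          IsNorm p (Zd F w ⊓ E.fixingSubgroup) α σ b)) :
    IsNorm p E.fixingSubgroup α σ₀ b := by
  sorry

end Pool.Agent.Helper2.EG
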