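import Pool.Agent.Helper2.EG.K1
import Pool.Agent.Helper2.EG.A4

/-!
# K17: coarsening of valuations of finite extensions to elements of `VV p F`

PROOF `pdiv_up`: `L / F` algebraic, `w` a valuation ring of `L`, `w ∩ F = O` `p`-divisible; then `w` is
`p`-divisible.  Let `0 ≠ x ∈ L`.  Two terms of an algebraic equation for `x` have the same valuation,
so there are `m ≥ 1` and `a ∈ F*` with `w.valuation (x^m) = w.valuation a`.  `m = p^j m'`, `p ∤ m'`.
Iterating `PDiv`, there is `z ∈ F` with `O.valuation (a z^(p^(j+1))) = 1`; so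
`w.valuation (x^(m') z^p)^(p^j) = 1`, hence `w.valuation (x^(m') z^p) = 1`.  With `u m' + v p = 1`
(integers; or `u m' = 1 + v p` with naturals) a suitable `y` is made from powers of `x` and `z`:
`w.valuation (x y^p) = 1`.
PROOF `exists_coarse_lies`: `w` a valuation ring of `K` (algebraic over `F`), `w ∩ E = O_E` with `O_E` not
`p`-divisible, `E` intermediate.  `O = w ∩ F` is not `p`-divisible (`pdiv_up` for `E/F`).  `exists_coarse`:
`O' ∈ VV p F`, `O ≤ O'`.  `w' = {x ∈ K | ∃ b ∈ O', w.valuation x ≤ w.valuation b}` is a valuation ring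
`≥ w`, `w' ∩ F = O'` (if `x ∈ F`, `w.valuation x ≤ w.valuation b`, `b ≠ 0`: `x / b ∈ O ≤ O'`), and if
`σ ∈ Zd F w` then `w.valuation (σ x) ≤ w.valuation (σ b) = w.valuation b`, so `σ ∈ Zd F w'`.
-/

set_option autoImplicit false

namespace Pool.Agent.Helper2.EG

theorem pdiv_up {F L : Type*} [Field F] [Field L] [Algebra F L] [Algebra.IsAlgebraic F L] {p : ℕ}
    (hp : p.Prime) (w : ValuationSubring L) (O : ValuationSubring F) (hwO : Lies w O)
    (hO : PDiv p O) : PDiv p w := by
  sorry

theorem exists_coarse_lies {F K : Type*} [Field F] [Field K] [Algebra F K]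
    [Algebra.IsAlgebraic F K] {p : ℕ} (hp : p.Prime) (hfin : FinP p F)
    (E : IntermediateField F K) (OE : ValuationSubring E) (hOE : ¬ PDiv p OE)
    (w : ValuationSubring K) (hw : ∀ x : E, (x : K) ∈ w ↔ x ∈ OE) :
    ∃ O' ∈ VV p F, ∃ w' : ValuationSubring K, Lies w' O' ∧ ∀ σ ∈ Zd F w, σ ∈ Zd F w' := by
  sorry

end Pool.Agent.Helper2.EG
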