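import Pool.Agent.Helper2.EG.K6

/-!
# K8d: extending a splitting along a Kummer extension of degree `p`

`U ≤ G`, `α ∈ K`, `α^p` fixed by `U`, `U' = Dfix U α` (index `p`, normal in `U`), `σ₀ ∈ U` with
`σ₀ α = ζ α`.  Let `x'` be a splitting on `U'`.

PROOF.  Write `𝒫_D` for the fibre product group `{(σ, g) | σ ∈ D, ψ σ = π g}` (a subgroup of
`G × P`), acting on `K` through `σ`.  It is convenient to work in the semidirect product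
`Kˣ ⋊ 𝒫_U` and its subgroup `S = {(x'(r)⁻¹, r) | r ∈ 𝒫_{U'}}` (a subgroup because `x'` is a
1-cocycle).  (Everything can also be done by hand with cocycles.)
(1) Let `q = (σ₁, g₁) ∈ 𝒫_U`, `σ₁ α = ζ α`.  For `r = (τ, h) ∈ 𝒫_{U'}` put
`x'^q(r) = σ₁ (x' (q⁻¹ r q))`.  This is again a cocycle on `𝒫_{U'}` with the same values on `ker π`
(central); so `x'^q / x'` depends only on `τ` and is a continuous cocycle on `U'`; `hilbert90` for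
`U'`: there is `y ≠ 0` with (*) `σ₁ (x' (q⁻¹ r q)) = x' r * τ y / y` for all `r = (τ,h) ∈ 𝒫_{U'}`.
In `Kˣ ⋊ 𝒫_U`: `Qq = (y⁻¹, q)` normalizes `S`.
(2) `q^p ∈ 𝒫_{U'}`.  Put `b(q, y) = x'(q^p) / ∏_{i<p} σ₁^i y`.  In `Kˣ ⋊ 𝒫_U`: `Qq^p = b · s`, `s ∈ S`.
Since `Qq` commutes with `Qq^p` and normalizes `S`, and `Qq^p`, `s` act on `S` and on `K`, `b` is
fixed by `σ₁` and by `U'`, so by `U`.
(3) INDEPENDENCE.  If `q₁ = q r₁`, `r₁ ∈ 𝒫_{U'}`, then `y₁ = y * σ₁ (x' r₁)` satisfies (*) for `q₁`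
(`Qq₁ = Qq · s₁` with `s₁ = (x'(r₁)⁻¹, r₁) ∈ S`) and `b(q₁, y₁) = b(q, y)`
(`(Qq s₁)^p ∈ Qq^p S`).  If `y, y'` both satisfy (*) for `q` then `η = y'/y` is fixed by `U'` and
`b(q, y') = b(q, y) / ∏ σ₁^i η`.
Fix `q = (σ₀, g₀)` and `y`; `b = b(q, y)`.
(4) If `b = ∏ σ₀^i n` with `n` fixed by `U'`: replacing `y` by `y n` we get `b = 1`.  Then `Qq^p ∈ S` and
`S ∪ Qq S ∪ … ∪ Qq^(p-1) S` is a subgroup mapping isomorphically to `𝒫_U`: it defines the splitting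
`x` on `U`: every element of `𝒫_U` is uniquely `q^i r`, `0 ≤ i < p`, `r ∈ 𝒫_{U'}`, and
`x(q^i r) = y * σ₀ y ⋯ σ₀^(i-1) y * σ₀^i (x' r)`.  Continuity: the same `L` together with `α`
(an element of `U` fixing `α` is in `U'`).
(5) Let `D ≤ U` with a splitting `x_D`, `σ ∈ D`, `σ α = ζ α`, `D' = Dfix D α`.  On `𝒫_{D'}` the quotient
`x_D / x'` is trivial on `ker π`, so it is a cocycle on `D'`: `x_D(r) = x'(r) * τ m / m`
(`hilbert90` for `D'`).  Let `q₁ = (σ, g₁)`, `g₁` over `ψ σ`, and `y₁` with (*) for `q₁` and all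
`r ∈ 𝒫_{U'}`, `b(q₁, y₁) = b` (possible by (3)).  `Y = x_D(q₁)` satisfies
`σ (x_D (q₁⁻¹ r q₁)) = x_D(r) * τ Y / Y` for `r ∈ 𝒫_{D'}` (cocycle identity).  Inserting,
`n = Y * m / (σ m * y₁)` is fixed by `D'`, and
`∏ σ^i n = ∏ σ^i Y * m / (σ^p m) / ∏ σ^i y₁ = x_D(q₁^p) * m / σ^p m / ∏ σ^i y₁ = x'(q₁^p)/∏ σ^i y₁ = b`.
-/

set_option autoImplicit false

namespace Pool.Agent.Helper2.EG

open Pool.Agent.Helper25.ETC

variable {F K : Type*} [Field F] [Field K] [Algebra F K] {p : ℕ} {ζ : K}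
  {P Q : Type*} [Group P] [Group Q] {π : P →* Q} {ψ : (K ≃ₐ[F] K) →* Q} {ι : P → K}

theorem ext_step (Cx : Ctx p F K ζ) (hζF : ζ ∈ (algebraMap F K).range)
    (Em : EmbData p F K π ψ ι) (U : Subgroup (K ≃ₐ[F] K)) {α : K} (hα0 : α ≠ 0)
    (hα : ∀ σ ∈ U, σ (α ^ p) = α ^ p) {σ₀ : K ≃ₐ[F] K} (hσ₀ : σ₀ ∈ U) (hσα : σ₀ α = ζ * α)
    (hs : SplitOn π ψ ι (Dfix U α)) :
    ∃ b : K, b ≠ 0 ∧ (∀ σ ∈ U, σ b = b) ∧ (IsNorm p U α σ₀ b → SplitOn π ψ ι U) ∧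
      ∀ D : Subgroup (K ≃ₐ[F] K), D ≤ U → SplitOn π ψ ι D → ∀ σ ∈ D, σ α = ζ * α →
        IsNorm p D α σ b := by
  sorry

end Pool.Agent.Helper2.EG
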