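import Pool.Agent.Helper2.EG.K8
import Pool.Agent.Helper2.EG.K8d
import Pool.Agent.Helper2.EG.K11
import Pool.Agent.Helper2.EG.K17

/-!
# K12: local-global principle for central embedding problems with kernel `μ_p`

PROOF.  For a subgroup `U ≥ ker ψ` of `G` (open, as `ker ψ` is) we show `SplitOn π ψ ι U` by induction on
the cardinality of the finite `p`-group `ψ(U)`.  If `ψ(U) = 1`: `splitOn_ker`.  Otherwise `ψ(U)` has a
normal subgroup of index `p` (Helper25 `exists_index_p`), so `U` has a normal subgroup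
`U' ≥ ker ψ` of index `p`, the kernel of a continuous surjective `χ : U → ZMod p`; by Kummer theory
(`hilbert90` for the cocycle `ζ^χ`, or `kummer` in K7) there is `α ≠ 0` with `σ α = ζ^(χ σ) α` for
`σ ∈ U`; so `α^p` is fixed by `U`, `U' = Dfix U α`, and `σ₀ α = ζ α` for some `σ₀ ∈ U`.  Let `E` be the
fixed field of `U`, a finite extension of `F`, `U = E.fixingSubgroup` (Galois correspondence for the
open = closed subgroup `U`).  `ext_step`: `b ∈ E` such that it suffices `IsNorm p U α σ₀ b`.  Apply
`symbol_hasse`: let `O ∈ VV p E`, `w` any valuation ring of `K` over `O` (Helper25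
`exists_extension`).  `exists_coarse_lies`: `O' ∈ VV p F`, `w'` over `O'`, `Zd F w ≤ Zd F w'`.  `hloc` gives
`w₀` over `O'` with `SplitOn` on `Zd F w₀`; `conj`: `w₀`, `w'` are conjugate, so `SplitOn` on `Zd F w'`
(`splitOn_conj`), hence on `D = Zd F w ⊓ U` (`splitOn_mono`).  If `D` fixes `α`: first alternative.
Otherwise some `σ ∈ D` has `σ α = ζ^i α`, `p ∤ i`, a power of it has `σ α = ζ α`; the last clause of
`ext_step` gives `IsNorm p D α σ b`.
-/

set_option autoImplicit false

namespace Pool.Agent.Helper2.EG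

open Pool.Agent.Helper25.ETC

variable {F K : Type} [Field F] [Field K] [Algebra F K] {p : ℕ} {ζ : K}
  {P Q : Type} [Group P] [Group Q] {π : P →* Q} {ψ : (K ≃ₐ[F] K) →* Q} {ι : P → K}

theorem lifting_hasse [Finite Q] (Cx : Ctx p F K ζ) (hζF : ζ ∈ (algebraMap F K).range)
    (hG : Geo F) (hfin : ∀ E : IntermediateField F K, FiniteDimensional F E → FinP p E)
    (hQ : IsPGroup p Q) (Em : EmbData p F K π ψ ι)
    (hloc : ∀ O ∈ VV p F, ∃ w : ValuationSubring K, Lies w O ∧ SplitOn π ψ ι (Zd F w)) :
    SplitOn π ψ ι ⊤ := by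
  sorry

end Pool.Agent.Helper2.EG
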