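import Pool.Agent.Helper2.EG.Defs2
import Pool.Agent.Helper27.ETC.F8

/-!
# K13: the closed subgroup generated by `σ ≠ 1` is `ℤ_p`

Proved from the blocks F7, F8 of the action based version (`Pool.Helper37.ETC.Good`).
-/

set_option autoImplicit false

namespace Pool.Agent.Helper2.EG

open Pool.Agent.Helper25.ETC

variable {F K : Type} [Field F] [Field K] [Algebra F K] {p : ℕ} {ζ : K}

theorem good_of_ctx (Cx : Ctx p F K ζ) (hζF : ζ ∈ (algebraMap F K).range) :
    Pool.Helper37.ETC.Good p (K ≃ₐ[F] K) K ζ where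
  cont := by
    intro x
    have := Cx.pc.gal
    have hint : IsIntegral F x := Algebra.IsIntegral.isIntegral _
    have : FiniteDimensional F (IntermediateField.adjoin F {x}) :=
      IntermediateField.adjoin.finiteDimensional hint
    have h1 := IntermediateField.fixingSubgroup_isOpen (IntermediateField.adjoin F {x})
    convert h1 using 1
    ext τ
    simp only [Set.mem_ofPred_eq, SetLike.mem_coe, AlgEquiv.smul_def]
    rw [IntermediateField.mem_fixingSubgroup_iff]
    constructor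
    · intro h y hy
      have h3 : IntermediateField.adjoin F {x} ≤
          IntermediateField.fixedField (Subgroup.zpowers τ) := by
        rw [IntermediateField.adjoin_simple_le_iff, IntermediateField.mem_fixedField_iff]
        intro g hg
        obtain ⟨m, rfl⟩ := Subgroup.mem_zpowers_iff.mp hg
        have h5 : τ ∈ MulAction.stabilizer (K ≃ₐ[F] K) x := h
        exact (MulAction.stabilizer (K ≃ₐ[F] K) x).zpow_mem h5 m
      have h4 := h3 hy
      rw [IntermediateField.mem_fixedField_iff] at h4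
      exact h4 _ (Subgroup.mem_zpowers _)
    · intro h
      exact h _ (IntermediateField.mem_adjoin_simple_self F _)
  faith := by
    intro σ h
    ext x
    exact h x
  root := Cx.pc.root
  prim := Cx.hζ
  fix := by
    intro σ
    obtain ⟨z, rfl⟩ := hζF
    exact σ.commutes z
  tors := fun σ x => Cx.pc.tors σ x

theorem no_finite_order (Cx : Ctx p F K ζ) (hζF : ζ ∈ (algebraMap F K).range) (hG : Geo F)
    {σ : K ≃ₐ[F] K} (hσ : σ ≠ 1) {n : ℕ} (hn : 0 < n) : σ ^ n ≠ 1 := by
  intro h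
  have hp := Cx.hp
  have : Fact p.Prime := ⟨hp⟩
  have := Cx.pc.gal
  have Gd := good_of_ctx Cx hζF
  -- the order is a power of `p`
  have hfo : IsOfFinOrder σ := isOfFinOrder_iff_pow_eq_one.mpr ⟨n, hn, h⟩
  obtain ⟨a, b, hb, hab⟩ := Nat.exists_eq_pow_mul_and_not_dvd
    (n := orderOf σ) hfo.orderOf_pos.ne' p hp.ne_one
  have hk : σ ^ (p ^ a) = 1 := by
    have h1 : (σ ^ (p ^ a)) ^ b = 1 := by
      rw [← pow_mul, ← hab, pow_orderOf_eq_one]
    apply AlgEquiv.ext
    intro x
    obtain ⟨k, hk⟩ := Cx.pc.tors (σ ^ (p ^ a)) x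
    have hcop : Nat.Coprime (p ^ k) b := Nat.Coprime.pow_left _ ((hp.coprime_iff_not_dvd).mpr hb)
    have h2 : σ ^ (p ^ a) ∈ MulAction.stabilizer (K ≃ₐ[F] K) x := by
      have h3 : (σ ^ (p ^ a)) ^ (p ^ k) ∈ MulAction.stabilizer (K ≃ₐ[F] K) x := hk
      have h4 : (σ ^ (p ^ a)) ^ b ∈ MulAction.stabilizer (K ≃ₐ[F] K) x := by
        rw [h1]; exact Subgroup.one_mem _
      have h5 := Nat.gcd_eq_gcd_ab (p ^ k) b
      rw [hcop.gcd_eq_one] at h5
      have h6 : σ ^ (p ^ a) = ((σ ^ (p ^ a)) ^ (p ^ k)) ^ (Nat.gcdA (p ^ k) b) *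
          ((σ ^ (p ^ a)) ^ b) ^ (Nat.gcdB (p ^ k) b) := by
        rw [← zpow_natCast (σ ^ (p ^ a)) (p ^ k), ← zpow_natCast (σ ^ (p ^ a)) b,
          ← zpow_mul, ← zpow_mul, ← zpow_add, ← h5]
        simp
      rw [h6]
      exact Subgroup.mul_mem _ (Subgroup.zpow_mem _ h3 _) (Subgroup.zpow_mem _ h4 _)
    exact h2
  obtain ⟨h2, hss⟩ := Pool.Helper37.ETC.torsion Gd σ hσ a hk
  subst h2
  obtain ⟨-, i, hi, hi'⟩ := Gd.ord_p σ hσ (by rw [pow_two, hss])
  have h20 : (2 : K) ≠ 0 := by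
    have := Gd.p_ne
    simpa using this
  obtain ⟨l, hl, hcl⟩ := hG.char
  have : Fact l.Prime := ⟨hl⟩
  have : CharP K l := (RingHom.charP_iff (algebraMap F K) (algebraMap F K).injective l).mp hcl
  obtain ⟨a, b, hab⟩ := ZMod.sq_add_sq l (-1)
  let f : ZMod l →+* F := ZMod.castHom (dvd_refl l) F
  have hx : ∀ c : ZMod l, σ (algebraMap F K (f c)) = algebraMap F K (f c) := fun c =>
    σ.commutes _
  set x := algebraMap F K (f a) with hxd
  set y := algebraMap F K (f b) with hyd
  have hxy : x ^ 2 + y ^ 2 = -1 := by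
    rw [hxd, hyd, ← map_pow, ← map_pow, ← map_pow, ← map_pow, ← map_add, ← map_add, hab]
    simp
  obtain ⟨γ, hγ⟩ := Cx.pc.root (x + i * y)
  have hsi : σ i = -i := hi'
  have hsγ : (σ γ) ^ 2 = x - i * y := by
    rw [← map_pow, hγ, map_add, map_mul, hxd, hyd, hx a, hx b, hsi]
    ring
  have hN2 : (γ * σ γ) ^ 2 = i ^ 2 := by
    rw [mul_pow, hγ, hsγ, hi]
    linear_combination hxy - y ^ 2 * hi
  have hNf : σ (γ * σ γ) = γ * σ γ := by
    rw [map_mul]
    have : σ (σ γ) = γ := by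
      rw [← AlgEquiv.mul_apply, hss, AlgEquiv.one_apply]
    rw [this, mul_comm]
  have hi0 : i ≠ 0 := by
    rintro rfl
    norm_num at hi
  have hcon : ∀ z : K, σ z = z → (z = i ∨ z = -i) → False := by
    rintro z hz (rfl | rfl)
    · rw [hsi] at hz
      have : 2 * z = 0 := by linear_combination -hz
      rcases mul_eq_zero.mp this with h4 | h4
      · exact h20 h4
      · exact hi0 h4
    · rw [map_neg, hsi, neg_neg] at hz
      have : 2 * i = 0 := by linear_combination hz
      rcases mul_eq_zero.mp this with h4 | h4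
      · exact h20 h4
      · exact hi0 h4
  exact hcon _ hNf (sq_eq_sq_iff_eq_or_eq_neg.mp hN2)

theorem zp_of_elt [Fact p.Prime] (Cx : Ctx p F K ζ) (hζF : ζ ∈ (algebraMap F K).range)
    (hG : Geo F) {σ : K ≃ₐ[F] K} (hσ : σ ≠ 1) :
    Nonempty ((Subgroup.zpowers σ).topologicalClosure ≃ₜ* Multiplicative (PadicInt p)) := by
  have hp := Cx.hp
  have := Cx.pc.gal
  refine Pool.Helper37.ETC.procyclic_inf (good_of_ctx Cx hζF) σ ?_
  rintro ⟨k, hk⟩
  exact no_finite_order Cx hζF hG hσ (pow_pos hp.pos k) hk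

end Pool.Agent.Helper2.EG
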