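import Pool.Agent.Helper2.EG.Defs2

/-!
# K6: Hilbert 90 for subgroups of the Galois group

PROOF.  Let `L` be the finite subextension in `hN`; enlarge it to be Galois over `F` (normal
closure).  For `τ ∈ D` fixing `L`: `c (σ τ) = c σ * σ (c τ) = c σ`.  So `c` restricted to `D` depends
only on the restriction of `σ ∈ D` to `L`.  Let `D̄ ⊆ Gal(L/F)` be the (finite) set of restrictions.
By linear independence of the distinct homomorphisms `σ|_L : L → K`, `σ ∈ D̄`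
(`linearIndependent_monoidHom`), there is `z ∈ L` with `s = ∑_{σ ∈ D̄} c σ * σ z ≠ 0`.  For `ρ ∈ D`:
`ρ s = ∑ ρ (c σ) * ρ σ z = (c ρ)⁻¹ ∑ c (ρ σ) * (ρ σ) z = (c ρ)⁻¹ s`.  Take `y = s⁻¹`.
-/

set_option autoImplicit false

namespace Pool.Agent.Helper2.EG

variable {F K : Type*} [Field F] [Field K] [Algebra F K]

theorem hilbert90 [IsGalois F K] (D : Subgroup (K ≃ₐ[F] K)) (c : (K ≃ₐ[F] K) → K)
    (h0 : ∀ σ ∈ D, c σ ≠ 0) (hc : ∀ σ ∈ D, ∀ τ ∈ D, c (σ * τ) = c σ * σ (c τ))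
    (hN : ∃ L : IntermediateField F K, FiniteDimensional F L ∧
      ∀ τ ∈ D, (∀ y ∈ L, τ y = y) → c τ = 1) :
    ∃ y : K, y ≠ 0 ∧ ∀ σ ∈ D, c σ = σ y / y := by
  sorry

end Pool.Agent.Helper2.EG
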