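import Pool.Agent.Helper2.EG.A10
import Pool.Agent.Helper2.EG.K6
import Pool.Agent.Helper2.EG.K0

/-!
# K14: finiteness of `VV`, simultaneous approximation, dual automorphisms

PROOF `approx_all`: for `O ∈ T` let `y_O` be from `weak_approx` (`O₀ = O`, `T ∖ {O}`, `x O`); the product
`y` of all `y_O` works (at `O` the other factors are in `1 + m_O`).
PROOF `VV_finite`: for `O ∈ VV` there is `x_O` such that `x_O y^p` is never a unit of `O` (`¬ PDiv`).  If
`T ⊆ VV` is finite, choose by `approx_all` for each `O ∈ T` an element `y_O` with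
`y_O ∈ x_O z^p (1 + m_O)` and `y_O ∈ z^p (1 + m_{O'})` for `O' ∈ T`, `O' ≠ O`.  The classes of the `y_O` in
`F* / F*^p` are pairwise different (if `y_O / y_{O'}` were a `p`-th power, ...: at `O` it is
`x_O z^p (1 + m)`, never a unit times a `p`-th power).  So `|T| ≤ |R|` with `R` from `FinP`
(different `O` have different representatives in `R`).
PROOF `exists_sigmas`: `W` a subgroup of `F*` (given as a set) containing the `p`-th powers.  `W / F*^p`
is a finite dimensional `ZMod p`-space; choose a basis, represented by `a_1, …, a_t`, roots `α_j`.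
Consider the homomorphism `G → (ZMod p)^t`, `σ ↦ (χ_{a_j}(σ))_j`, `σ α_j = ζ^(χ_j σ) α_j`.  It is
surjective: otherwise there is a nonzero linear functional `(n_j)` vanishing on the image, so
`∏ α_j^(n_j)` is fixed by `G`, so in `F`, so `∏ a_j^(n_j)` is a `p`-th power, contradicting
independence.  Take preimages of the unit vectors.
-/

set_option autoImplicit false

namespace Pool.Agent.Helper2.EG

open Pool.Agent.Helper25.ETC

theorem approx_all {F : Type*} [Field F] {p : ℕ} (hG : Geo F) (hp : p.Prime)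
    (T : Finset (ValuationSubring F)) (hT : ∀ O ∈ T, O ∈ VV p F)
    (x : ValuationSubring F → F) (hx : ∀ O ∈ T, x O ≠ 0) :
    ∃ y : F, y ≠ 0 ∧ ∀ O ∈ T, ∃ z : F, z ≠ 0 ∧ OneU O (y / (x O * z ^ p)) := by
  sorry

theorem VV_finite {F : Type*} [Field F] {p : ℕ} (hG : Geo F) (hp : p.Prime) (hfin : FinP p F) :
    (VV p F).Finite := by
  sorry

theorem exists_sigmas {F K : Type} [Field F] [Field K] [Algebra F K] {p : ℕ} {ζ : K}
    (Cx : Ctx p F K ζ) (hζF : ζ ∈ (algebraMap F K).range) (hfin : FinP p F) (W : Set F)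
    (hW0 : ∀ x ∈ W, x ≠ 0) (hWp : ∀ x : F, x ≠ 0 → x ^ p ∈ W)
    (hWm : ∀ x ∈ W, ∀ y ∈ W, x * y ∈ W) :
    ∃ (t : ℕ) (a : Fin t → F) (α : Fin t → K) (σ : Fin t → (K ≃ₐ[F] K)),
      (∀ i, a i ∈ W ∧ α i ^ p = algebraMap F K (a i)) ∧
      (∀ i j, σ i (α j) = (if i = j then ζ else 1) * α j) ∧
      ∀ x ∈ W, ∃ (n : Fin t → ℕ) (y : F), y ≠ 0 ∧ x = (∏ i, a i ^ n i) * y ^ p := by
  sorry

end Pool.Agent.Helper2.EG
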