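import Pool.Agent.Helper2.EG.Defs2
import Pool.Agent.Helper30.ETC.F5

/-!
# K15: the universal property from `H^1` and lifting

PROOF.  Induction on `|P|`.  `P = 1` trivial.  Otherwise the `p`-group `P` has a central subgroup `C`
of order `p`; `Q = P ⧸ C`.
UNIQUENESS: `X, X'` both extend the `φ i`; their compositions with `P → Q` agree by induction; so
`σ ↦ X σ * (X' σ)⁻¹ ∈ C` is a homomorphism (`C` central) `G → C ≅ ZMod p`, continuous, trivial on all
`H i`; by `h1` (uniqueness) it is trivial.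
EXISTENCE: by induction there is a continuous `ψ : G →* Q` extending the compositions of the `φ i`.
`h2` applies (`φ i` is a lift of `ψ` on `H i`): there is a continuous lift `l : G →* P` of `ψ`.
`φ i x * (l x)⁻¹ ∈ C` defines a character of `H i`; by `h1` there is a continuous
`X : G →* C` extending them; `σ ↦ X σ * l σ` is the solution.
-/

set_option autoImplicit false

namespace Pool.Agent.Helper2.EG

namespace K15

/-- the difference of two homomorphisms which agree modulo a central subgroup of order `p`. -/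
theorem diffhom {p : ℕ} {D P : Type*} [Group D] [Group P] (e : ZMod p → P)
    (he : ∀ a b, e (a + b) = e a * e b) (hinj : Function.Injective e)
    (hcom : ∀ a x, e a * x = x * e a) (a b : D →* P) (h : ∀ σ, ∃ c, a σ = e c * b σ) :
    ∃ χ : D →* Multiplicative (ZMod p), ∀ σ, a σ = e (Multiplicative.toAdd (χ σ)) * b σ := by
  choose c hc using h
  refine ⟨MonoidHom.mk' (fun σ => Multiplicative.ofAdd (c σ)) ?_, fun σ => hc σ⟩
  intro σ τ
  rw [← ofAdd_add]
  congr 1
  apply hinj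
  apply mul_right_cancel (b := b (σ * τ))
  rw [← hc, he, map_mul, map_mul, hc σ, hc τ, mul_assoc, mul_assoc, ← mul_assoc (b σ), ← hcom,
    mul_assoc (e (c τ))]

theorem cts_of {F K : Type*} [Field F] [Field K] [Algebra F K] {D : Subgroup (K ≃ₐ[F] K)}
    {A B C : Type*} [One A] [One B] [One C] {f : D → A} {g : D → B} {h : D → C}
    (hf : Cts f) (hg : Cts g) (hh : ∀ τ, f τ = 1 → g τ = 1 → h τ = 1) : Cts h := by
  obtain ⟨L, hL, h1⟩ := hf
  obtain ⟨M, hM, h2⟩ := hg
  refine ⟨L ⊔ M, inferInstance, fun τ hτ => hh τ (h1 τ fun y hy => hτ y ?_)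
    (h2 τ fun y hy => hτ y ?_)⟩
  · exact (le_sup_left : L ≤ L ⊔ M) hy
  · exact (le_sup_right : M ≤ L ⊔ M) hy

end K15

variable {F K : Type} [Field F] [Field K] [Algebra F K] {p : ℕ}

theorem K15.aux [Fact p.Prime] {n : ℕ} (H : Fin n → Subgroup (K ≃ₐ[F] K))
    (h1 : ∀ χ : (i : Fin n) → (H i →* Multiplicative (ZMod p)), (∀ i, Cts (χ i)) →
      ∃! X : (⊤ : Subgroup (K ≃ₐ[F] K)) →* Multiplicative (ZMod p), Cts X ∧
        ∀ (i : Fin n) (x : H i), X ⟨(x : K ≃ₐ[F] K), Subgroup.mem_top _⟩ = χ i x)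
    (h2 : ∀ (P Q : Type) [Group P] [Group Q] [Finite P] [Finite Q] (π : P →* Q)
      (ψ : (K ≃ₐ[F] K) →* Q), IsPGroup p P → Function.Surjective π →
      (∀ z, π z = 1 → ∀ g, z * g = g * z) → Nat.card π.ker = p →
      (∃ L : IntermediateField F K, FiniteDimensional F L ∧
        ∀ τ : K ≃ₐ[F] K, (∀ y ∈ L, τ y = y) → ψ τ = 1) →
      (∀ i, LiftOn π ψ (H i)) → LiftOn π ψ ⊤) (k : ℕ) :
    ∀ (P : Type) [Group P] [Finite P], Nat.card P = p ^ k →
      ∀ φ : (i : Fin n) → (H i →* P), (∀ i, Cts (φ i)) →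
    ∃! X : (⊤ : Subgroup (K ≃ₐ[F] K)) →* P, Cts X ∧
      ∀ (i : Fin n) (x : H i), X ⟨(x : K ≃ₐ[F] K), Subgroup.mem_top _⟩ = φ i x := by
  induction k with
  | zero =>
    intro P _ _ hk φ hφ
    rw [pow_zero] at hk
    have : Subsingleton P := (Nat.card_eq_one_iff_unique.1 hk).1
    refine ⟨1, ⟨⟨⊥, inferInstance, fun _ _ => rfl⟩, fun i x => Subsingleton.elim _ _⟩,
      fun ψ _ => ?_⟩
    ext σ
    exact Subsingleton.elim _ _
  | succ k ih =>
    intro P _ _ hk φ hφ
    have hP : IsPGroup p P := IsPGroup.of_card hk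
    obtain ⟨z, hz, hzc⟩ := Pool.Helper37.ETC.F5.exists_central hk
    obtain ⟨e, he, hinj, hcom, hmem⟩ := Pool.Helper37.ETC.F5.exists_exp hz hzc
    have : (Subgroup.zpowers z).Normal := by
      constructor
      intro x hx g
      obtain ⟨a, rfl⟩ := (hmem x).1 hx
      rw [← hcom, mul_inv_cancel_right]
      exact hx
    have hcard : Nat.card (P ⧸ Subgroup.zpowers z) = p ^ k := by
      have h3 := Subgroup.card_eq_card_quotient_mul_card_subgroup (Subgroup.zpowers z)
      rw [hk, Nat.card_zpowers, hz, pow_succ] at h3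
      exact (Nat.eq_of_mul_eq_mul_right (Fact.out : p.Prime).pos h3).symm
    let π := QuotientGroup.mk' (Subgroup.zpowers z)
    have hker : ∀ x, π x = 1 ↔ ∃ a, e a = x := by
      intro x
      rw [← hmem, ← MonoidHom.mem_ker, QuotientGroup.ker_mk']
    have he0 : e 0 = 1 := by
      have := he 0 0
      rw [add_zero] at this
      exact (mul_eq_left.1 this.symm)
    have hdiff : ∀ x y : P, π x = π y → ∃ a, x = e a * y := by
      intro x y hxy
      obtain ⟨a, ha⟩ := (hker (x * y⁻¹)).1 (by rw [map_mul, map_inv, hxy, mul_inv_cancel])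
      exact ⟨a, by rw [ha, inv_mul_cancel_right]⟩
    obtain ⟨ψ', ⟨hψc, hψr⟩, hψu⟩ := ih (P ⧸ Subgroup.zpowers z) hcard
      (fun i => π.comp (φ i)) (fun i => by
        obtain ⟨L, hL, h⟩ := hφ i
        refine ⟨L, hL, fun τ hτ => ?_⟩
        rw [MonoidHom.comp_apply, h τ hτ, map_one])
    let ψ : (K ≃ₐ[F] K) →* (P ⧸ Subgroup.zpowers z) :=
      ψ'.comp (Subgroup.topEquiv (G := K ≃ₐ[F] K)).symm.toMonoidHom
    have hψ : ∀ σ : K ≃ₐ[F] K, ψ σ = ψ' ⟨σ, Subgroup.mem_top _⟩ := fun σ => rfl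
    obtain ⟨l, hl, hlc⟩ : LiftOn π ψ ⊤ := by
      refine h2 P (P ⧸ Subgroup.zpowers z) π ψ hP (QuotientGroup.mk'_surjective _) ?_ ?_ ?_ ?_
      · intro x hx g
        obtain ⟨a, rfl⟩ := (hker x).1 hx
        exact hcom a g
      · rw [QuotientGroup.ker_mk', Nat.card_zpowers, hz]
      · obtain ⟨L, hL, h⟩ := hψc
        exact ⟨L, hL, fun τ hτ => h ⟨τ, Subgroup.mem_top _⟩ hτ⟩
      · intro i
        refine ⟨φ i, fun σ => ?_, hφ i⟩
        rw [hψ, hψr]
        rfl
    -- restriction of `l`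
    let lr : (i : Fin n) → (H i →* P) := fun i => l.comp (Subgroup.inclusion le_top)
    have hlr : ∀ i (x : H i), lr i x = l ⟨(x : K ≃ₐ[F] K), Subgroup.mem_top _⟩ := fun i x => rfl
    have hlrc : ∀ i, Cts (lr i) := by
      intro i
      obtain ⟨L, hL, h⟩ := hlc
      exact ⟨L, hL, fun τ hτ => h ⟨(τ : K ≃ₐ[F] K), Subgroup.mem_top _⟩ hτ⟩
    have hchi : ∀ i, ∃ χ : H i →* Multiplicative (ZMod p),
        ∀ σ, φ i σ = e (Multiplicative.toAdd (χ σ)) * lr i σ := by
      intro i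
      apply K15.diffhom e he hinj hcom
      intro σ
      apply hdiff
      rw [hlr, hl, hψ, hψr]
      rfl
    choose χ hχ using hchi
    have htriv : ∀ (x : Multiplicative (ZMod p)), e (Multiplicative.toAdd x) = 1 → x = 1 := by
      intro x hx
      rw [← he0] at hx
      have := hinj hx
      exact this
    have hχc : ∀ i, Cts (χ i) := by
      intro i
      refine K15.cts_of (hφ i) (hlrc i) ?_
      intro τ h3 h4
      apply htriv
      have := hχ i τ
      rw [h3, h4, mul_one] at this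
      exact this.symm
    obtain ⟨X₀, ⟨hXc, hXr⟩, hXu⟩ := h1 χ hχc
    let X : (⊤ : Subgroup (K ≃ₐ[F] K)) →* P := MonoidHom.mk'
      (fun σ => e (Multiplicative.toAdd (X₀ σ)) * l σ) (by
        intro σ τ
        show e (Multiplicative.toAdd (X₀ (σ * τ))) * l (σ * τ) =
          (e (Multiplicative.toAdd (X₀ σ)) * l σ) * (e (Multiplicative.toAdd (X₀ τ)) * l τ)
        rw [map_mul, toAdd_mul, he, map_mul, mul_assoc, mul_assoc, ← mul_assoc (l σ), ← hcom,
          mul_assoc (e (Multiplicative.toAdd (X₀ τ)))])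
    have hX : ∀ σ, X σ = e (Multiplicative.toAdd (X₀ σ)) * l σ := fun σ => rfl
    refine ⟨X, ⟨?_, ?_⟩, ?_⟩
    · refine K15.cts_of hXc hlc ?_
      intro τ h3 h4
      rw [hX, h3, h4, mul_one]
      exact he0
    · intro i x
      rw [hX, hXr, hχ i x, hlr]
    · rintro X₁ ⟨hc₁, hr₁⟩
      have h3 : π.comp X₁ = ψ' := by
        apply hψu
        refine ⟨?_, fun i x => ?_⟩
        · obtain ⟨L, hL, h⟩ := hc₁
          refine ⟨L, hL, fun τ hτ => ?_⟩
          rw [MonoidHom.comp_apply, h τ hτ, map_one]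
        · rw [MonoidHom.comp_apply, hr₁]
          rfl
      obtain ⟨c, hc⟩ := K15.diffhom e he hinj hcom X₁ l (by
        intro σ
        apply hdiff
        rw [hl, hψ, ← h3]
        rfl)
      have h4 : c = X₀ := by
        apply hXu
        refine ⟨?_, fun i x => ?_⟩
        · refine K15.cts_of hc₁ hlc ?_
          intro τ h5 h6
          apply htriv
          have := hc τ
          rw [h5, h6, mul_one] at this
          exact this.symm
        · have h5 := hc ⟨(x : K ≃ₐ[F] K), Subgroup.mem_top _⟩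
          rw [hr₁, hχ, hlr] at h5
          have h6 := hinj (mul_right_cancel h5)
          exact h6.symm
      ext σ
      rw [hc, h4, hX]

theorem univ_prop (hp : p.Prime) {n : ℕ} (H : Fin n → Subgroup (K ≃ₐ[F] K))
    (h1 : ∀ χ : (i : Fin n) → (H i →* Multiplicative (ZMod p)), (∀ i, Cts (χ i)) →
      ∃! X : (⊤ : Subgroup (K ≃ₐ[F] K)) →* Multiplicative (ZMod p), Cts X ∧
        ∀ (i : Fin n) (x : H i), X ⟨(x : K ≃ₐ[F] K), Subgroup.mem_top _⟩ = χ i x)
    (h2 : ∀ (P Q : Type) [Group P] [Group Q] [Finite P] [Finite Q] (π : P →* Q)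
      (ψ : (K ≃ₐ[F] K) →* Q), IsPGroup p P → Function.Surjective π →
      (∀ z, π z = 1 → ∀ g, z * g = g * z) → Nat.card π.ker = p →
      (∃ L : IntermediateField F K, FiniteDimensional F L ∧
        ∀ τ : K ≃ₐ[F] K, (∀ y ∈ L, τ y = y) → ψ τ = 1) →
      (∀ i, LiftOn π ψ (H i)) → LiftOn π ψ ⊤)
    (P : Type) [Group P] [Finite P] (hP : IsPGroup p P) (φ : (i : Fin n) → (H i →* P))
    (hφ : ∀ i, Cts (φ i)) :
    ∃! X : (⊤ : Subgroup (K ≃ₐ[F] K)) →* P, Cts X ∧
      ∀ (i : Fin n) (x : H i), X ⟨(x : K ≃ₐ[F] K), Subgroup.mem_top _⟩ = φ i x := by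
  have : Fact p.Prime := ⟨hp⟩
  obtain ⟨k, hk⟩ := (IsPGroup.iff_card).1 hP
  exact K15.aux H h1 h2 k P hk φ hφ

end Pool.Agent.Helper2.EG
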