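import Pool.Agent.Helper2.EG.Defs2

/-!
# K16: finiteness of `E* / E*^p`; open subgroups and finite levels

PROOF `finP_of_fg`: `S` a finite set of topological generators of `G = Gal(K/F)`.  For `x ∈ F`, `x ≠ 0`
choose `r_x ∈ K`, `r_x^p = x`, and let `v_x : S → {0..p-1}`, `σ r_x = ζ^(v_x σ) r_x`.  If `v_x = v_y` then
`r_x / r_y` is fixed by `S`, so by `G`, so `x = y z^p` with `z ∈ F`.  Finitely many functions `v`.
PROOF `finP_up`: `E` a finite subextension of `K/F`: `FinP p F → FinP p E`.  Use `tower_induction`
(Helper25/ETCPro.lean) and one of the results of Helper25/Helper74 on steps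
(`card_schreier` in ETCRgK.lean, `schreier_step` in ETCMod.lean, `finite_step` in ETCNormal.lean), or
directly: `Gal(K/E)` is an open subgroup of `G`; `G` is topologically finitely generated iff ... (the
finite index subgroup `Gal(K/E) ∩ ⟨S⟩` of the finitely generated group `⟨S⟩` is finitely generated
and dense in `Gal(K/E)`), then use the argument of `finP_of_fg` over `E`.  So it may be easier to prove
directly the statement `finP_up_of_fg`.
PROOF `cts_iff`: an open subgroup of `Gal(K/F)` contains the fixing subgroup of a finite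
subextension and conversely (`krullTopology`).
-/

set_option autoImplicit false

namespace Pool.Agent.Helper2.EG

open Pool.Agent.Helper25.ETC

variable {F K : Type} [Field F] [Field K] [Algebra F K] {p : ℕ} {ζ : K}

theorem finP_up_of_fg (Cx : Ctx p F K ζ) (hζF : ζ ∈ (algebraMap F K).range)
    (hfg : ∃ S : Finset (K ≃ₐ[F] K),
      Dense ((Subgroup.closure (S : Set (K ≃ₐ[F] K)) : Set (K ≃ₐ[F] K))))
    (E : IntermediateField F K) [FiniteDimensional F E] : FinP p E := by
  sorry

theorem finP_of_fg (Cx : Ctx p F K ζ) (hζF : ζ ∈ (algebraMap F K).range)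
    (hfg : ∃ S : Finset (K ≃ₐ[F] K),
      Dense ((Subgroup.closure (S : Set (K ≃ₐ[F] K)) : Set (K ≃ₐ[F] K)))) : FinP p F := by
  sorry

theorem cts_iff {P : Type*} [Group P] (D : Subgroup (K ≃ₐ[F] K)) (f : D →* P) :
    Cts f ↔ IsOpen (f.ker : Set D) := by
  sorry

theorem zd_closed (w : ValuationSubring K) : IsClosed (Zd F w : Set (K ≃ₐ[F] K)) := by
  sorry

end Pool.Agent.Helper2.EG
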