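import Pool.Agent.Helper2.EG.Defs

/-!
# K2a: quotients of elementary symmetric functions

`v` a valuation on the field `L`, `x : I → L` a finite family of nonzero elements, `i₀ ∈ I`; if
`v (x i) = v (x i₀)` then `x i = x i₀`; `n = #{i | x i = x i₀}` is a unit (`v n = 1`).
Let `j = #{i | v (x i₀) < v (x i)}` and `e_m = ∑_{|A| = m} ∏_{i ∈ A} x i`.  Then `e_j ≠ 0` and
`v (e_{j+1} / (n e_j x_{i₀}) - 1) < 1`.
PROOF.  `A₀ = {i | v (x i₀) < v (x i)}`.  For `|A| = j`, `A ≠ A₀`: `v ∏_A < v ∏_{A₀}` (elements of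
`A ∖ A₀` have valuation `≤ v (x i₀)`, those of `A₀ ∖ A` have larger valuation, `|A ∖ A₀| = |A₀ ∖ A|`).
So `e_j = ∏_{A₀} (1 + small)`.  For `|A| = j + 1`: if `A = A₀ ∪ {i}` with `x i = x i₀` the product is
`∏_{A₀} x_{i₀}`; there are `n` such `A`; all other `A` have `v ∏_A < v (∏_{A₀} x_{i₀})`: either
`A = A₀ ∪ {i}` with `v (x i) < v (x i₀)`, or `A₀ ⊄ A`.  So `e_{j+1} = n ∏_{A₀} x_{i₀} (1 + small)`.
-/

set_option autoImplicit false

namespace Pool.Agent.Helper2.EG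

open Finset

theorem esymm_quot {L Γ₀ I : Type*} [Field L] [LinearOrderedCommGroupWithZero Γ₀]
    (v : Valuation L Γ₀) [Fintype I] [DecidableEq I] (x : I → L) (hx : ∀ i, x i ≠ 0) (i₀ : I)
    (h : ∀ i, v (x i) = v (x i₀) → x i = x i₀) (n : ℕ)
    (hn : Nat.card {i // x i = x i₀} = n) (hvn : v (n : L) = 1) :
    ∃ j : ℕ, ∑ A ∈ powersetCard j (univ : Finset I), ∏ i ∈ A, x i ≠ 0 ∧
      v ((∑ A ∈ powersetCard (j + 1) (univ : Finset I), ∏ i ∈ A, x i) /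
        (n * (∑ A ∈ powersetCard j (univ : Finset I), ∏ i ∈ A, x i) * x i₀) - 1) < 1 := by
  sorry

end Pool.Agent.Helper2.EG
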