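import Pool.Agent.Helper2.EG.K1
import Pool.Agent.Helper2.EG.K2a

/-!
# K2: the decomposition field is an immediate extension

PROOF `immediate_finite`.  `L / F` finite Galois with group `G_L` of `p`-power order, `w` a valuation
ring of `L`, `Z = Zd F w`; `x ≠ 0` fixed by `Z`.  The conjugates `w^σ = {y | σ y ∈ w}`, `σ ∉ Z`, are
different from `w`, hence incomparable with `w` (`eq_of_le_of_lies`).  `exists_e`: `e` with
`OneU w e`, and `w.valuation (σ e) < 1` for all `σ ∉ Z`.  `β = ∏_{τ ∈ Z} τ e` satisfies: `β` fixed by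
`Z`, `OneU w β`, `w.valuation (σ β) < 1` for `σ ∉ Z` (as `σ τ ∉ Z`).  For each `σ ∉ Z` there is at most
one `m` with `w.valuation (σ (β^m x)) = w.valuation x` (powers of `σ β` have strictly decreasing
valuation); so there is `m` such that `x' = β^m x` satisfies
`w.valuation (σ x') ≠ w.valuation x'` for all `σ ∉ Z` (note `w.valuation x' = w.valuation x`).
`x'` is fixed by `Z`.  Apply `esymm_quot` to the family `σ ↦ σ x'`, `σ ∈ G_L`, `i₀ = 1`: equality of
valuations implies `σ ∈ Z`, so `σ x' = x'`; `n = |Z|` is a power of `p` up to.. precisely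
`{σ | σ x' = x'} = Z`, `n = |Z|` divides `|G_L|`, a power of `p`, so it is a unit at `w`
(`val_natCast`).  The elementary symmetric functions of all conjugates are in `F`.  So
`y = e_{j+1}/(n e_j) ∈ F` satisfies `OneU w (y / x')`, hence `OneU w (x / y)`.

PROOF `immediate`.  `x ∈ K` fixed by `Zd F w`, `K / F` Galois.  The set `{σ | σ x ≠ x}` is closed; each
of its elements is not in `Zd F w`, so there is `z_σ ∈ K` with `¬ (z_σ ∈ w ↔ σ z_σ ∈ w)`, and the set
of all `τ` with `¬ (z_σ ∈ w ↔ τ z_σ ∈ w)` is open.  By compactness finitely many `z` suffice.  Let `L`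
be a finite Galois subextension containing `x` and these `z`.  If `τ ∈ Gal(L/F)` preserves `w ∩ L`
then `τ x = x` (lift `τ` to `K`).  Apply `immediate_finite` to `L`, `w ∩ L`.  The group `Gal(L/F)` is a
`p`-group (`isPGroup_of_PCl`).
-/

set_option autoImplicit false

namespace Pool.Agent.Helper2.EG

open Pool.Agent.Helper25.ETC

section K2aux

variable {L : Type*} [Field L] {O : ValuationSubring L}

theorem K2.ne_zero {x : L} (h : OneU O x) : x ≠ 0 := by
  intro h0
  have := K1.oneU_val h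
  rw [h0, map_zero] at this
  exact zero_ne_one this

theorem K2.one : OneU O (1 : L) := by
  show O.valuation (1 - 1) < 1
  rw [sub_self, map_zero]
  exact zero_lt_one

theorem K2.mul {x y : L} (hx : OneU O x) (hy : OneU O y) : OneU O (x * y) := by
  have e : x * y - 1 = x * (y - 1) + (x - 1) := by ring
  show O.valuation (x * y - 1) < 1
  rw [e]
  refine Valuation.map_add_lt _ ?_ hx
  rw [map_mul, K1.oneU_val hx, one_mul]
  exact hy

theorem K2.inv {x : L} (hx : OneU O x) : OneU O x⁻¹ := by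
  have h0 := K2.ne_zero hx
  have e : x⁻¹ - 1 = - ((x - 1) * x⁻¹) := by
    rw [sub_mul, mul_inv_cancel₀ h0]; ring
  show O.valuation (x⁻¹ - 1) < 1
  rw [e, Valuation.map_neg, map_mul, map_inv₀, K1.oneU_val hx, inv_one, mul_one]
  exact hx

theorem K2.pow {x : L} (hx : OneU O x) (n : ℕ) : OneU O (x ^ n) := by
  induction n with
  | zero => rw [pow_zero]; exact K2.one
  | succ n ih => rw [pow_succ]; exact K2.mul ih hx

theorem K2.prod {ι : Type*} (s : Finset ι) (f : ι → L) (h : ∀ i ∈ s, OneU O (f i)) :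
    OneU O (∏ i ∈ s, f i) := by
  classical
  induction s using Finset.induction_on with
  | empty => rw [Finset.prod_empty]; exact K2.one
  | insert a s ha ih =>
    rw [Finset.prod_insert ha]
    exact K2.mul (h a (Finset.mem_insert_self a s))
      (ih fun i hi => h i (Finset.mem_insert_of_mem hi))

theorem K2.val_comap {L' : Type*} [Field L'] (w : ValuationSubring L') (f : L →+* L') (x : L) :
    (w.comap f).valuation x < 1 ↔ w.valuation (f x) < 1 := by
  rw [K1.val_lt_one_iff, K1.val_lt_one_iff, map_eq_zero, ValuationSubring.mem_comap, map_inv₀]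

end K2aux

theorem K2.sum_fixed {F L : Type*} [Field F] [Field L] [Algebra F L] [FiniteDimensional F L]
    (x : L) (j : ℕ) (ρ : L ≃ₐ[F] L) :
    ρ (∑ A ∈ Finset.powersetCard j (Finset.univ : Finset (L ≃ₐ[F] L)), ∏ σ ∈ A, σ x) =
      ∑ A ∈ Finset.powersetCard j (Finset.univ : Finset (L ≃ₐ[F] L)), ∏ σ ∈ A, σ x := by
  classical
  rw [map_sum]
  have hu : (Finset.univ : Finset (L ≃ₐ[F] L)) =
      Finset.univ.map (Equiv.mulLeft ρ).toEmbedding := (Finset.map_univ_equiv _).symm
  conv_rhs => rw [hu, Finset.powersetCard_map, Finset.sum_map]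
  refine Finset.sum_congr rfl fun A _ => ?_
  rw [map_prod]
  simp [Finset.mapEmbedding_apply, Finset.prod_map]

theorem immediate_finite {F L : Type*} [Field F] [Field L] [Algebra F L] [FiniteDimensional F L]
    [IsGalois F L] {p : ℕ} (hp : p.Prime) (hp0 : (p : F) ≠ 0) (hP : IsPGroup p (L ≃ₐ[F] L))
    (hG : Geo F) (w : ValuationSubring L) {x : L} (hx0 : x ≠ 0)
    (hx : ∀ σ ∈ Zd F w, σ x = x) : ∃ y : F, y ≠ 0 ∧ OneU w (x / algebraMap F L y) := by
  classical
  have hGL : Geo L := Geo.map hG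
  have hZcomap : ∀ σ : L ≃ₐ[F] L, w.comap (σ : L →+* L) = w ↔ σ ∈ Zd F w := by
    intro σ
    rw [mem_Zd]
    constructor
    · intro h y
      conv_lhs => rw [← h]
      rw [ValuationSubring.mem_comap]
      rfl
    · intro h
      ext y
      rw [ValuationSubring.mem_comap]
      exact (h y).symm
  have hlies : ∀ (σ : L ≃ₐ[F] L) (y : F), algebraMap F L y ∈ w.comap (σ : L →+* L) ↔
      algebraMap F L y ∈ w := by
    intro σ y
    rw [ValuationSubring.mem_comap]
    simp
  -- the element `e`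
  obtain ⟨e, he1, he2⟩ := exists_e hGL w
    ((Finset.univ.filter (fun σ : L ≃ₐ[F] L => σ ∉ Zd F w)).image
      (fun σ : L ≃ₐ[F] L => w.comap (σ : L →+* L))) (by
    intro O hO
    obtain ⟨σ, hσ, rfl⟩ := Finset.mem_image.mp hO
    rw [Finset.mem_filter] at hσ
    refine ⟨fun hle => hσ.2 ((hZcomap σ).mp ?_), fun hle => hσ.2 ((hZcomap σ).mp ?_)⟩
    · exact (eq_of_le_of_lies (F := F) hle (fun y => (hlies σ y).symm)).symm
    · exact eq_of_le_of_lies (F := F) hle (fun y => hlies σ y))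
  have he3 : ∀ σ : L ≃ₐ[F] L, σ ∉ Zd F w → w.valuation (σ e) < 1 := by
    intro σ hσ
    have h1 := he2 _ (Finset.mem_image_of_mem _ (Finset.mem_filter.mpr ⟨Finset.mem_univ σ, hσ⟩))
    exact (K2.val_comap w (σ : L →+* L) e).mp h1
  have he4 : ∀ σ : L ≃ₐ[F] L, σ ∈ Zd F w → OneU w (σ e) := by
    intro σ hσ
    have h1 : (w.comap (σ : L →+* L)).valuation (e - 1) < 1 := by
      rw [K1.val_lt_one_iff, (hZcomap σ).mpr hσ, ← K1.val_lt_one_iff]
      exact he1
    rw [K2.val_comap] at h1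
    show w.valuation (σ e - 1) < 1
    have h5 : (σ : L →+* L) (e - 1) = σ e - 1 := by simp
    rwa [h5] at h1
  -- the element `β`
  set Z : Finset (L ≃ₐ[F] L) := Finset.univ.filter (fun σ => σ ∈ Zd F w) with hZ
  have hmemZ : ∀ σ, σ ∈ Z ↔ σ ∈ Zd F w := fun σ => by simp [hZ]
  set β : L := ∏ τ ∈ Z, τ e with hβ
  have hβ1 : OneU w β := K2.prod _ _ fun τ hτ => he4 τ ((hmemZ τ).mp hτ)
  have hβ0 : β ≠ 0 := K2.ne_zero hβ1
  have hβfix : ∀ ρ ∈ Zd F w, ρ β = β := by
    intro ρ hρ
    rw [hβ, map_prod]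
    refine Finset.prod_bij (fun τ _ => ρ * τ) ?_ ?_ ?_ ?_
    · intro τ hτ
      exact (hmemZ _).mpr ((Zd F w).mul_mem hρ ((hmemZ τ).mp hτ))
    · intro a _ b _ hab
      exact mul_left_cancel hab
    · intro τ hτ
      refine ⟨ρ⁻¹ * τ, (hmemZ _).mpr ((Zd F w).mul_mem ((Zd F w).inv_mem hρ) ((hmemZ τ).mp hτ)),
        ?_⟩
      rw [mul_inv_cancel_left]
    · intro τ _
      rfl
  have hβlt : ∀ σ : L ≃ₐ[F] L, σ ∉ Zd F w → w.valuation (σ β) < 1 := by
    intro σ hσ
    rw [hβ, map_prod, map_prod]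
    have hall : ∀ τ ∈ Z, w.valuation (σ (τ e)) < 1 := by
      intro τ hτ
      refine he3 (σ * τ) fun h => hσ ?_
      have h1 := (Zd F w).mul_mem h ((Zd F w).inv_mem ((hmemZ τ).mp hτ))
      rwa [mul_inv_cancel_right] at h1
    have h1Z : (1 : L ≃ₐ[F] L) ∈ Z := (hmemZ 1).mpr (Zd F w).one_mem
    rw [← Finset.mul_prod_erase Z _ h1Z]
    refine mul_lt_one_of_lt_of_le (hall 1 h1Z) ?_
    exact Finset.prod_le_one' (fun τ hτ => (hall τ (Finset.mem_of_mem_erase hτ)).le)
  -- the exponent `m`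
  obtain ⟨m, hm⟩ : ∃ m : ℕ, ∀ σ : L ≃ₐ[F] L, σ ∉ Zd F w →
      w.valuation (σ (β ^ m * x)) ≠ w.valuation x := by
    have hsub : ∀ σ : L ≃ₐ[F] L, σ ∉ Zd F w →
        {m : ℕ | w.valuation (σ (β ^ m * x)) = w.valuation x}.Subsingleton := by
      intro σ hσ a ha b hb
      have hσβ : 0 < w.valuation (σ β) :=
        zero_lt_iff.mpr ((Valuation.ne_zero_iff _).mpr (by simpa using hβ0))
      have hσx : w.valuation (σ x) ≠ 0 := (Valuation.ne_zero_iff _).mpr (by simpa using hx0)
      have h1 : w.valuation (σ (β ^ a * x)) = w.valuation (σ (β ^ b * x)) := by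
        rw [show w.valuation (σ (β ^ a * x)) = w.valuation x from ha,
          show w.valuation (σ (β ^ b * x)) = w.valuation x from hb]
      rw [map_mul, map_mul, map_pow, map_mul, map_mul, map_pow, map_pow, map_pow] at h1
      have h2 := mul_right_cancel₀ hσx h1
      exact (pow_right_strictAnti₀ hσβ (hβlt σ hσ)).injective h2
    have hfin : (⋃ σ ∈ {σ : L ≃ₐ[F] L | σ ∉ Zd F w},
        {m : ℕ | w.valuation (σ (β ^ m * x)) = w.valuation x}).Finite :=
      Set.Finite.biUnion (Set.toFinite _) fun σ hσ => (hsub σ hσ).finite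
    obtain ⟨m, hm⟩ := hfin.exists_notMem
    refine ⟨m, fun σ hσ h => hm ?_⟩
    exact Set.mem_biUnion hσ h
  set x' : L := β ^ m * x with hx'
  have hx'0 : x' ≠ 0 := mul_ne_zero (pow_ne_zero _ hβ0) hx0
  have hvx' : w.valuation x' = w.valuation x := by
    rw [hx', map_mul, map_pow, K1.oneU_val hβ1, one_pow, one_mul]
  have hx'fix : ∀ ρ ∈ Zd F w, ρ x' = x' := by
    intro ρ hρ
    rw [hx', map_mul, map_pow, hβfix ρ hρ, hx ρ hρ]
  have hiff : ∀ σ : L ≃ₐ[F] L, σ x' = x' ↔ σ ∈ Zd F w := by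
    intro σ
    refine ⟨fun h => ?_, fun h => hx'fix σ h⟩
    by_contra hσ
    apply hm σ hσ
    rw [h, hvx']
  -- the number of conjugates equal to `x'`
  have hcard : Nat.card {σ : L ≃ₐ[F] L // σ x' = (1 : L ≃ₐ[F] L) x'} = Nat.card (Zd F w) := by
    apply Nat.card_congr
    exact Equiv.subtypeEquivRight fun σ => by rw [AlgEquiv.one_apply]; exact hiff σ
  have hn : w.valuation ((Nat.card (Zd F w) : ℕ) : L) = 1 := by
    have : Fact p.Prime := ⟨hp⟩
    obtain ⟨r, hr⟩ := IsPGroup.iff_card.mp (hP.to_subgroup (Zd F w))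
    apply val_natCast hGL
    rw [hr, Nat.cast_pow]
    apply pow_ne_zero
    intro h0
    apply hp0
    apply (algebraMap F L).injective
    rw [map_natCast, h0, map_zero]
  obtain ⟨j, hj0, hj⟩ := esymm_quot w.valuation (fun σ : L ≃ₐ[F] L => σ x')
    (fun σ => by simpa using hx'0) 1 (by
      intro σ h
      have h1 : w.valuation (σ x') = w.valuation x' := h
      show σ x' = x'
      rw [hiff]
      by_contra hσ
      exact hm σ hσ (h1.trans hvx')) _ hcard hn
  have hF : ∀ j : ℕ, ∃ y : F, algebraMap F L y =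
      ∑ A ∈ Finset.powersetCard j (Finset.univ : Finset (L ≃ₐ[F] L)), ∏ σ ∈ A, σ x' := by
    intro j
    exact (IsGalois.mem_range_algebraMap_iff_fixed _).mpr (K2.sum_fixed x' j)
  obtain ⟨a, ha⟩ := hF (j + 1)
  obtain ⟨b, hb⟩ := hF j
  have hone : OneU w (algebraMap F L (a / (Nat.card (Zd F w) * b)) / x') := by
    show w.valuation _ < 1
    rw [← ha, ← hb] at hj
    have e1 : algebraMap F L (a / (Nat.card (Zd F w) * b)) / x' =
        algebraMap F L a / (Nat.card (Zd F w) * algebraMap F L b * (1 : L ≃ₐ[F] L) x') := by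
      rw [map_div₀, map_mul, map_natCast, AlgEquiv.one_apply, div_div]
    rw [e1]
    exact hj
  refine ⟨a / (Nat.card (Zd F w) * b), ?_, ?_⟩
  · intro h0
    apply K2.ne_zero hone
    rw [h0, map_zero, zero_div]
  · have hY0 : algebraMap F L (a / (Nat.card (Zd F w) * b)) ≠ 0 := by
      intro h0
      apply K2.ne_zero hone
      rw [h0, zero_div]
    have e2 : x / algebraMap F L (a / (Nat.card (Zd F w) * b)) =
        (β ^ m)⁻¹ * (algebraMap F L (a / (Nat.card (Zd F w) * b)) / x')⁻¹ := by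
      rw [inv_div, hx']
      field_simp
    rw [e2]
    exact K2.mul (K2.inv (K2.pow hβ1 m)) (K2.inv hone)

theorem immediate {F K : Type*} [Field F] [Field K] [Algebra F K] {p : ℕ} {ζ : K}
    (Cx : Ctx p F K ζ) (hG : Geo F) (w : ValuationSubring K) {x : K} (hx0 : x ≠ 0)
    (hx : ∀ σ ∈ Zd F w, σ x = x) : ∃ y : F, y ≠ 0 ∧ OneU w (x / algebraMap F K y) := by
  classical
  have hgal : IsGalois F K := Cx.pc.gal
  have hp := Cx.hp
  have hp0 : (p : F) ≠ 0 := by
    have : NeZero p := ⟨hp.ne_zero⟩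
    have h1 := Cx.hζ.neZero'
    intro h0
    apply h1.ne
    rw [← map_natCast (algebraMap F K), h0, map_zero]
  obtain ⟨u, hu⟩ := IsCompact.elim_finite_subfamily_closed
    (s := {σ : K ≃ₐ[F] K | σ x ≠ x})
    (K1.isClosed_apply x (fun y => y ≠ x)).isCompact
    (fun z : K => {σ : K ≃ₐ[F] K | z ∈ w ↔ σ z ∈ w})
    (fun z => K1.isClosed_apply z (fun y => z ∈ w ↔ y ∈ w)) (by
      rw [Set.eq_empty_iff_forall_notMem]
      rintro σ ⟨h1, h2⟩
      rw [Set.mem_iInter] at h2
      exact h1 (hx σ (mem_Zd.mpr fun z => h2 z)))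
  have hfin : FiniteDimensional F (IntermediateField.adjoin F ((insert x u : Finset K) : Set K)) :=
    IntermediateField.finiteDimensional_adjoin
      (fun x _ => Algebra.IsIntegral.isIntegral x)
  set M := IntermediateField.adjoin F ((insert x u : Finset K) : Set K) with hM
  set N := IntermediateField.normalClosure F M K with hN
  have hMN : M ≤ N := IntermediateField.le_normalClosure M
  have hmem : ∀ z ∈ insert x u, z ∈ N := fun z hz =>
    hMN (IntermediateField.subset_adjoin F _ hz)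
  have hNfin : FiniteDimensional F N := inferInstance
  have hNgal : IsGalois F N := inferInstance
  have hxN : x ∈ N := hmem x (Finset.mem_insert_self _ _)
  obtain ⟨y, hy0, hy⟩ := immediate_finite (F := F) (L := N) hp hp0
    (isPGroup_of_PCl Cx.pc N) hG (w.comap (algebraMap N K)) (x := ⟨x, hxN⟩)
    (fun h => hx0 (congrArg Subtype.val h)) (by
      intro τ hτ
      obtain ⟨σ, hσ⟩ := AlgEquiv.restrictNormalHom_surjective (F := F) (K₁ := N) K τ
      have hστ : ∀ z : N, algebraMap N K (τ z) = σ z := by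
        intro z
        rw [← hσ]
        exact AlgEquiv.restrictNormal_commutes σ N z
      apply Subtype.ext
      show algebraMap N K (τ ⟨x, hxN⟩) = x
      rw [hστ]
      by_contra hne
      have h1 : σ ∈ ({σ : K ≃ₐ[F] K | σ x ≠ x} ∩
          ⋂ z ∈ u, {σ : K ≃ₐ[F] K | z ∈ w ↔ σ z ∈ w} : Set (K ≃ₐ[F] K)) := by
        refine ⟨hne, ?_⟩
        rw [Set.mem_iInter₂]
        intro z hz
        have h2 := mem_Zd.mp hτ ⟨z, hmem z (Finset.mem_insert_of_mem hz)⟩
        rw [ValuationSubring.mem_comap, ValuationSubring.mem_comap, hστ] at h2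
        exact h2
      rw [hu] at h1
      exact h1)
  refine ⟨y, hy0, ?_⟩
  have h1 : (w.comap (algebraMap N K)).valuation ((⟨x, hxN⟩ : N) / algebraMap F N y - 1) < 1 := hy
  rw [K2.val_comap] at h1
  have h2 : algebraMap N K ((⟨x, hxN⟩ : N) / algebraMap F N y - 1) = x / algebraMap F K y - 1 := by
    rw [map_sub, map_div₀, map_one, ← IsScalarTower.algebraMap_apply]
    rfl
  rw [h2] at h1
  exact h1

end Pool.Agent.Helper2.EG
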