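import Pool.Agent.Helper2.EG.K2

/-!
# K3: `p`-th roots of one-units; dominance over the decomposition field; inertia

PROOF `root_one`.  `K` is closed under `p`-th roots (`Cx.pc.root`): `s^p = a`; `s^p - 1 = ∏ (s - ζ^j)`
has valuation `< 1`, so `w.valuation (s - ζ^j) < 1` for some `j`; `r = s / ζ^j`.  For `σ ∈ Zd F w`:
`(σ r)^p = r^p`, so `σ r = ζ^i r`, and `OneU w (σ r)`; so `w.valuation (ζ^i - 1) < 1`, which forces
`ζ^i = 1` (roots of unity: `val_sub_roots`).
PROOF `dominant'`.  Apply Helper25's `dominant` with `E` the fixed field of `Zd F w` and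
`Hn p E w` (from `root_one`; `p` is a unit by `val_natCast`).
PROOF `fixed_class`.  `α` fixed by `Zd F w`, `α^p = a ∈ F`: `immediate` gives `y ∈ F`,
`OneU w (α / y)`, so `OneU w (a / y^p)`.
PROOF `inertia'`.  Let `E` be the fixed field of `Zd F w` (an intermediate field of `K/F`).  Apply
Helper25's theorem `inertia` to the extension `K / E` (base field `E`; `Ctx p E K ζ` holds: `K/E` is
Galois, etc.): every automorphism of `K/E` preserves `w`, because `Zd F w` is closed, so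
`Gal(K/E) = Zd F w`.  The hypothesis `Nd p ⊥ w` (there is `z ∈ E` such that `z y^p` is never a unit,
`y ∈ E`): take `x ∈ F` with no `y ∈ F` such that `x y^p` is a unit at `O` (negation of `PDiv`); if
`y ∈ E`, `y ≠ 0`, `immediate` gives `y' ∈ F` with the same valuation.
-/

set_option autoImplicit false

namespace Pool.Agent.Helper2.EG

open Pool.Agent.Helper25.ETC Finset

variable {F K : Type*} [Field F] [Field K] [Algebra F K] {p : ℕ} {ζ : K}

theorem root_one (Cx : Ctx p F K ζ) (hζF : ζ ∈ (algebraMap F K).range) (hG : Geo F)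
    (w : ValuationSubring K) {a : K} (ha : OneU w a) (hfix : ∀ σ ∈ Zd F w, σ a = a) :
    ∃ r : K, r ^ p = a ∧ OneU w r ∧ ∀ σ ∈ Zd F w, σ r = r := by
  sorry

theorem dominant' (Cx : Ctx p F K ζ) (hζF : ζ ∈ (algebraMap F K).range) (hG : Geo F)
    (w : ValuationSubring K) {α : K} (hα : ∃ σ ∈ Zd F w, σ α ≠ α)
    (hαp : ∀ σ ∈ Zd F w, σ (α ^ p) = α ^ p) {e : ℕ → K} (he : ∀ j, ∀ σ ∈ Zd F w, σ (e j) = e j)
    {i : ℕ} (hi : i < p) :
    w.valuation (e i * α ^ i) ≤ w.valuation (∑ j ∈ range p, e j * α ^ j) := by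
  sorry

theorem fixed_class (Cx : Ctx p F K ζ) (hG : Geo F) (w : ValuationSubring K) {α : K}
    (hα0 : α ≠ 0) {a : F} (hα : α ^ p = algebraMap F K a) (hfix : ∀ σ ∈ Zd F w, σ α = α) :
    ∃ y : F, y ≠ 0 ∧ OneU w (algebraMap F K (a / y ^ p)) := by
  sorry

theorem inertia' (Cx : Ctx p F K ζ) (hζF : ζ ∈ (algebraMap F K).range) (hG : Geo F)
    (w : ValuationSubring K) (O : ValuationSubring F) (hwO : Lies w O) (hO : ¬ PDiv p O) :
    ∃ σ ∈ Zd F w, σ ≠ 1 ∧ ∀ x ∈ w, w.valuation (σ x - x) < 1 := by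
  sorry

end Pool.Agent.Helper2.EG
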