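import Pool.Agent.Helper2.EG.K3
import Pool.Agent.Helper2.EG.K6

/-!
# K7: Kummer theory, characters of decomposition groups

PROOF `kummer`.  `χ` a continuous character of a subgroup `D`; `c σ = ζ^(χ σ)` is a 1-cocycle on `D`
with values in `K*` (`ζ ∈ F` is fixed), so `hilbert90` gives `y` with `σ y = ζ^(χ σ) y`.
PROOF `char_decomp`.  `D = Zd F w`: `y` as above; `y^p` is fixed by `Zd F w`; `immediate`: `a ∈ F` with
`OneU w (y^p / a)`; `root_one`: `y^p / a = r^p` with `r` fixed by `Zd F w`; `α = y / r`: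
`α^p = a ∈ F`, `σ α = ζ^(χ σ) α`.
PROOF `char_trivial`.  If `OneU O a`, `α^p = a`: then `root_one` gives a root `r` of `a` fixed by
`Zd F w`; `α = ζ^i r` is fixed too.
-/

set_option autoImplicit false

namespace Pool.Agent.Helper2.EG

open Pool.Agent.Helper25.ETC

variable {F K : Type*} [Field F] [Field K] [Algebra F K] {p : ℕ} {ζ : K}

theorem kummer (Cx : Ctx p F K ζ) (hζF : ζ ∈ (algebraMap F K).range)
    (D : Subgroup (K ≃ₐ[F] K)) (χ : D →* Multiplicative (ZMod p)) (hχ : Cts χ) :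
    ∃ α : K, α ≠ 0 ∧ ∀ σ : D, (σ : K ≃ₐ[F] K) α = ζ ^ (Multiplicative.toAdd (χ σ)).val * α := by
  sorry

theorem char_decomp (Cx : Ctx p F K ζ) (hζF : ζ ∈ (algebraMap F K).range) (hG : Geo F)
    (w : ValuationSubring K) (χ : Zd F w →* Multiplicative (ZMod p)) (hχ : Cts χ) :
    ∃ (a : F) (α : K), a ≠ 0 ∧ α ^ p = algebraMap F K a ∧
      ∀ σ : Zd F w, (σ : K ≃ₐ[F] K) α = ζ ^ (Multiplicative.toAdd (χ σ)).val * α := by
  sorry

theorem char_trivial (Cx : Ctx p F K ζ) (hζF : ζ ∈ (algebraMap F K).range) (hG : Geo F)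
    (w : ValuationSubring K) (O : ValuationSubring F) (hwO : Lies w O) {a : F} {α : K}
    (hα : α ^ p = algebraMap F K a) (ha : OneU O a) : ∀ σ ∈ Zd F w, σ α = α := by
  sorry

end Pool.Agent.Helper2.EG
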