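import Pool.Agent.Helper2.EG.K6

/-!
# K8: splitting of embedding problems over subgroups

PROOFS.
`splitOn_of_lift`: `l : D →* P` a lift; `x σ g = ι (g * (l σ)⁻¹)` (the argument is in `ker π`, which
is central; `ι` has values in `p`-th roots of unity, which lie in `F`).
`lift_of_splitOn`: `x^p` is a 1-cocycle on the fibre product, trivial on `ker π`
(`x σ (g z) = x σ g * σ (x 1 z)`), so `c σ = (x σ g)^p` (any `g` over `ψ σ`) is a well defined
cocycle on `D` (for `σ ∈ D`; continuous by the last clause); `hilbert90`: `c σ = σ e / e`,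
`e = ε^p` (`Cx.pc.root`), so `x' σ g = x σ g * ε / σ ε` satisfies `x'^p = 1`; it is
multiplicative (values are fixed by `G`) and for each `σ ∈ D` there is exactly one `g` over `ψ σ` with
`x' σ g = 1` (`onto`, `inj`, `x' σ (g z) = x' σ g * ι z`); `l σ = g` is a homomorphism;
continuity: `L` and `ε`: if `τ` fixes `L` and `ε` then `ψ τ = 1`, `x' τ 1 = 1`, so `l τ = 1`.
`splitOn_ker`: `D ≤ ker ψ`: `x σ g = ι g`; for the last clause take `L` from `cts`.
`splitOn_mono`: obvious.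
`splitOn_conj`: from `x` for `D` get for `σ D σ⁻¹`: `x' τ h = σ (x (σ⁻¹ τ σ) (g⁻¹ h g))`, `g` a lift
of `ψ σ` (`surj`); the field `σ L`.
-/

set_option autoImplicit false

namespace Pool.Agent.Helper2.EG

open Pool.Agent.Helper25.ETC

variable {F K : Type*} [Field F] [Field K] [Algebra F K] {p : ℕ} {ζ : K}
  {P Q : Type*} [Group P] [Group Q] {π : P →* Q} {ψ : (K ≃ₐ[F] K) →* Q} {ι : P → K}

theorem splitOn_of_lift (Cx : Ctx p F K ζ) (hζF : ζ ∈ (algebraMap F K).range)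
    (Em : EmbData p F K π ψ ι) {D : Subgroup (K ≃ₐ[F] K)} (h : LiftOn π ψ D) :
    SplitOn π ψ ι D := by
  sorry

theorem lift_of_splitOn (Cx : Ctx p F K ζ) (hζF : ζ ∈ (algebraMap F K).range)
    (Em : EmbData p F K π ψ ι) {D : Subgroup (K ≃ₐ[F] K)} (h : SplitOn π ψ ι D) :
    LiftOn π ψ D := by
  sorry

theorem splitOn_ker (Cx : Ctx p F K ζ) (hζF : ζ ∈ (algebraMap F K).range)
    (Em : EmbData p F K π ψ ι) {D : Subgroup (K ≃ₐ[F] K)} (h : ∀ σ ∈ D, ψ σ = 1) :
    SplitOn π ψ ι D := by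
  sorry

theorem splitOn_mono {D D' : Subgroup (K ≃ₐ[F] K)} (hle : D' ≤ D) (h : SplitOn π ψ ι D) :
    SplitOn π ψ ι D' := by
  sorry

theorem splitOn_conj (Em : EmbData p F K π ψ ι) {D D' : Subgroup (K ≃ₐ[F] K)}
    (σ : K ≃ₐ[F] K) (hD : ∀ τ ∈ D', σ⁻¹ * τ * σ ∈ D) (h : SplitOn π ψ ι D) :
    SplitOn π ψ ι D' := by
  sorry

end Pool.Agent.Helper2.EG
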