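import Pool.Agent.Helper2.EG.Basic

/-!
# M1: the ultrafilter of finite subfields; algebraic extensions of `F_l` are locally finite

PROOF `exists_goodU`.  The filter generated by the sets `{K₀ | Finite K₀ ∧ ∀ a ∈ s, a ∈ K₀}`
(`s : Finset k`) is proper by `hk` (these sets are closed under finite intersections:
`s ∪ s'`).  Take `Ultrafilter.of` of it.
PROOF `locFin_of_algebraic`.  For a finite set `s` of elements algebraic over `ZMod l` the field
`IntermediateField.adjoin (ZMod l) s` is finite dimensional over the finite field `ZMod l`, hence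
finite; take the corresponding `Subfield`.
-/

set_option autoImplicit false

namespace Pool.Agent.Helper2.EG

theorem exists_goodU {k : Type*} [Field k]
    (hk : ∀ s : Finset k, ∃ K₀ : Subfield k, Finite K₀ ∧ ∀ a ∈ s, a ∈ K₀) :
    ∃ 𝒰 : Ultrafilter (Subfield k), GoodU 𝒰 := by
  sorry

theorem locFin_of_algebraic (l : ℕ) [Fact l.Prime] (k : Type*) [Field k] [Algebra (ZMod l) k]
    [Algebra.IsAlgebraic (ZMod l) k] :
    ∀ s : Finset k, ∃ K₀ : Subfield k, Finite K₀ ∧ ∀ a ∈ s, a ∈ K₀ := by
  sorry

end Pool.Agent.Helper2.EG
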