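import Pool.Agent.Helper2.EG.Basic

/-!
# M2: boxes are `K₀`-forms

`b : Fin n → F` is a `k`-linearly independent family, `B` a `k`-basis of `F` (possibly infinite).
For almost all finite subfields `K₀`: `∑ t_j b_j` has all its `B`-coordinates in `K₀` iff all
`t_j ∈ K₀`.  PROOF: only finitely many coordinates `i ∈ I` of the `b_j` are nonzero; the matrix
`M = (B.repr (b j) i)`, `i ∈ I`, has linearly independent columns, so it has a left inverse `L`
(`L * M = 1`).  Take `K₀` containing the (finitely many) entries of `M` and `L`: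
`t ∈ K₀^n → M t ∈ K₀^I`, and `M t ∈ K₀^I → t = L (M t) ∈ K₀^n`.
(Use `h𝒰.mem` and `Filter.eventually_all_finset`/`Filter.eventually_all`.)

`box_card`: apply this to a basis `b` of the finite dimensional `E`: `t ↦ ∑ t_j b_j` is a bijection
from `(Fin n → K₀)` onto the box.

`box_card_sup`: `C` finite dimensional, `x ∉ C`: the box of `C ⊔ k x` has
`(box of C) * |K₀|` elements; `box_card` and `finrank (C ⊔ span {x}) = finrank C + 1`.
-/

set_option autoImplicit false

namespace Pool.Agent.Helper2.EG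

variable {k F : Type*} [Field k] [Field F] [Algebra k F] {ι : Type*}
  {𝒰 : Ultrafilter (Subfield k)}

theorem box_form (h𝒰 : GoodU 𝒰) (B : Module.Basis ι k F) {n : ℕ} (b : Fin n → F)
    (hb : LinearIndependent k b) :
    ∀ᶠ K₀ : Subfield k in (𝒰 : Filter (Subfield k)), ∀ t : Fin n → k,
      (∀ i, B.repr (∑ j, t j • b j) i ∈ K₀) ↔ ∀ j, t j ∈ K₀ := by
  sorry

theorem box_card (h𝒰 : GoodU 𝒰) (B : Module.Basis ι k F) (E : Submodule k F)
    [FiniteDimensional k E] :
    ∀ᶠ K₀ : Subfield k in (𝒰 : Filter (Subfield k)), Finite K₀ ∧ (box B E K₀).Finite ∧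
      (box B E K₀).ncard = Nat.card K₀ ^ Module.finrank k E := by
  sorry

theorem box_card_sup (h𝒰 : GoodU 𝒰) (B : Module.Basis ι k F) (C : Submodule k F)
    [FiniteDimensional k C] {x : F} (hx : x ∉ C) :
    ∀ᶠ K₀ : Subfield k in (𝒰 : Filter (Subfield k)),
      (box B (C ⊔ Submodule.span k {x}) K₀).ncard = (box B C K₀).ncard * Nat.card K₀ := by
  sorry

end Pool.Agent.Helper2.EG
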