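import Pool.Agent.Helper2.EG.Basic

/-!
# M3: second moment method in a finite vector space

`X` is a finite additive subgroup of the `k`-space `M`, closed under multiplication by the finite
subfield `K₀`; `A, B, C ⊆ X` have density `≥ δ`, `H ⊆ K₀` is a finite set of scalars with
`|H| δ^3 > 1`.  Then there are `x ∈ A`, `y ∈ B`, `h ∈ H` with `x + h y ∈ C`.
PROOF.  For `(x, y) ∈ X²` let `N(x,y) = #{h ∈ H : x + h y ∈ C}`.  For `h ≠ g` in `H` the map
`(x,y) ↦ (x + h y, x + g y)` is a bijection of `X²` (inverse `y = (u - v)/(h - g)`,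
`x = u - h y`), for `h = g` the map `(x, y) ↦ x + h y` has all fibres of size `|X|`.  Hence
`∑ N = |H| |C| |X|` and `∑ N² = |H| |C| |X| + |H|(|H|-1) |C|²`, so
`∑ (N - |H| |C|/|X|)² = |H| |C| |X| - |H| |C|² ≤ |H| |C| |X|`.  If `N = 0` on `A × B`, then
`|A| |B| (|H| |C| / |X|)² ≤ |H| |C| |X|`, i.e. `|A| |B| |C| |H| ≤ |X|³`, so `δ³ |H| ≤ 1`.
(A proof without subtraction: Cauchy-Schwarz on the support of `N`:
`(∑ N)² ≤ #{N > 0} ∑ N²`, and `#{N > 0} ≤ |X|² - |A| |B|`.)
-/

set_option autoImplicit false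

namespace Pool.Agent.Helper2.EG

theorem M3.sum_shift {M : Type*} [AddCommGroup M] (X : AddSubgroup M) [Fintype X] (f : M → ℝ)
    {t : M} (ht : t ∈ X) : ∑ x : X, f ((x : M) + t) = ∑ x : X, f (x : M) := by
  refine Fintype.sum_equiv (Equiv.addRight (⟨t, ht⟩ : X)) _ _ ?_
  intro x
  rfl

theorem M3.sum_smul {k M : Type*} [Field k] [AddCommGroup M] [Module k M] (K₀ : Subfield k)
    (X : AddSubgroup M) [Fintype X] (hsmul : ∀ a ∈ K₀, ∀ x ∈ X, a • x ∈ X) (f : M → ℝ)
    {d : k} (hd : d ∈ K₀) (hd0 : d ≠ 0) {x : M} (hx : x ∈ X) :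
    ∑ y : X, f (x + d • (y : M)) = ∑ z : X, f (z : M) := by
  let e : X ≃ X :=
    { toFun := fun y => ⟨x + d • (y : M), X.add_mem hx (hsmul d hd _ y.2)⟩
      invFun := fun z => ⟨d⁻¹ • ((z : M) - x), hsmul _ (K₀.inv_mem hd) _ (X.sub_mem z.2 hx)⟩
      left_inv := by
        intro y
        apply Subtype.ext
        simp [smul_smul, inv_mul_cancel₀ hd0]
      right_inv := by
        intro z
        apply Subtype.ext
        simp [smul_smul, mul_inv_cancel₀ hd0] }
  refine Fintype.sum_equiv e _ _ ?_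
  intro y
  rfl

theorem second_moment {k M : Type*} [Field k] [AddCommGroup M] [Module k M] (K₀ : Subfield k)
    [Finite K₀] (X : AddSubgroup M) [Finite X] (hsmul : ∀ a ∈ K₀, ∀ x ∈ X, a • x ∈ X)
    (A B C : Set M) (hA : A ⊆ X) (hB : B ⊆ X) (hC : C ⊆ X) (H : Finset k)
    (hH : ∀ h ∈ H, h ∈ K₀) (δ : ℝ) (hδ : 0 < δ) (hAδ : δ * (Nat.card X : ℝ) ≤ (A.ncard : ℝ))
    (hBδ : δ * (Nat.card X : ℝ) ≤ (B.ncard : ℝ)) (hCδ : δ * (Nat.card X : ℝ) ≤ (C.ncard : ℝ))
    (hbig : 1 < (H.card : ℝ) * δ ^ 3) :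
    ∃ x ∈ A, ∃ y ∈ B, ∃ h ∈ H, x + h • y ∈ C := by
  classical
  by_contra hcon
  push Not at hcon
  have := Fintype.ofFinite X
  set n : ℝ := (Nat.card X : ℝ) with hn
  have hn0 : 0 < n := by
    rw [hn]; exact_mod_cast Nat.card_pos
  set m : ℝ := (H.card : ℝ) with hm
  set c : ℝ := (C.ncard : ℝ) with hc
  let g : M → ℝ := fun z => if z ∈ C then 1 else 0
  have hcard : ∀ S : Set M, S ⊆ X → ∑ x : X, (if (x : M) ∈ S then (1 : ℝ) else 0) = S.ncard := by
    intro S hS
    rw [Finset.sum_boole]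
    norm_cast
    rw [← Set.ncard_coe_finset, ← Set.ncard_image_of_injective _ Subtype.val_injective]
    congr 1
    ext z
    simp only [Finset.coe_filter, Finset.mem_univ, true_and, Set.mem_image, Set.mem_setOf_eq,
      Subtype.exists, exists_and_right, exists_eq_right]
    exact ⟨fun h => h.2, fun h => ⟨hS h, h⟩⟩
  have hgc : ∑ x : X, g (x : M) = c := hcard C hC
  have hgg : ∀ z, g z * g z = g z := by
    intro z
    simp only [g]
    split_ifs <;> simp
  have hnX : (Fintype.card X : ℝ) = n := by rw [hn, Nat.card_eq_fintype_card]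
  let N : X → X → ℝ := fun x y => ∑ h ∈ H, g ((x : M) + h • (y : M))
  -- first moment
  have hS1 : ∀ h ∈ H, ∑ x : X, ∑ y : X, g ((x : M) + h • (y : M)) = n * c := by
    intro h hh
    rw [Finset.sum_comm]
    rw [Finset.sum_congr rfl (fun (y : X) _ => M3.sum_shift X g (hsmul h (hH h hh) _ y.2))]
    rw [hgc, Finset.sum_const, Finset.card_univ, nsmul_eq_mul, hnX]
  have hM1 : ∑ x : X, ∑ y : X, N x y = m * (n * c) := by
    have e : ∑ x : X, ∑ y : X, N x y =
        ∑ h ∈ H, ∑ x : X, ∑ y : X, g ((x : M) + h • (y : M)) := by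
      rw [Finset.sum_comm' (t' := Finset.univ) (s' := fun _ => H) (by simp)]
      refine Finset.sum_congr rfl fun x _ => ?_
      exact Finset.sum_comm
    rw [e, Finset.sum_congr rfl hS1, Finset.sum_const, nsmul_eq_mul]
  -- second moment
  have hS2 : ∀ h ∈ H, ∀ h' ∈ H, ∑ x : X, ∑ y : X,
      g ((x : M) + h • (y : M)) * g ((x : M) + h' • (y : M)) =
        if h = h' then n * c else c * c := by
    intro h hh h' hh'
    split_ifs with heq
    · subst heq
      rw [← hS1 h hh]
      exact Finset.sum_congr rfl fun x _ => Finset.sum_congr rfl fun y _ => hgg _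
    · rw [Finset.sum_comm]
      have e1 : ∀ y : X, ∑ x : X, g ((x : M) + h • (y : M)) * g ((x : M) + h' • (y : M)) =
          ∑ x : X, g (x : M) * g ((x : M) + (h' - h) • (y : M)) := by
        intro y
        have := M3.sum_shift X (fun z => g z * g (z + (h' - h) • (y : M)))
          (hsmul h (hH h hh) _ y.2)
        rw [← this]
        refine Finset.sum_congr rfl fun x _ => ?_
        congr 2
        rw [sub_smul]; abel
      rw [Finset.sum_congr rfl (fun y _ => e1 y), Finset.sum_comm]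
      have e2 : ∀ x : X, ∑ y : X, g (x : M) * g ((x : M) + (h' - h) • (y : M)) = g (x : M) * c := by
        intro x
        rw [← Finset.mul_sum, M3.sum_smul K₀ X hsmul g (K₀.sub_mem (hH h' hh') (hH h hh))
          (sub_ne_zero.mpr (Ne.symm heq)) x.2, hgc]
      rw [Finset.sum_congr rfl (fun x _ => e2 x), ← Finset.sum_mul, hgc]
  have hM2 : ∑ x : X, ∑ y : X, N x y * N x y = m * (n * c) + m * (m - 1) * (c * c) := by
    have e : ∑ x : X, ∑ y : X, N x y * N x y = ∑ h ∈ H, ∑ h' ∈ H, ∑ x : X, ∑ y : X,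
        g ((x : M) + h • (y : M)) * g ((x : M) + h' • (y : M)) := by
      have e1 : ∀ x y : X, N x y * N x y = ∑ h ∈ H, ∑ h' ∈ H,
          g ((x : M) + h • (y : M)) * g ((x : M) + h' • (y : M)) := by
        intro x y
        exact Finset.sum_mul_sum _ _ _ _
      rw [Finset.sum_congr rfl (fun x _ => Finset.sum_congr rfl (fun y _ => e1 x y))]
      rw [Finset.sum_congr rfl (fun x _ => Finset.sum_comm), Finset.sum_comm]
      refine Finset.sum_congr rfl fun h _ => ?_
      rw [Finset.sum_congr rfl (fun x _ => Finset.sum_comm), Finset.sum_comm]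
    rw [e, Finset.sum_congr rfl (fun h hh => Finset.sum_congr rfl (hS2 h hh))]
    have e2 : ∀ h ∈ H, ∑ h' ∈ H, (if h = h' then n * c else c * c) =
        n * c + (m - 1) * (c * c) := by
      intro h hh
      rw [← Finset.add_sum_erase _ _ hh, if_pos rfl]
      congr 1
      rw [Finset.sum_congr rfl (g := fun _ => c * c) (fun h' hh' => if_neg
        (Finset.ne_of_mem_erase hh').symm), Finset.sum_const, nsmul_eq_mul,
        Finset.card_erase_of_mem hh, Nat.cast_sub (Finset.card_pos.mpr ⟨h, hh⟩)]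
      simp [hm]
    rw [Finset.sum_congr rfl e2, Finset.sum_const, nsmul_eq_mul]
    ring
  -- variance
  have hvar : ∑ x : X, ∑ y : X, (N x y - m * c / n) ^ 2 = m * n * c - m * c * c := by
    have e : ∀ x y : X, (N x y - m * c / n) ^ 2 =
        N x y * N x y - 2 * (m * c / n) * N x y + (m * c / n) ^ 2 := by
      intro x y; ring
    rw [Finset.sum_congr rfl (fun x _ => Finset.sum_congr rfl (fun y _ => e x y))]
    simp only [Finset.sum_add_distrib, Finset.sum_sub_distrib, ← Finset.mul_sum]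
    rw [hM2, hM1]
    simp only [Finset.sum_const, Finset.card_univ, nsmul_eq_mul, hnX]
    field_simp
    ring
  have hle : (A.ncard : ℝ) * (B.ncard : ℝ) * (m * c / n) ^ 2 ≤
      ∑ x : X, ∑ y : X, (N x y - m * c / n) ^ 2 := by
    have e : (A.ncard : ℝ) * (B.ncard : ℝ) * (m * c / n) ^ 2 =
        ∑ x : X, ∑ y : X, (if (x : M) ∈ A then (1 : ℝ) else 0) *
          (if (y : M) ∈ B then (1 : ℝ) else 0) * (m * c / n) ^ 2 := by
      rw [← hcard A hA, ← hcard B hB, Finset.sum_mul_sum, Finset.sum_mul]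
      exact Finset.sum_congr rfl fun x _ => Finset.sum_mul _ _ _
    rw [e]
    refine Finset.sum_le_sum fun x _ => Finset.sum_le_sum fun y _ => ?_
    by_cases hxA : (x : M) ∈ A
    · by_cases hyB : (y : M) ∈ B
      · have hN : N x y = 0 := Finset.sum_eq_zero fun h hh => if_neg (hcon x hxA y hyB h hh)
        rw [if_pos hxA, if_pos hyB, hN]
        apply le_of_eq; ring
      · rw [if_neg hyB]; simp only [mul_zero, zero_mul]; positivity
    · rw [if_neg hxA]; simp only [zero_mul]; positivity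
  have hm0 : 0 < m := by
    by_contra h0
    have : m = 0 := le_antisymm (not_lt.mp h0) (by rw [hm]; positivity)
    rw [this, zero_mul] at hbig
    linarith
  have hc0 : 0 < c := lt_of_lt_of_le (mul_pos hδ hn0) hCδ
  have hA0 : 0 < δ * n := mul_pos hδ hn0
  rw [hvar] at hle
  have h1 : (A.ncard : ℝ) * (B.ncard : ℝ) * (m * c / n) ^ 2 ≤ m * n * c := by
    nlinarith [mul_pos (mul_pos hm0 hc0) hc0]
  have h2 : (δ * n) * (δ * n) * (m * c / n) ^ 2 ≤ m * n * c :=
    le_trans (mul_le_mul_of_nonneg_right (mul_le_mul hAδ hBδ hA0.le (by positivity))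
      (by positivity)) h1
  have h3 : (δ * n) * (δ * n) * (m * c / n) ^ 2 = δ ^ 2 * m * c * (m * c) := by
    field_simp
  rw [h3] at h2
  have h4 : δ ^ 2 * (m * c) ≤ n := by
    have : δ ^ 2 * (m * c) * (m * c) ≤ n * (m * c) := by linarith
    exact le_of_mul_le_mul_right this (mul_pos hm0 hc0)
  have h5 : δ ^ 2 * m * (δ * n) ≤ δ ^ 2 * m * c := mul_le_mul_of_nonneg_left hCδ (by positivity)
  have h6 : (m * δ ^ 3) * n ≤ 1 * n := by linarith
  have h7 := le_of_mul_le_mul_right h6 hn0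
  linarith

end Pool.Agent.Helper2.EG
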