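import Pool.Agent.Helper2.EG.M2
import Pool.Agent.Helper2.EG.M3

/-!
# M4: popular colours are isotropic

PROOF.  Let `δ > 0` be a common lower density of the three colour classes (minimum of the three
`δ`s).  For `K₀` in a set of the ultrafilter: `K₀` is finite, the box `X` is a finite additive
group (`boxG`), closed under `K₀`, the three classes have density `≥ δ`, and
`|K₀| > p (1 + 1/δ³) + 1` (`eventually_card`).  Let `H = {g^p : g ∈ K₀, g ≠ 0}`; since each fibre of
`g ↦ g^p` has at most `p` elements, `|H| ≥ (|K₀| - 1)/p`, so `|H| δ³ > 1`.  By `second_moment`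
there are `x` of colour `a`, `y` of colour `b`, `h = g^p ∈ H` with `z = x + h y` of colour `c`
(and `x, y, z ≠ 0`).  Now `φ (h • y) = φ ((algebraMap g)^p * y) = φ y = b`
(`IsCol.pow_p`), and the line relation `Stb.line` for `x + (h • y) = z` is the claim.
-/

set_option autoImplicit false

namespace Pool.Agent.Helper2.EG

variable {k F V : Type*} [Field k] [Field F] [Algebra k F] [AddCommGroup V] {ι : Type*}
  {𝒰 : Ultrafilter (Subfield k)} {p : ℕ} [Module (ZMod p) V]
  {ω : V →ₗ[ZMod p] V →ₗ[ZMod p] ZMod p} {φ : F → V}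

theorem pop_isotropic [Infinite k] (hp : p.Prime) (h𝒰 : GoodU 𝒰) (B : Module.Basis ι k F)
    (hφ : IsCol φ) (hS : Stb φ ω) (E : Submodule k F) [FiniteDimensional k E] {a b c : V}
    (ha : a ∈ Pop 𝒰 B φ E) (hb : b ∈ Pop 𝒰 B φ E) (hc : c ∈ Pop 𝒰 B φ E) :
    ω (a - c) (b - c) = 0 := by
  sorry

end Pool.Agent.Helper2.EG
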